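import Mathlib
import Pool.Agent.H81.Q1.Term

set_option autoImplicit false
open Finset

/-! # Module M3: common definitions

Sets of vertices and their stars, solid sets in an environment, fat cells, visible cells, the step
rule, the chain of environments and its observations. -/

namespace Pool.Agent.Q1.M3

open Pool.Agent.H75.Perc Pool.Agent.H75.TwoArm Pool.Agent.H75.Four Pool.Agent.H69.Q1
open Pool.Agent.H81.Q1 (pt)

/-! ### Stars -/

/-- The labels of the four edges at the vertex `v`. -/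
def star1 (v : ℤ × ℤ) : Finset (ℤ × ℤ) :=
  {(2 * v.1 + 1, 2 * v.2), (2 * v.1 - 1, 2 * v.2), (2 * v.1, 2 * v.2 + 1), (2 * v.1, 2 * v.2 - 1)}

/-- The labels of the edges with at least one end in `K`. -/
def star (K : Finset (ℤ × ℤ)) : Finset (ℤ × ℤ) := K.biUnion star1

/-- The labels of the edges with both ends in `K`. -/
def kap (K : Finset (ℤ × ℤ)) : Finset (ℤ × ℤ) := (star K).filter fun e => eu e ∈ K ∧ ev e ∈ K

/-- The labels of the edges with exactly one end in `K`. -/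
def perp (K : Finset (ℤ × ℤ)) : Finset (ℤ × ℤ) := star K \ kap K

lemma mem_star {K : Finset (ℤ × ℤ)} {e : ℤ × ℤ} : e ∈ star K ↔ ∃ v ∈ K, e ∈ star1 v := mem_biUnion

lemma star_union (K L : Finset (ℤ × ℤ)) : star (K ∪ L) = star K ∪ star L := by
  ext e; simp only [mem_star, mem_union]
  constructor
  · rintro ⟨v, h | h, h1⟩
    · exact Or.inl ⟨v, h, h1⟩
    · exact Or.inr ⟨v, h, h1⟩
  · rintro (⟨v, h, h1⟩ | ⟨v, h, h1⟩)
    · exact ⟨v, Or.inl h, h1⟩
    · exact ⟨v, Or.inr h, h1⟩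

lemma star_mono {K L : Finset (ℤ × ℤ)} (h : K ⊆ L) : star K ⊆ star L :=
  Finset.biUnion_subset_biUnion_of_subset_left _ h

lemma odd_star1 {v e : ℤ × ℤ} (h : e ∈ star1 v) : (e.1 + e.2) % 2 = 1 := by
  simp only [star1, mem_insert, mem_singleton] at h
  rcases h with rfl | rfl | rfl | rfl <;> simp only <;> omega

lemma mem_star1_iff {v e : ℤ × ℤ} (he : (e.1 + e.2) % 2 = 1) :
    e ∈ star1 v ↔ v = eu e ∨ v = ev e := by
  obtain ⟨a, b⟩ := e
  obtain ⟨x, y⟩ := v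
  simp only [star1, mem_insert, mem_singleton, Prod.mk.injEq, eu, ev] at he ⊢
  omega

lemma mem_star_iff {K : Finset (ℤ × ℤ)} {e : ℤ × ℤ} (he : (e.1 + e.2) % 2 = 1) :
    e ∈ star K ↔ eu e ∈ K ∨ ev e ∈ K := by
  rw [mem_star]
  constructor
  · rintro ⟨v, hv, h⟩
    rcases (mem_star1_iff he).1 h with rfl | rfl
    · exact Or.inl hv
    · exact Or.inr hv
  · rintro (h | h)
    · exact ⟨_, h, (mem_star1_iff he).2 (Or.inl rfl)⟩
    · exact ⟨_, h, (mem_star1_iff he).2 (Or.inr rfl)⟩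

lemma odd_star {K : Finset (ℤ × ℤ)} {e : ℤ × ℤ} (h : e ∈ star K) : (e.1 + e.2) % 2 = 1 := by
  obtain ⟨v, -, h1⟩ := mem_star.1 h
  exact odd_star1 h1

lemma mem_kap_iff {K : Finset (ℤ × ℤ)} {e : ℤ × ℤ} (he : (e.1 + e.2) % 2 = 1) :
    e ∈ kap K ↔ eu e ∈ K ∧ ev e ∈ K := by
  unfold kap
  rw [mem_filter, mem_star_iff he]
  tauto

lemma mem_perp_iff {K : Finset (ℤ × ℤ)} {e : ℤ × ℤ} (he : (e.1 + e.2) % 2 = 1) :
    e ∈ perp K ↔ (eu e ∈ K ∧ ev e ∉ K) ∨ (eu e ∉ K ∧ ev e ∈ K) := by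
  unfold perp
  rw [mem_sdiff, mem_star_iff he, mem_kap_iff he]
  tauto

/-! ### Solid sets -/

/-- `K` is solid in the environment `X`: a set of vertices connected by the free and wired edges inside
`K`, it contains the final vertex and does not contain the vertex of the tip. -/
structure Solid (X : DEnv) (K : Finset (ℤ × ℤ)) : Prop where
  conn : ∀ u ∈ K, ∀ v ∈ K, Co (kap K ∩ (X.E ∪ X.W)) u v
  beta : vx X.β ∈ K
  alpha : vx X.α ∉ K

/-! ### Step rule -/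

/-- Stop one step after the first corner at which a label of `S` is met. -/
def stepRule (S : Finset (ℤ × ℤ)) : ℕ → (ℕ → ℤ × ℤ) → Prop := fun i z => ∃ j < i, plab (z j) ∈ S

lemma adapted_stepRule (S : Finset (ℤ × ℤ)) : DEnv.Adapted (stepRule S) := fun i z z' h => by
  unfold stepRule
  constructor
  · rintro ⟨j, hj, h1⟩; exact ⟨j, hj, by rw [← h j hj.le]; exact h1⟩
  · rintro ⟨j, hj, h1⟩; exact ⟨j, hj, by rw [h j hj.le]; exact h1⟩

/-! ### Fat cells -/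

/-- A cell: level `k` (mesh `3⁻ᵏ`) and position. -/
abbrev Cell := ℕ × (ℤ × ℤ)

/-- mesh of level `k` -/
noncomputable def mesh (k : ℕ) : ℝ := (1 / 3 : ℝ) ^ k

lemma mesh_pos (k : ℕ) : 0 < mesh k := by unfold mesh; positivity

/-- The fat cell: the open square of side `5/3 η` around the square `o + [iη,(i+1)η] × [jη,(j+1)η]`,
`η = 3⁻ᵏ`. -/
def fat (o : ℂ) (q : Cell) : Set ℂ :=
  {z | o.re + (q.2.1 - 1 / 3) * mesh q.1 < z.re ∧ z.re < o.re + (q.2.1 + 4 / 3) * mesh q.1 ∧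
    o.im + (q.2.2 - 1 / 3) * mesh q.1 < z.im ∧ z.im < o.im + (q.2.2 + 4 / 3) * mesh q.1}

/-- The closed fat cell. -/
def cfat (o : ℂ) (q : Cell) : Set ℂ :=
  {z | o.re + (q.2.1 - 1 / 3) * mesh q.1 ≤ z.re ∧ z.re ≤ o.re + (q.2.1 + 4 / 3) * mesh q.1 ∧
    o.im + (q.2.2 - 1 / 3) * mesh q.1 ≤ z.im ∧ z.im ≤ o.im + (q.2.2 + 4 / 3) * mesh q.1}

/-- Two cells are adjacent if their fat cells intersect. -/
def AdjC (o : ℂ) (q q' : Cell) : Prop := (fat o q ∩ fat o q').Nonempty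

/-- vertices of `ℤ²` whose point at mesh `δ` lies in the fat cell: an explicit rectangle -/
noncomputable def verts (δ : ℝ) (o : ℂ) (q : Cell) : Finset (ℤ × ℤ) :=
  Ioo (⌊(o.re + (q.2.1 - 1 / 3) * mesh q.1) / δ⌋) (⌈(o.re + (q.2.1 + 4 / 3) * mesh q.1) / δ⌉) ×ˢ
  Ioo (⌊(o.im + (q.2.2 - 1 / 3) * mesh q.1) / δ⌋) (⌈(o.im + (q.2.2 + 4 / 3) * mesh q.1) / δ⌉)

lemma mem_verts {δ : ℝ} (hδ : 0 < δ) {o : ℂ} {q : Cell} {v : ℤ × ℤ} :
    v ∈ verts δ o q ↔ pt δ v ∈ fat o q := by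
  unfold verts fat pt
  simp only [mem_product, mem_Ioo, Set.mem_ofPred_eq, Int.floor_lt, Int.lt_ceil, div_lt_iff₀ hδ,
    lt_div_iff₀ hδ, mul_comm δ]
  tauto

/-- The cell `q` is free: its closed fat cell lies in `D` and no label touching it is explored. -/
def Free (D : Set ℂ) (δ : ℝ) (o : ℂ) (E : Finset (ℤ × ℤ)) (q : Cell) : Prop :=
  cfat o q ⊆ D ∧ star (verts δ o q) ⊆ E

/-- The cell `q` of level `k` is visible from the cell `b`: it is joined to `b` by free cells of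
level `k`. -/
def Vis (D : Set ℂ) (δ : ℝ) (o : ℂ) (b : Cell) (k : ℕ) (E : Finset (ℤ × ℤ)) (q : Cell) : Prop :=
  ∃ q', Relation.ReflTransGen (fun x y => AdjC o x y ∧ x.1 = k ∧ Free D δ o E x) q q' ∧
    q'.1 = k ∧ Free D δ o E q' ∧ AdjC o q' b

/-- Index of the box of mesh `3^(-l-1)` containing the point of the vertex `v`. -/
noncomputable def box (δ : ℝ) (o : ℂ) (l : ℕ) (v : ℤ × ℤ) : ℤ × ℤ :=
  (⌊((pt δ v).re - o.re) / mesh (l + 1)⌋, ⌊((pt δ v).im - o.im) / mesh (l + 1)⌋)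

end Pool.Agent.Q1.M3
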