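import Mathlib
import Pool.Agent.H69.Q1.Dobr

set_option autoImplicit false
open Finset

/-! # Chains of environments

`Rules` : an adapted stopping rule for every environment. `st`, `cf`, `tm`, `hist`: environment,
remaining configuration, time and history after `j` steps. Markov property `markov`, and the relation
with the path of the initial environment. -/

namespace Pool.Agent.Q1.M3

open Pool.Agent.H75.Perc Pool.Agent.H75.TwoArm Pool.Agent.H99.NC Pool.Agent.H69.Q1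

/-- Expectation at density `1/2`. -/
noncomputable abbrev EX (E : Finset (ℤ × ℤ)) (f : Finset (ℤ × ℤ) → ℝ) : ℝ := Ex (fun _ => 1 / 2) E f

lemma denv_ext {X Y : DEnv} (hE : X.E = Y.E) (hW : X.W = Y.W) (ha : X.α = Y.α) (hb : X.β = Y.β) :
    X = Y := by
  cases X; cases Y
  simp only at hE hW ha hb
  subst hE hW ha hb
  rfl

/-- A family of adapted stopping rules, one for each environment. -/
structure Rules where
  /-- the rule -/
  Q : DEnv → ℕ → (ℕ → ℤ × ℤ) → Prop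
  ad : ∀ X, DEnv.Adapted (Q X)

namespace Rules

variable (R : Rules)

/-- The environment after one step. -/
noncomputable def nenv (X : DEnv) (ω : Finset (ℤ × ℤ)) : DEnv :=
  X.after (R.Q X) (R.ad X) (ω ∩ X.E) inter_subset_right

/-- The configuration after one step. -/
noncomputable def ncf (X : DEnv) (ω : Finset (ℤ × ℤ)) : Finset (ℤ × ℤ) :=
  ω \ X.exset (R.Q X) (ω ∩ X.E)

/-- The environment after `j` steps. -/
noncomputable def st : ℕ → DEnv → Finset (ℤ × ℤ) → DEnv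
  | 0, X, _ => X
  | j + 1, X, ω => st j (R.nenv X ω) (R.ncf X ω)

/-- The configuration after `j` steps. -/
noncomputable def cf : ℕ → DEnv → Finset (ℤ × ℤ) → Finset (ℤ × ℤ)
  | 0, _, ω => ω
  | j + 1, X, ω => cf j (R.nenv X ω) (R.ncf X ω)

/-- The time after `j` steps. -/
noncomputable def tm : ℕ → DEnv → Finset (ℤ × ℤ) → ℕ
  | 0, _, _ => 0
  | j + 1, X, ω => X.tau (R.Q X) (ω ∩ X.E) + tm j (R.nenv X ω) (R.ncf X ω)

/-- The list of the observations of the first `j` steps. -/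
noncomputable def hist {O : Type} (obs : DEnv → DEnv → O) : ℕ → DEnv → Finset (ℤ × ℤ) → List O
  | 0, _, _ => []
  | j + 1, X, ω => obs X (R.nenv X ω) :: hist obs j (R.nenv X ω) (R.ncf X ω)

@[simp] lemma st_zero (X : DEnv) (ω : Finset (ℤ × ℤ)) : R.st 0 X ω = X := rfl
@[simp] lemma cf_zero (X : DEnv) (ω : Finset (ℤ × ℤ)) : R.cf 0 X ω = ω := rfl
@[simp] lemma tm_zero (X : DEnv) (ω : Finset (ℤ × ℤ)) : R.tm 0 X ω = 0 := rfl
@[simp] lemma hist_zero {O : Type} (obs : DEnv → DEnv → O) (X : DEnv) (ω : Finset (ℤ × ℤ)) :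
    R.hist obs 0 X ω = [] := rfl

lemma st_succ (j : ℕ) (X : DEnv) (ω : Finset (ℤ × ℤ)) :
    R.st (j + 1) X ω = R.st j (R.nenv X ω) (R.ncf X ω) := rfl
lemma cf_succ (j : ℕ) (X : DEnv) (ω : Finset (ℤ × ℤ)) :
    R.cf (j + 1) X ω = R.cf j (R.nenv X ω) (R.ncf X ω) := rfl
lemma tm_succ (j : ℕ) (X : DEnv) (ω : Finset (ℤ × ℤ)) :
    R.tm (j + 1) X ω = X.tau (R.Q X) (ω ∩ X.E) + R.tm j (R.nenv X ω) (R.ncf X ω) := rfl
lemma hist_succ {O : Type} (obs : DEnv → DEnv → O) (j : ℕ) (X : DEnv) (ω : Finset (ℤ × ℤ)) :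
    R.hist obs (j + 1) X ω = obs X (R.nenv X ω) :: R.hist obs j (R.nenv X ω) (R.ncf X ω) := rfl

/-! ### The last step -/

lemma st_last (j : ℕ) (X : DEnv) (ω : Finset (ℤ × ℤ)) :
    R.st (j + 1) X ω = R.nenv (R.st j X ω) (R.cf j X ω) := by
  induction j generalizing X ω with
  | zero => rfl
  | succ j ih => rw [R.st_succ (j + 1), ih, R.st_succ j, R.cf_succ j]

lemma cf_last (j : ℕ) (X : DEnv) (ω : Finset (ℤ × ℤ)) :
    R.cf (j + 1) X ω = R.ncf (R.st j X ω) (R.cf j X ω) := by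
  induction j generalizing X ω with
  | zero => rfl
  | succ j ih => rw [R.cf_succ (j + 1), ih, R.st_succ j, R.cf_succ j]

lemma tm_last (j : ℕ) (X : DEnv) (ω : Finset (ℤ × ℤ)) :
    R.tm (j + 1) X ω = R.tm j X ω +
      (R.st j X ω).tau (R.Q (R.st j X ω)) (R.cf j X ω ∩ (R.st j X ω).E) := by
  induction j generalizing X ω with
  | zero => simp [tm, st, cf]
  | succ j ih => rw [R.tm_succ (j + 1), ih, R.tm_succ j, R.st_succ j, R.cf_succ j, add_assoc]

lemma hist_last {O : Type} (obs : DEnv → DEnv → O) (j : ℕ) (X : DEnv) (ω : Finset (ℤ × ℤ)) :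
    R.hist obs (j + 1) X ω = R.hist obs j X ω ++ [obs (R.st j X ω) (R.st (j + 1) X ω)] := by
  induction j generalizing X ω with
  | zero => rfl
  | succ j ih =>
    rw [R.hist_succ obs (j + 1), ih, R.hist_succ obs j, R.st_succ j, R.st_succ (j + 1)]
    rfl

lemma hist_length {O : Type} (obs : DEnv → DEnv → O) (j : ℕ) (X : DEnv) (ω : Finset (ℤ × ℤ)) :
    (R.hist obs j X ω).length = j := by
  induction j generalizing X ω with
  | zero => rfl
  | succ j ih => rw [R.hist_succ, List.length_cons, ih]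

lemma hist_map {O O' : Type} (obs : DEnv → DEnv → O) (obs' : DEnv → DEnv → O') (φ : O → O')
    (h : ∀ X X', obs' X X' = φ (obs X X')) (j : ℕ) (X : DEnv) (ω : Finset (ℤ × ℤ)) :
    R.hist obs' j X ω = (R.hist obs j X ω).map φ := by
  induction j generalizing X ω with
  | zero => rfl
  | succ j ih => rw [R.hist_succ, R.hist_succ, List.map_cons, ih, h]

/-! ### One step -/

section step

variable {X : DEnv} {ω : Finset (ℤ × ℤ)}

@[simp] lemma nenv_E : (R.nenv X ω).E = X.E \ X.exset (R.Q X) (ω ∩ X.E) := rfl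
@[simp] lemma nenv_W : (R.nenv X ω).W = X.W ∪ (ω ∩ X.E ∩ X.exset (R.Q X) (ω ∩ X.E)) := rfl
@[simp] lemma nenv_α : (R.nenv X ω).α = X.cor (ω ∩ X.E) (X.tau (R.Q X) (ω ∩ X.E)) := rfl
@[simp] lemma nenv_β : (R.nenv X ω).β = X.β := rfl

lemma ncf_sub (h : ω ⊆ X.E) : R.ncf X ω ⊆ (R.nenv X ω).E := by
  unfold ncf
  rw [nenv_E]
  exact sdiff_subset_sdiff h (subset_refl _)

/-- The new environment does not change if the unexplored edges are resampled. -/
lemma nenv_congr {ω' : Finset (ℤ × ℤ)} (h : ω ⊆ X.E) (h' : ω' ⊆ X.E)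
    (hU : ∀ e ∈ X.exset (R.Q X) ω, (e ∈ ω' ↔ e ∈ ω)) : R.nenv X ω' = R.nenv X ω := by
  obtain ⟨h1, h2, h3⟩ := X.local_exset (R.ad X) h h' hU
  have e : ω ∩ X.E = ω := inter_eq_left.2 h
  have e' : ω' ∩ X.E = ω' := inter_eq_left.2 h'
  refine denv_ext ?_ ?_ ?_ rfl
  · rw [nenv_E, nenv_E, e, e', h3]
  · rw [nenv_W, nenv_W, e, e', h3]
    congr 1
    ext a
    rw [mem_inter, mem_inter]
    constructor
    · rintro ⟨h4, h5⟩; exact ⟨(hU a h5).1 h4, h5⟩
    · rintro ⟨h4, h5⟩; exact ⟨(hU a h5).2 h4, h5⟩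
  · rw [nenv_α, nenv_α, e, e', h1, h2 _ le_rfl]

/-- **Markov property for one step.** -/
theorem markov1 (X : DEnv) (g : DEnv → Finset (ℤ × ℤ) → ℝ) :
    EX X.E (fun ω => g (R.nenv X ω) (R.ncf X ω)) =
      EX X.E (fun ω => EX (R.nenv X ω).E (fun η => g (R.nenv X ω) η)) := by
  unfold EX
  rw [X.Ex_markov (fun _ => 1 / 2) (R.ad X)]
  refine Ex_congr fun ω hω => ?_
  have e : ω ∩ X.E = ω := inter_eq_left.2 hω
  rw [nenv_E, e]
  refine Ex_congr fun η hη => ?_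
  set U := X.exset (R.Q X) ω with hU
  have hUE : U ⊆ X.E := X.exset_sub ω
  have h' : η ∪ (ω ∩ U) ⊆ X.E := union_subset (hη.trans sdiff_subset) (inter_subset_left.trans hω)
  have hag : ∀ e ∈ U, (e ∈ η ∪ (ω ∩ U) ↔ e ∈ ω) := by
    intro e he
    rw [mem_union, mem_inter]
    constructor
    · rintro (h1 | h1)
      · exact absurd he (mem_sdiff.1 (hη h1)).2
      · exact h1.1
    · intro h1; exact Or.inr ⟨h1, he⟩
  rw [R.nenv_congr hω h' hag]
  congr 1
  unfold ncf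
  rw [inter_eq_left.2 h', (X.local_exset (R.ad X) hω h' hag).2.2]
  ext a
  rw [mem_sdiff, mem_union, mem_inter]
  constructor
  · rintro ⟨h1 | h1, h2⟩
    · exact h1
    · exact absurd h1.2 h2
  · intro h1; exact ⟨Or.inl h1, (mem_sdiff.1 (hη h1)).2⟩

/-- **Markov property after `j` steps.** -/
theorem markov {O : Type} (obs : DEnv → DEnv → O) (j : ℕ) (X : DEnv)
    (G : List O → DEnv → Finset (ℤ × ℤ) → ℝ) :
    EX X.E (fun ω => G (R.hist obs j X ω) (R.st j X ω) (R.cf j X ω)) =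
      EX X.E (fun ω => EX (R.st j X ω).E (fun η => G (R.hist obs j X ω) (R.st j X ω) η)) := by
  induction j generalizing X G with
  | zero =>
    simp only [hist_zero, st_zero, cf_zero]
    have h1 : ∀ c : ℝ, EX X.E (fun _ => c) = c := fun c => Ex_const _ _ _
    rw [h1]
  | succ j ih =>
    simp only [hist_succ, st_succ, cf_succ]
    have e1 := R.markov1 X (fun Y η =>
      G (obs X Y :: R.hist obs j Y η) (R.st j Y η) (R.cf j Y η))
    have e2 := R.markov1 X (fun Y η =>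
      EX (R.st j Y η).E (fun ζ => G (obs X Y :: R.hist obs j Y η) (R.st j Y η) ζ))
    refine (e1.trans ?_).trans e2.symm
    refine Ex_congr fun ω _ => ?_
    exact ih (R.nenv X ω) (fun h Y ζ => G (obs X (R.nenv X ω) :: h) Y ζ)

end step

/-! ### The path -/

section path

variable {X : DEnv} {ω : Finset (ℤ × ℤ)}

lemma nenv_cor (h : ω ⊆ X.E) (i : ℕ) :
    (R.nenv X ω).cor (R.ncf X ω) i = X.cor ω (i + X.tau (R.Q X) (ω ∩ X.E)) := by
  have e : ω ∩ X.E = ω := inter_eq_left.2 h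
  unfold nenv ncf
  have h1 := X.after_cor (R.ad X) (ω := ω ∩ X.E) inter_subset_right (ω' := ω) h i
  rw [h1]
  congr 1
  rw [e]
  ext a
  rw [mem_mix]
  tauto

lemma nenv_len (h : ω ⊆ X.E) :
    (R.nenv X ω).len (R.ncf X ω) + X.tau (R.Q X) (ω ∩ X.E) = X.len ω := by
  have e : ω ∩ X.E = ω := inter_eq_left.2 h
  unfold nenv ncf
  have h1 := X.after_len (R.ad X) (ω := ω ∩ X.E) inter_subset_right (ω' := ω) h
  rw [h1]
  congr 1
  rw [e]
  ext a
  rw [mem_mix]
  tauto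

lemma cf_sub (h : ω ⊆ X.E) (j : ℕ) : R.cf j X ω ⊆ (R.st j X ω).E := by
  induction j generalizing X ω with
  | zero => exact h
  | succ j ih => exact ih (R.ncf_sub h)

lemma st_cor (h : ω ⊆ X.E) (j i : ℕ) :
    (R.st j X ω).cor (R.cf j X ω) i = X.cor ω (i + R.tm j X ω) := by
  induction j generalizing X ω with
  | zero => rfl
  | succ j ih =>
    rw [R.st_succ, R.cf_succ, ih (R.ncf_sub h), R.nenv_cor h, R.tm_succ]
    congr 1
    omega

lemma st_len (h : ω ⊆ X.E) (j : ℕ) :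
    (R.st j X ω).len (R.cf j X ω) + R.tm j X ω = X.len ω := by
  induction j generalizing X ω with
  | zero => rfl
  | succ j ih =>
    rw [R.st_succ, R.cf_succ, R.tm_succ, ← R.nenv_len h, ← ih (R.ncf_sub h)]
    omega

lemma tm_le_len (h : ω ⊆ X.E) (j : ℕ) : R.tm j X ω ≤ X.len ω := by
  rw [← R.st_len h j]; omega

lemma tm_mono (j : ℕ) (X : DEnv) (ω : Finset (ℤ × ℤ)) : R.tm j X ω ≤ R.tm (j + 1) X ω := by
  rw [R.tm_last]; omega

lemma st_α (h : ω ⊆ X.E) (j : ℕ) : (R.st j X ω).α = X.cor ω (R.tm j X ω) := by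
  have := R.st_cor h j 0
  rw [zero_add] at this
  exact this

lemma st_β (j : ℕ) : (R.st j X ω).β = X.β := by
  induction j generalizing X ω with
  | zero => rfl
  | succ j ih => rw [R.st_succ, ih, nenv_β]

/-- The free labels met before the time `t`. -/
noncomputable def metE (X : DEnv) (ω : Finset (ℤ × ℤ)) (t : ℕ) : Finset (ℤ × ℤ) :=
  X.E ∩ (range t).image (fun k => plab (X.cor ω k))

lemma mem_metE {t : ℕ} {e : ℤ × ℤ} :
    e ∈ metE X ω t ↔ e ∈ X.E ∧ ∃ k < t, plab (X.cor ω k) = e := by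
  unfold metE
  rw [mem_inter, mem_image]
  simp only [mem_range]

lemma mem_exset_st (h : ω ⊆ X.E) (j : ℕ) {e : ℤ × ℤ} :
    e ∈ (R.st j X ω).exset (R.Q (R.st j X ω)) (R.cf j X ω ∩ (R.st j X ω).E) ↔
      e ∈ (R.st j X ω).E ∧ ∃ k, R.tm j X ω ≤ k ∧ k < R.tm (j + 1) X ω ∧ plab (X.cor ω k) = e := by
  rw [DEnv.mem_exset, R.tm_last, inter_eq_left.2 (R.cf_sub h j)]
  refine and_congr_right fun _ => ?_
  constructor
  · rintro ⟨k, hk, h1⟩
    rw [R.st_cor h] at h1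
    exact ⟨_, by omega, by omega, h1⟩
  · rintro ⟨k, hk, hk', h1⟩
    refine ⟨k - R.tm j X ω, by omega, ?_⟩
    rw [R.st_cor h, Nat.sub_add_cancel hk, h1]

lemma st_E (h : ω ⊆ X.E) (j : ℕ) : (R.st j X ω).E = X.E \ metE X ω (R.tm j X ω) := by
  induction j with
  | zero =>
    rw [R.st_zero, R.tm_zero]
    ext e
    rw [mem_sdiff, mem_metE]
    simp
  | succ j ih =>
    have hm := R.tm_mono j X ω
    ext e
    rw [R.st_last, nenv_E, mem_sdiff, R.mem_exset_st h, ih, mem_sdiff, mem_sdiff, mem_metE,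
      mem_metE]
    constructor
    · rintro ⟨⟨h3, h4⟩, h5⟩
      refine ⟨h3, ?_⟩
      rintro ⟨-, k, hk, h6⟩
      rcases lt_or_ge k (R.tm j X ω) with h7 | h7
      · exact h4 ⟨h3, k, h7, h6⟩
      · exact h5 ⟨⟨h3, h4⟩, k, h7, hk, h6⟩
    · rintro ⟨h3, h4⟩
      refine ⟨⟨h3, fun ⟨_, k, hk, h6⟩ => h4 ⟨h3, k, by omega, h6⟩⟩, ?_⟩
      rintro ⟨-, k, hk, hk', h6⟩
      exact h4 ⟨h3, _, hk', h6⟩

lemma cf_eq (h : ω ⊆ X.E) (j : ℕ) : R.cf j X ω = ω \ metE X ω (R.tm j X ω) := by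
  induction j with
  | zero =>
    rw [R.cf_zero, R.tm_zero]
    ext e
    rw [mem_sdiff, mem_metE]
    simp
  | succ j ih =>
    have hm := R.tm_mono j X ω
    ext e
    rw [R.cf_last]
    unfold ncf
    rw [mem_sdiff, R.mem_exset_st h, R.st_E h]
    rw [ih]
    rw [mem_sdiff, mem_sdiff, mem_sdiff, mem_metE, mem_metE]
    constructor
    · rintro ⟨⟨h3, h4⟩, h5⟩
      refine ⟨h3, ?_⟩
      rintro ⟨-, k, hk, h6⟩
      rcases lt_or_ge k (R.tm j X ω) with h7 | h7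
      · exact h4 ⟨h h3, k, h7, h6⟩
      · exact h5 ⟨⟨h h3, h4⟩, k, h7, hk, h6⟩
    · rintro ⟨h3, h4⟩
      refine ⟨⟨h3, fun ⟨h8, k, hk, h6⟩ => h4 ⟨h8, k, by omega, h6⟩⟩, ?_⟩
      rintro ⟨h8, k, hk, hk', h6⟩
      exact h4 ⟨h8.1, _, hk', h6⟩

lemma st_W (h : ω ⊆ X.E) (j : ℕ) :
    (R.st j X ω).W = X.W ∪ (ω ∩ metE X ω (R.tm j X ω)) := by
  induction j with
  | zero =>
    rw [R.st_zero, R.tm_zero]
    ext e
    rw [mem_union, mem_inter, mem_metE]
    simp
  | succ j ih =>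
    have hm := R.tm_mono j X ω
    have hc := R.cf_sub h j
    ext e
    rw [R.st_last, nenv_W, mem_union, mem_inter, R.mem_exset_st h, ih, inter_eq_left.2 hc,
      R.cf_eq h, R.st_E h]
    simp only [mem_union, mem_inter, mem_sdiff, mem_metE]
    constructor
    · rintro ((h3 | ⟨h3, h4, k, hk, h5⟩) | ⟨⟨h3, h4⟩, ⟨h5, h6⟩, k, hk, hk', h7⟩)
      · exact Or.inl h3
      · exact Or.inr ⟨h3, h4, k, by omega, h5⟩
      · exact Or.inr ⟨h3, h5, _, hk', h7⟩
    · rintro (h3 | ⟨h3, h4, k, hk, h5⟩)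
      · exact Or.inl (Or.inl h3)
      · rcases lt_or_ge k (R.tm j X ω) with h7 | h7
        · exact Or.inl (Or.inr ⟨h3, h4, k, h7, h5⟩)
        · by_cases h8 : ∃ k < R.tm j X ω, plab (X.cor ω k) = e
          · obtain ⟨k', hk', h9⟩ := h8
            exact Or.inl (Or.inr ⟨h3, h4, k', hk', h9⟩)
          · exact Or.inr ⟨⟨h3, fun h9 => h8 h9.2⟩, ⟨h4, fun h9 => h8 h9.2⟩, k, h7, hk, h5⟩

end path

end Rules

end Pool.Agent.Q1.M3
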