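import Mathlib
import Pool.Agent.Q1.M3.Defs
import Pool.Agent.Q1.M3.Chain
import Pool.Agent.H81.Q1.Term

set_option autoImplicit false
open Finset Filter Topology

/-! # Module M3: the chain of steps and the statements of the interfaces

* `Base A r0` : generic offset, base cell `qb` and barrier `N n` converging to `b` (statement `StNB`).
* `Base.rules` : one step = explore until a label at a visible cell of level `k0` or at the barrier is
  met. `Base.obs` : observation of a step at level `k`.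
* `StCMP` : one-step law (comparison with grid polygons).
* `StSmall` : the steps are small. -/

namespace Pool.Agent.Q1.M3

open Pool.Agent.H75.Perc Pool.Agent.H75.TwoArm Pool.Agent.H75.Four Pool.Agent.H69.Q1
open Pool.Agent.H81.Q1 (pt DDomain Approx IsJordanDomain IsArcs)

/-! ### Families of cells -/

/-- Vertices of a family of cells. -/
noncomputable def Vn (δ : ℝ) (o : ℂ) (C : Finset Cell) : Finset (ℤ × ℤ) := C.biUnion (verts δ o)

/-- The cells of level `k` whose closed fat cell is contained in `D`. -/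
noncomputable def cells (D : Set ℂ) (o : ℂ) (k : ℕ) : Finset Cell :=
  open Classical in
  if h : {q : Cell | q.1 = k ∧ cfat o q ⊆ D}.Finite then h.toFinset else ∅

/-- `q` is joined to the cell `b` by cells of level `k` in `S`. -/
def ConnC (o : ℂ) (S : Cell → Prop) (b : Cell) (k : ℕ) (q : Cell) : Prop :=
  ∃ q', Relation.ReflTransGen (fun x y => AdjC o x y ∧ x.1 = k ∧ S x) q q' ∧
    q'.1 = k ∧ S q' ∧ AdjC o q' b

lemma vis_iff {D : Set ℂ} {δ : ℝ} {o : ℂ} {b : Cell} {k : ℕ} {E : Finset (ℤ × ℤ)} {q : Cell} :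
    Vis D δ o b k E q ↔ ConnC o (Free D δ o E) b k q := Iff.rfl

/-- The visible cells of level `k`. -/
noncomputable def Uk (D : Set ℂ) (δ : ℝ) (o : ℂ) (b : Cell) (k : ℕ) (E : Finset (ℤ × ℤ)) :
    Finset Cell :=
  open Classical in (cells D o k).filter (fun q => Vis D δ o b k E q)

/-- The visible cells of the levels `k0 ≤ l ≤ k`. -/
noncomputable def Ule (D : Set ℂ) (δ : ℝ) (o : ℂ) (b : Cell) (k0 k : ℕ) (E : Finset (ℤ × ℤ)) :
    Finset Cell :=
  (Icc k0 k).biUnion (fun l => Uk D δ o b l E)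

/-- Every cell of `C` is joined to `b` by cells of `C` of its own level. -/
def Lev (o : ℂ) (b : Cell) (C : Finset Cell) : Prop := ∀ q ∈ C, ConnC o (fun x => x ∈ C) b q.1 q

/-- The boxes of mesh `3^(-k-1)` contained in the fat cell `q` (of level `≤ k`). -/
noncomputable def boxes (k : ℕ) (q : Cell) : Finset (ℤ × ℤ) :=
  Ico ((3 * q.2.1 - 1) * 3 ^ (k - q.1)) ((3 * q.2.1 + 4) * 3 ^ (k - q.1)) ×ˢ
  Ico ((3 * q.2.2 - 1) * 3 ^ (k - q.1)) ((3 * q.2.2 + 4) * 3 ^ (k - q.1))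

/-- The boxes of mesh `3^(-k-1)` contained in the fat cells of a family. -/
noncomputable def Bxs (k : ℕ) (C : Finset Cell) : Finset (ℤ × ℤ) := C.biUnion (boxes k)

/-- Vertex `m` of the grid of mesh `3^(-k-1)`. -/
noncomputable def gpt (o : ℂ) (k : ℕ) (m : ℤ × ℤ) : ℂ :=
  ⟨o.re + m.1 * mesh (k + 1), o.im + m.2 * mesh (k + 1)⟩

/-- The four directions. -/
def dirs : Finset (ℤ × ℤ) := {(1, 0), (0, 1), (-1, 0), (0, -1)}

/-! ### Exit events -/

/-- The first label of `star K` met by the exploration path is the edge from a vertex `v ∈ K` with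
box `x` to the vertex `v + d ∉ K`. -/
def ExB (δ : ℝ) (o : ℂ) (k : ℕ) (X : DEnv) (K : Finset (ℤ × ℤ)) (x d : ℤ × ℤ)
    (ω : Finset (ℤ × ℤ)) : Prop :=
  ∃ i < X.len ω, (∀ j < i, plab (X.cor ω j) ∉ star K) ∧
    ∃ v ∈ K, v + d ∉ K ∧ plab (X.cor ω i) = v + (v + d) ∧ box δ o k v = x

/-! ### Base -/

section

variable {D : Set ℂ} {a b : ℂ} {A₁ A₂ : Set ℂ}

/-- The environment of the `n`-th domain. -/
noncomputable def X0 (A : Approx D a b A₁ A₂) (n : ℕ) : DEnv := (A.X n).toDEnv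

/-- Generic offset, base cell, barrier converging to `b`. -/
structure Base (A : Approx D a b A₁ A₂) (r0 : ℝ) where
  /-- offset of the grids -/
  o : ℂ
  /-- no lattice point is on a grid line -/
  gen : ∀ (n k : ℕ) (m j : ℤ),
    o.re + m * mesh k ≠ A.δ n * j ∧ o.im + m * mesh k ≠ A.δ n * j
  /-- the base cell -/
  qb : Cell
  /-- the cells of the barrier -/
  Q : ℕ → Finset Cell
  qb_mem : qb ∈ Q 0
  mono : ∀ M, Q M ⊆ Q (M + 1)
  connQ : ∀ M, ∀ q ∈ Q M, ∀ q' ∈ Q M,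
    Relation.ReflTransGen (fun x y => AdjC o x y ∧ x ∈ Q M ∧ y ∈ Q M) q q'
  subQ : ∀ M, ∀ q ∈ Q M, cfat o q ⊆ D ∩ Metric.ball b r0
  /-- radii converging to `0` -/
  r : ℕ → ℝ
  rlim : Tendsto r atTop (𝓝 0)
  rpos : ∀ M, 0 < r M
  /-- vertices of the barrier -/
  N : ℕ → Finset (ℤ × ℤ)
  hN : ∀ M, ∀ᶠ n in atTop, ∃ N' : Finset (ℤ × ℤ), N n = Vn (A.δ n) o (Q M) ∪ N' ∧
    ∀ v ∈ N', pt (A.δ n) v ∈ Metric.ball b (r M)
  sub : ∀ᶠ n in atTop, ∀ v ∈ N n, pt (A.δ n) v ∈ Metric.ball b r0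
  conn : ∀ᶠ n in atTop, ∀ u ∈ N n, ∀ v ∈ N n, Co (kap (N n) ∩ ((X0 A n).E ∪ (X0 A n).W)) u v
  beta : ∀ᶠ n in atTop, vx (X0 A n).β ∈ N n

/-- **[NB]** Bases exist. -/
def StNB (A : Approx D a b A₁ A₂) : Prop := ∀ r0 > 0, Nonempty (Base A r0)

namespace Base

variable {A : Approx D a b A₁ A₂} {r0 : ℝ} (B : Base A r0)

/-- The target of a step in the environment with free labels `E`. -/
noncomputable def F (k0 n : ℕ) (E : Finset (ℤ × ℤ)) : Finset (ℤ × ℤ) :=
  Vn (A.δ n) B.o (Uk D (A.δ n) B.o B.qb k0 E) ∪ B.N n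

/-- The environment is finished: the label of the tip is at the barrier. -/
def Fin (n : ℕ) (X : DEnv) : Prop := lab X.α ∈ star (B.N n)

/-- The steps: nothing happens in finished environments. -/
noncomputable def rules (k0 n : ℕ) : Rules where
  Q X := fun i z => B.Fin n X ∨ stepRule (star (B.F k0 n X.E)) i z
  ad X := fun i z z' h =>
    or_congr Iff.rfl (adapted_stepRule (star (B.F k0 n X.E)) i z z' h)

/-- The end in `F` of the edge `e`. -/
noncomputable def _root_.Pool.Agent.Q1.M3.tipv (F : Finset (ℤ × ℤ)) (e : ℤ × ℤ) : ℤ × ℤ :=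
  if eu e ∈ F then eu e else ev e

/-- The direction from `tipv F e` to the other end of the edge `e`. -/
noncomputable def _root_.Pool.Agent.Q1.M3.tipd (F : Finset (ℤ × ℤ)) (e : ℤ × ℤ) : ℤ × ℤ :=
  if eu e ∈ F then ev e - eu e else eu e - ev e

/-- Observation at level `k` of the step from `X` to `X'`: nothing if `X'` is finished, otherwise the
visible families of levels `k0, …, k`, the box of the tip and its direction. -/
noncomputable def obs (k0 k n : ℕ) (X X' : DEnv) :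
    Option (Finset Cell × (ℤ × ℤ) × (ℤ × ℤ)) :=
  open Classical in
  if B.Fin n X' then none
  else some (Ule D (A.δ n) B.o B.qb k0 k X'.E,
    box (A.δ n) B.o k (tipv (B.F k0 n X.E) (lab X'.α)), tipd (B.F k0 n X.E) (lab X'.α))

/-- The environment after `j` steps. -/
noncomputable def X (k0 n j : ℕ) (ω : Finset (ℤ × ℤ)) : DEnv := (B.rules k0 n).st j (X0 A n) ω

/-- The time after `j` steps. -/
noncomputable def T (k0 n j : ℕ) (ω : Finset (ℤ × ℤ)) : ℕ := (B.rules k0 n).tm j (X0 A n) ω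

/-- The history at level `k` of the first `j` steps. -/
noncomputable def H (k0 k n j : ℕ) (ω : Finset (ℤ × ℤ)) :
    List (Option (Finset Cell × (ℤ × ℤ) × (ℤ × ℤ))) :=
  (B.rules k0 n).hist (B.obs k0 k n) j (X0 A n) ω

/-- The tip is not within `ρ` of a grid vertex of mesh `3^(-k-1)`. -/
def Good (k n : ℕ) (ρ : ℝ) (X : DEnv) : Prop :=
  ∀ m : ℤ × ℤ, ρ ≤ dist (pt (A.δ n) (vx X.α)) (gpt B.o k m)

end Base

/-- **[CMP]** The one-step law. -/
def StCMP {A : Approx D a b A₁ A₂} {r0 : ℝ} (B : Base A r0) (k0 : ℕ) : Prop :=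
  ∃ k1, k0 ≤ k1 ∧ ∀ j k : ℕ, k1 ≤ k → ∀ ε > 0, ∀ ρ > 0, ∃ k', k ≤ k' ∧
    ∃ Γ : ℕ → List (Option (Finset Cell × (ℤ × ℤ) × (ℤ × ℤ))) → Finset Cell → ℤ × ℤ → ℤ × ℤ → ℝ,
      (∀ h C x d, ∃ l, Tendsto (fun n => Γ n h C x d) atTop (𝓝 l)) ∧
      ∀ᶠ n in atTop, ∀ ω, ω ⊆ (X0 A n).E → ¬ B.Fin n (B.X k0 n j ω) →
        (j ≠ 0 → B.Good k n ρ (B.X k0 n j ω)) →
        ∀ C x d, Uk D (A.δ n) B.o B.qb k0 (B.X k0 n j ω).E ⊆ C →
          C ⊆ Ule D (A.δ n) B.o B.qb k0 k (B.X k0 n j ω).E → Lev B.o B.qb C →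
          x ∈ Bxs k (Uk D (A.δ n) B.o B.qb k0 (B.X k0 n j ω).E) →
          (∀ v ∈ B.N n, box (A.δ n) B.o k v ≠ x) → d ∈ dirs →
          |Pr (B.X k0 n j ω).E (ExB (A.δ n) B.o k (B.X k0 n j ω)
              (Vn (A.δ n) B.o C ∪ B.N n) x d) - Γ n (B.H k0 k' n j ω) C x d| ≤ ε

/-- **[SMALL]** The steps are small and the path stays near `b` after the last step. -/
def StSmall (A : Approx D a b A₁ A₂) : Prop :=
  ∀ ε > 0, ∃ r0 > 0, ∀ B : Base A r0, ∃ k00, ∀ k0, k00 ≤ k0 → ∀ᶠ n in atTop,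
    Pr (X0 A n).E (fun ω =>
      (∃ j t, B.T k0 n j ω ≤ t ∧ t ≤ B.T k0 n (j + 1) ω ∧
        ε < dist (pt (A.δ n) (vx ((X0 A n).cor ω t)))
          (pt (A.δ n) (vx ((X0 A n).cor ω (B.T k0 n j ω))))) ∨
      (∃ j t, B.Fin n (B.X k0 n j ω) ∧ B.T k0 n j ω ≤ t ∧ t ≤ (X0 A n).len ω ∧
        ε < dist (pt (A.δ n) (vx ((X0 A n).cor ω t))) b)) ≤ ε

end

end Pool.Agent.Q1.M3
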