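import Mathlib
import Pool.Agent.Q1.M3.Iface

set_option autoImplicit false
open Finset Filter Topology

/-! # M3: boxes and vertices, finiteness of the families, visible families -/

namespace Pool.Agent.Q1.M3

open Pool.Agent.H75.Perc Pool.Agent.H75.TwoArm Pool.Agent.H75.Four Pool.Agent.H69.Q1
open Pool.Agent.H81.Q1 (pt DDomain Approx IsJordanDomain IsArcs)

/-! ### Boxes -/

lemma mesh_le {l k : ℕ} (h : l ≤ k) : mesh l = 3 * 3 ^ (k - l) * mesh (k + 1) := by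
  unfold mesh
  have h1 : k + 1 = (k - l) + 1 + l := by omega
  rw [h1, pow_add, pow_add, pow_one]
  have h2 : (3 : ℝ) ^ (k - l) * (1 / 3) ^ (k - l) = 1 := by
    rw [← mul_pow]; norm_num
  calc (1 / 3 : ℝ) ^ l = (3 ^ (k - l) * (1 / 3) ^ (k - l)) * (1 / 3) ^ l := by rw [h2, one_mul]
    _ = _ := by ring

lemma coord_iff {l k : ℕ} (h : l ≤ k) {x0 t : ℝ} (q : ℤ)
    (hg : ∀ m : ℤ, x0 + m * mesh (k + 1) ≠ t) :
    (x0 + (q - 1 / 3) * mesh l < t ∧ t < x0 + (q + 4 / 3) * mesh l) ↔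
      ((3 * q - 1) * 3 ^ (k - l) ≤ ⌊(t - x0) / mesh (k + 1)⌋ ∧
        ⌊(t - x0) / mesh (k + 1)⌋ < (3 * q + 4) * 3 ^ (k - l)) := by
  have hm := mesh_pos (k + 1)
  rw [Int.le_floor, Int.floor_lt, le_div_iff₀ hm, div_lt_iff₀ hm, mesh_le h]
  have h1 := hg ((3 * q - 1) * 3 ^ (k - l))
  push_cast at h1 ⊢
  constructor
  · rintro ⟨h2, h3⟩
    constructor <;> nlinarith
  · rintro ⟨h2, h3⟩
    refine ⟨lt_of_le_of_ne ?_ ?_, by nlinarith⟩
    · nlinarith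
    · intro h4
      apply h1
      rw [← h4]
      ring

/-- Genericity of the offset for one mesh. -/
def Gen (δ : ℝ) (o : ℂ) : Prop :=
  ∀ (k : ℕ) (m j : ℤ), o.re + m * mesh k ≠ δ * j ∧ o.im + m * mesh k ≠ δ * j

lemma mem_verts_iff_box {δ : ℝ} (hδ : 0 < δ) {o : ℂ} (hg : Gen δ o) {q : Cell} {k : ℕ}
    (h : q.1 ≤ k) {v : ℤ × ℤ} : v ∈ verts δ o q ↔ box δ o k v ∈ boxes k q := by
  rw [mem_verts hδ]
  unfold fat box boxes
  rw [mem_product, mem_Ico, mem_Ico]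
  have h1 := coord_iff h (x0 := o.re) (t := (pt δ v).re) q.2.1
    (fun m => (hg (k + 1) m v.1).1)
  have h2 := coord_iff h (x0 := o.im) (t := (pt δ v).im) q.2.2
    (fun m => (hg (k + 1) m v.2).2)
  simp only [Set.mem_ofPred_eq]
  rw [← h1, ← h2]
  tauto

lemma mem_Vn {δ : ℝ} {o : ℂ} {C : Finset Cell} {v : ℤ × ℤ} :
    v ∈ Vn δ o C ↔ ∃ q ∈ C, v ∈ verts δ o q := mem_biUnion

lemma mem_Bxs {k : ℕ} {C : Finset Cell} {x : ℤ × ℤ} : x ∈ Bxs k C ↔ ∃ q ∈ C, x ∈ boxes k q :=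
  mem_biUnion

lemma mem_Vn_iff_box {δ : ℝ} (hδ : 0 < δ) {o : ℂ} (hg : Gen δ o) {C : Finset Cell} {k : ℕ}
    (h : ∀ q ∈ C, q.1 ≤ k) {v : ℤ × ℤ} : v ∈ Vn δ o C ↔ box δ o k v ∈ Bxs k C := by
  rw [mem_Vn, mem_Bxs]
  exact exists_congr fun q => and_congr_right fun hq => mem_verts_iff_box hδ hg (h q hq)

lemma Vn_union {δ : ℝ} {o : ℂ} (C C' : Finset Cell) : Vn δ o (C ∪ C') = Vn δ o C ∪ Vn δ o C' := by
  unfold Vn; exact union_biUnion

lemma Bxs_union {k : ℕ} (C C' : Finset Cell) : Bxs k (C ∪ C') = Bxs k C ∪ Bxs k C' := by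
  unfold Bxs; exact union_biUnion

lemma Vn_mono {δ : ℝ} {o : ℂ} {C C' : Finset Cell} (h : C ⊆ C') : Vn δ o C ⊆ Vn δ o C' :=
  biUnion_subset_biUnion_of_subset_left _ h

/-! ### The cells in `D` -/

lemma center_mem (o : ℂ) (q : Cell) :
    (⟨o.re + (q.2.1 + 1 / 2) * mesh q.1, o.im + (q.2.2 + 1 / 2) * mesh q.1⟩ : ℂ) ∈ cfat o q := by
  have hm := mesh_pos q.1
  refine ⟨?_, ?_, ?_, ?_⟩ <;> simp only <;> nlinarith

lemma cells_finite {D : Set ℂ} (hD : Bornology.IsBounded D) (o : ℂ) (k : ℕ) :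
    {q : Cell | q.1 = k ∧ cfat o q ⊆ D}.Finite := by
  obtain ⟨R, hR⟩ := hD.subset_closedBall 0
  have hm := mesh_pos k
  have key : ∀ (x0 : ℝ) (i : ℤ), |x0 + (i + 1 / 2) * mesh k| ≤ R →
      i ∈ Finset.Icc (⌊(-R - |x0|) / mesh k⌋ - 1) (⌈(R + |x0|) / mesh k⌉) := by
    intro x0 i hi
    rw [abs_le] at hi
    have h1 := neg_abs_le x0
    have h2 := le_abs_self x0
    rw [Finset.mem_Icc]
    constructor
    · have h3 : ((⌊(-R - |x0|) / mesh k⌋ - 1 : ℤ) : ℝ) ≤ i := by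
        push_cast
        have h4 : ((⌊(-R - |x0|) / mesh k⌋ : ℤ) : ℝ) ≤ (-R - |x0|) / mesh k := Int.floor_le _
        have h5 : (-R - |x0|) / mesh k ≤ i + 1 / 2 := by
          rw [div_le_iff₀ hm]; linarith [hi.1]
        linarith
      exact_mod_cast h3
    · have h3 : (i : ℝ) ≤ ((⌈(R + |x0|) / mesh k⌉ : ℤ) : ℝ) := by
        have h4 : (R + |x0|) / mesh k ≤ ((⌈(R + |x0|) / mesh k⌉ : ℤ) : ℝ) := Int.le_ceil _
        have h5 : (i : ℝ) + 1 / 2 ≤ (R + |x0|) / mesh k := by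
          rw [le_div_iff₀ hm]; linarith [hi.2]
        linarith
      exact_mod_cast h3
  refine ((({k} : Finset ℕ) ×ˢ
    ((Finset.Icc (⌊(-R - |o.re|) / mesh k⌋ - 1) (⌈(R + |o.re|) / mesh k⌉)) ×ˢ
      (Finset.Icc (⌊(-R - |o.im|) / mesh k⌋ - 1) (⌈(R + |o.im|) / mesh k⌉)))).finite_toSet).subset ?_
  rintro q ⟨hq, hqD⟩
  have h1 := hR (hqD (center_mem o q))
  rw [Metric.mem_closedBall, dist_zero_right] at h1
  rw [Finset.mem_coe, mem_product, mem_product, mem_singleton]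
  subst hq
  exact ⟨rfl, key o.re q.2.1 ((Complex.abs_re_le_norm _).trans h1),
    key o.im q.2.2 ((Complex.abs_im_le_norm _).trans h1)⟩

lemma mem_cells {D : Set ℂ} (hD : Bornology.IsBounded D) {o : ℂ} {k : ℕ} {q : Cell} :
    q ∈ cells D o k ↔ q.1 = k ∧ cfat o q ⊆ D := by
  unfold cells
  rw [dif_pos (cells_finite hD o k), Set.Finite.mem_toFinset]
  rfl

/-! ### Chains of cells -/

lemma ConnC.mono {o : ℂ} {S S' : Cell → Prop} {b : Cell} {k : ℕ} {q : Cell}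
    (h : ∀ x, S x → S' x) (hc : ConnC o S b k q) : ConnC o S' b k q := by
  obtain ⟨q', h1, h2, h3, h4⟩ := hc
  exact ⟨q', Relation.ReflTransGen.mono (fun x y hxy => ⟨hxy.1, hxy.2.1, h x hxy.2.2⟩) _ _ h1, h2, h q' h3, h4⟩

lemma ConnC.head {o : ℂ} {S : Cell → Prop} {b : Cell} {k : ℕ} {q : Cell}
    (hc : ConnC o S b k q) : q.1 = k ∧ S q := by
  obtain ⟨q', h1, h2, h3, h4⟩ := hc
  rcases h1.cases_head with h5 | ⟨c, h5, -⟩
  · rw [h5]; exact ⟨h2, h3⟩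
  · exact h5.2

lemma ConnC.cons {o : ℂ} {S : Cell → Prop} {b : Cell} {k : ℕ} {q q' : Cell}
    (hq : q.1 = k) (hS : S q) (ha : AdjC o q q') (hc : ConnC o S b k q') : ConnC o S b k q := by
  obtain ⟨q'', h1, h2, h3, h4⟩ := hc
  exact ⟨q'', Relation.ReflTransGen.head ⟨ha, hq, hS⟩ h1, h2, h3, h4⟩

lemma ConnC.single {o : ℂ} {S : Cell → Prop} {b : Cell} {k : ℕ} {q : Cell}
    (hq : q.1 = k) (hS : S q) (ha : AdjC o q b) : ConnC o S b k q :=
  ⟨q, Relation.ReflTransGen.refl, hq, hS, ha⟩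

/-- Induction along the chain from `b`. -/
lemma ConnC.induct {o : ℂ} {S : Cell → Prop} {b : Cell} {k : ℕ} {P : Cell → Prop}
    (h1 : ∀ q, q.1 = k → S q → AdjC o q b → P q)
    (h2 : ∀ q q', q.1 = k → S q → AdjC o q q' → ConnC o S b k q' → P q' → P q)
    {q : Cell} (hc : ConnC o S b k q) : P q := by
  obtain ⟨q', h3, h4, h5, h6⟩ := hc
  have key : ConnC o S b k q ∧ P q := by
    induction h3 using Relation.ReflTransGen.head_induction_on with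
    | refl => exact ⟨ConnC.single h4 h5 h6, h1 _ h4 h5 h6⟩
    | head hxy _ ih =>
      exact ⟨ConnC.cons hxy.2.1 hxy.2.2 hxy.1 ih.1, h2 _ _ hxy.2.1 hxy.2.2 hxy.1 ih.1 ih.2⟩
  exact key.2

/-! ### Visible families -/

section

variable {D : Set ℂ} {δ : ℝ} {o : ℂ} {b : Cell} {k0 k : ℕ} {E E' : Finset (ℤ × ℤ)}

lemma mem_Uk (hD : Bornology.IsBounded D) {q : Cell} :
    q ∈ Uk D δ o b k E ↔ ConnC o (Free D δ o E) b k q := by
  classical
  unfold Uk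
  rw [mem_filter, mem_cells hD, vis_iff]
  exact ⟨fun h => h.2, fun h => ⟨⟨h.head.1, h.head.2.1⟩, h⟩⟩

lemma mem_Ule (hD : Bornology.IsBounded D) {q : Cell} :
    q ∈ Ule D δ o b k0 k E ↔ k0 ≤ q.1 ∧ q.1 ≤ k ∧ ConnC o (Free D δ o E) b q.1 q := by
  unfold Ule
  rw [mem_biUnion]
  constructor
  · rintro ⟨l, hl, h⟩
    rw [mem_Uk hD] at h
    have h1 := h.head.1
    rw [mem_Icc] at hl
    subst h1
    exact ⟨hl.1, hl.2, h⟩
  · rintro ⟨h1, h2, h3⟩
    exact ⟨q.1, mem_Icc.2 ⟨h1, h2⟩, (mem_Uk hD).2 h3⟩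

lemma Free.mono {q : Cell} (h : E' ⊆ E) (hF : Free D δ o E' q) : Free D δ o E q :=
  ⟨hF.1, hF.2.trans h⟩

lemma Ule_mono (hD : Bornology.IsBounded D) (h : E' ⊆ E) :
    Ule D δ o b k0 k E' ⊆ Ule D δ o b k0 k E := by
  intro q hq
  rw [mem_Ule hD] at hq ⊢
  exact ⟨hq.1, hq.2.1, hq.2.2.mono fun x => Free.mono h⟩

lemma Ule_free (hD : Bornology.IsBounded D) {q : Cell} (hq : q ∈ Ule D δ o b k0 k E) :
    Free D δ o E q := ((mem_Ule hD).1 hq).2.2.head.2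

lemma Uk_eq_filter (hD : Bornology.IsBounded D) (hk : k0 ≤ k) :
    Uk D δ o b k0 E = (Ule D δ o b k0 k E).filter (fun q => q.1 = k0) := by
  ext q
  rw [mem_filter, mem_Uk hD, mem_Ule hD]
  constructor
  · intro h
    have h1 := h.head.1
    subst h1
    exact ⟨⟨le_rfl, hk, h⟩, rfl⟩
  · rintro ⟨⟨-, -, h⟩, h1⟩
    subst h1
    exact h

lemma Ule_filter (hD : Bornology.IsBounded D) {k' : ℕ} (hk : k ≤ k') :
    (Ule D δ o b k0 k' E).filter (fun q => q.1 ≤ k) = Ule D δ o b k0 k E := by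
  ext q
  rw [mem_filter, mem_Ule hD, mem_Ule hD]
  constructor
  · rintro ⟨⟨h1, -, h3⟩, h4⟩; exact ⟨h1, h4, h3⟩
  · rintro ⟨h1, h2, h3⟩; exact ⟨⟨h1, h2.trans hk, h3⟩, h2⟩

/-- The cells of `U` outside `C` which are adjacent to `C` (in their level) or to `b`. -/
noncomputable def bd (o : ℂ) (b : Cell) (U C : Finset Cell) : Finset Cell :=
  open Classical in
  (U \ C).filter (fun q => AdjC o q b ∨ ∃ q' ∈ C, q'.1 = q.1 ∧ AdjC o q q')

/-- **The visible family of a smaller set of free labels.** -/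
theorem Ule_eq_iff (hD : Bornology.IsBounded D) (h : E' ⊆ E) {C : Finset Cell} :
    Ule D δ o b k0 k E' = C ↔
      C ⊆ Ule D δ o b k0 k E ∧ Lev o b C ∧ (∀ q ∈ C, Free D δ o E' q) ∧
        ∀ q ∈ bd o b (Ule D δ o b k0 k E) C, ¬ Free D δ o E' q := by
  classical
  constructor
  · rintro rfl
    refine ⟨Ule_mono hD h, ?_, fun q hq => Ule_free hD hq, ?_⟩
    · intro q hq
      rw [mem_Ule hD] at hq
      refine ConnC.induct (P := fun x => ConnC o (fun y => y ∈ Ule D δ o b k0 k E') b q.1 x)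
        ?_ ?_ hq.2.2
      · intro x hx hS ha
        refine ConnC.single hx ?_ ha
        rw [mem_Ule hD, hx]
        exact ⟨hq.1, hq.2.1, ConnC.single hx hS ha⟩
      · intro x y hx hS ha hc ih
        refine ConnC.cons hx ?_ ha ih
        rw [mem_Ule hD, hx]
        exact ⟨hq.1, hq.2.1, ConnC.cons hx hS ha hc⟩
    · intro q hq hF
      unfold bd at hq
      rw [mem_filter, Finset.mem_sdiff] at hq
      obtain ⟨⟨h1, h2⟩, h3⟩ := hq
      rw [mem_Ule hD] at h1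
      apply h2
      rw [mem_Ule hD]
      refine ⟨h1.1, h1.2.1, ?_⟩
      rcases h3 with h3 | ⟨q', h3, h4, h5⟩
      · exact ConnC.single rfl hF h3
      · rw [mem_Ule hD, h4] at h3
        exact ConnC.cons rfl hF h5 h3.2.2
  · rintro ⟨h1, h2, h3, h4⟩
    apply Subset.antisymm
    · intro q hq
      rw [mem_Ule hD] at hq
      obtain ⟨h5, h6, h7⟩ := hq
      refine ConnC.induct (P := fun x => x ∈ C) ?_ ?_ h7
      · intro x hx hS ha
        by_contra hxC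
        refine h4 x ?_ hS
        unfold bd
        rw [mem_filter, Finset.mem_sdiff, mem_Ule hD, hx]
        exact ⟨⟨⟨h5, h6, ConnC.single hx (hS.mono h) ha⟩, hxC⟩, Or.inl ha⟩
      · intro x y hx hS ha hc hy
        by_contra hxC
        refine h4 x ?_ hS
        unfold bd
        rw [mem_filter, Finset.mem_sdiff, mem_Ule hD, hx]
        exact ⟨⟨⟨h5, h6, ConnC.cons hx (hS.mono h) ha (hc.mono fun z => Free.mono h)⟩, hxC⟩,
          Or.inr ⟨y, hy, hc.head.1, ha⟩⟩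
    · intro q hq
      have h5 := (mem_Ule hD).1 (h1 hq)
      rw [mem_Ule hD]
      exact ⟨h5.1, h5.2.1, (h2 q hq).mono h3⟩

end

end Pool.Agent.Q1.M3
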