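import Mathlib
import Pool.Agent.Q1.M3.Geo

set_option autoImplicit false
open Finset

/-! # M3: one step of the chain -/

namespace Pool.Agent.Q1.M3

open Pool.Agent.H75.Perc Pool.Agent.H75.TwoArm Pool.Agent.H75.Four Pool.Agent.H69.Q1
open Pool.Agent.H75.TwoArm.StrandAux
open Pool.Agent.H81.Q1 (pt DDomain Approx IsJordanDomain IsArcs)

/-! ### Labels at a vertex -/

lemma lab_star1 (c : ℤ × ℤ) : lab c ∈ star1 (vx c) := by
  obtain ⟨a, b⟩ := c
  unfold star1 vx lab
  simp only [mem_insert, mem_singleton]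
  rcases (by omega : a % 2 = 0 ∨ a % 2 = 1) with h1 | h1 <;>
    rcases (by omega : b % 2 = 0 ∨ b % 2 = 1) with h2 | h2 <;>
    simp [h1, h2, Prod.ext_iff] <;> omega

lemma plab_star1 (c : ℤ × ℤ) : plab c ∈ star1 (vx c) := by
  obtain ⟨a, b⟩ := c
  unfold star1 vx plab
  simp only [mem_insert, mem_singleton]
  rcases (by omega : a % 2 = 0 ∨ a % 2 = 1) with h1 | h1 <;>
    rcases (by omega : b % 2 = 0 ∨ b % 2 = 1) with h2 | h2 <;>
    simp [h1, h2, Prod.ext_iff] <;> omega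

lemma plab_star1_pv (L : Finset (ℤ × ℤ)) (c : ℤ × ℤ) : plab c ∈ star1 (vx (pv L c)) := by
  rw [← lab_pv L c]; exact lab_star1 _

lemma star1_sub_star {K : Finset (ℤ × ℤ)} {v e : ℤ × ℤ} (hv : v ∈ K) (he : e ∈ star1 v) :
    e ∈ star K := mem_star.2 ⟨v, hv, he⟩

/-- The ends of an edge. -/
lemma star1_pair {e v w : ℤ × ℤ} (hv : e ∈ star1 v) (hw : e ∈ star1 w) (hne : v ≠ w) :
    e = v + w ∧ w - v ∈ dirs ∧ ((eu e = v ∧ ev e = w) ∨ (eu e = w ∧ ev e = v)) := by
  have ho := odd_star1 hv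
  rw [mem_star1_iff ho] at hv hw
  have h1 : (eu e = v ∧ ev e = w) ∨ (eu e = w ∧ ev e = v) := by
    rcases hv with h | h <;> rcases hw with h' | h'
    · exact absurd (h.trans h'.symm) hne
    · exact Or.inl ⟨h.symm, h'.symm⟩
    · exact Or.inr ⟨h'.symm, h.symm⟩
    · exact absurd (h.trans h'.symm) hne
  have h2 : e = eu e + ev e := by
    obtain ⟨a, b⟩ := e
    simp only [eu, ev, Prod.mk_add_mk, Prod.mk.injEq] at ho ⊢
    omega
  have h3 : ev e - eu e ∈ dirs ∧ eu e - ev e ∈ dirs := by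
    obtain ⟨a, b⟩ := e
    simp only [dirs, mem_insert, mem_singleton, eu, ev, Prod.mk_sub_mk, Prod.mk.injEq] at ho ⊢
    omega
  refine ⟨?_, ?_, h1⟩
  · rcases h1 with ⟨h, h'⟩ | ⟨h, h'⟩
    · rw [← h, ← h']; exact h2
    · rw [← h, ← h', add_comm]; exact h2
  · rcases h1 with ⟨h, h'⟩ | ⟨h, h'⟩
    · rw [← h, ← h']; exact h3.1
    · rw [← h, ← h']; exact h3.2

lemma add_dir_star1 {v d : ℤ × ℤ} (hd : d ∈ dirs) :
    v + (v + d) ∈ star1 v ∧ v + (v + d) ∈ star1 (v + d) := by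
  obtain ⟨x, y⟩ := v
  unfold dirs at hd
  simp only [mem_insert, mem_singleton] at hd
  unfold star1
  simp only [mem_insert, mem_singleton]
  rcases hd with rfl | rfl | rfl | rfl <;>
    simp only [Prod.mk_add_mk, Prod.mk.injEq] <;> constructor <;> omega

/-! ### The walk before the first label of `star K` -/

section

variable {X : DEnv} {ω K : Finset (ℤ × ℤ)}

lemma vx_notMem (hα : vx X.α ∉ K) {m : ℕ} (h : ∀ j < m, plab (X.cor ω j) ∉ star K) :
    ∀ i ≤ m, vx (X.cor ω i) ∉ K := by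
  intro i
  induction i with
  | zero => intro _; exact hα
  | succ i _ =>
    intro hi hK
    rw [X.cor_succ] at hK
    exact h i (by omega) (star1_sub_star hK (plab_star1_pv _ _))

lemma exists_first (hω : ω ⊆ X.E) (hne : X.α ≠ X.β) (hβ : vx X.β ∈ K) :
    ∃ m < X.len ω, plab (X.cor ω m) ∈ star K ∧ ∀ j < m, plab (X.cor ω j) ∉ star K := by
  classical
  have h0 : 0 < X.len ω := by
    rcases Nat.eq_zero_or_pos (X.len ω) with h | h
    · have h1 := X.cor_len hω
      rw [h, X.cor_zero] at h1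
      exact absurd h1 hne
    · exact h
  have hex : ∃ m, plab (X.cor ω m) ∈ star K := by
    refine ⟨X.len ω - 1, ?_⟩
    have h1 := X.cor_len hω
    rw [show X.len ω = (X.len ω - 1) + 1 by omega, X.cor_succ] at h1
    refine star1_sub_star hβ ?_
    rw [← h1]
    exact plab_star1_pv _ _
  refine ⟨Nat.find hex, ?_, Nat.find_spec hex, fun j hj => Nat.find_min hex hj⟩
  by_contra hcon
  push Not at hcon
  have h2 : X.len ω - 1 < Nat.find hex := by omega
  refine Nat.find_min hex h2 ?_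
  have h1 := X.cor_len hω
  rw [show X.len ω = (X.len ω - 1) + 1 by omega, X.cor_succ] at h1
  refine star1_sub_star hβ ?_
  rw [← h1]
  exact plab_star1_pv _ _

/-- The edge at which `K` is met. -/
lemma exit_edge (hα : vx X.α ∉ K) {m : ℕ} (hm : plab (X.cor ω m) ∈ star K)
    (h : ∀ j < m, plab (X.cor ω j) ∉ star K) :
    ∃ v ∈ K, vx (X.cor ω m) ∉ K ∧ plab (X.cor ω m) ∈ star1 v ∧
      plab (X.cor ω m) = v + vx (X.cor ω m) ∧ vx (X.cor ω m) - v ∈ dirs ∧
      ((eu (plab (X.cor ω m)) = v ∧ ev (plab (X.cor ω m)) = vx (X.cor ω m)) ∨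
        (eu (plab (X.cor ω m)) = vx (X.cor ω m) ∧ ev (plab (X.cor ω m)) = v)) := by
  have hw := vx_notMem hα h m le_rfl
  obtain ⟨v, hv, h1⟩ := mem_star.1 hm
  have hne : v ≠ vx (X.cor ω m) := fun h2 => hw (h2 ▸ hv)
  obtain ⟨h2, h3, h4⟩ := star1_pair h1 (plab_star1 _) hne
  exact ⟨v, hv, hw, h1, h2, h3, h4⟩

end

/-! ### The rules of a base -/

section

variable {D : Set ℂ} {a b : ℂ} {A₁ A₂ : Set ℂ} {A : Approx D a b A₁ A₂} {r0 : ℝ} (B : Base A r0)
  {k0 n : ℕ} {X : DEnv} {ω : Finset (ℤ × ℤ)}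

lemma Base.gen' (n : ℕ) : Gen (A.δ n) B.o := fun k m j => B.gen n k m j

/-- Finished environments do not move. -/
lemma Base.nenv_fin (h : B.Fin n X) : (B.rules k0 n).nenv X ω = X := by
  have ht : ∀ ζ, X.tau ((B.rules k0 n).Q X) ζ = 0 := by
    intro ζ
    unfold DEnv.tau
    exact Nat.sInf_eq_zero.2 (Or.inl (Or.inl (Or.inl h)))
  have he : ∀ ζ, X.exset ((B.rules k0 n).Q X) ζ = ∅ := by
    intro ζ
    ext e
    rw [DEnv.mem_exset, ht]
    simp
  refine denv_ext ?_ ?_ ?_ rfl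
  · rw [Rules.nenv_E, he, sdiff_empty]
  · rw [Rules.nenv_W, he, inter_empty, union_empty]
  · rw [Rules.nenv_α, ht]; rfl

/-- The stopping time of a step. -/
lemma Base.tau_step (h : ¬ B.Fin n X) {m : ℕ} (hm : m < X.len ω)
    (h1 : plab (X.cor ω m) ∈ star (B.F k0 n X.E))
    (h2 : ∀ j < m, plab (X.cor ω j) ∉ star (B.F k0 n X.E)) :
    X.tau ((B.rules k0 n).Q X) ω = m + 1 := by
  unfold DEnv.tau
  apply le_antisymm
  · exact Nat.sInf_le (Or.inl (Or.inr ⟨m, by omega, h1⟩))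
  · refine le_csInf ⟨m + 1, Or.inl (Or.inr ⟨m, by omega, h1⟩)⟩ ?_
    rintro i (h3 | h3)
    · rcases h3 with h3 | ⟨j, hj, h4⟩
      · exact absurd h3 h
      · by_contra hcon
        exact h2 j (by omega) h4
    · have := X.len_le h3
      omega

/-- Description of a step. -/
theorem Base.step_spec (h : ¬ B.Fin n X) (hω : ω ⊆ X.E) (hne : X.α ≠ X.β)
    (hβ : vx X.β ∈ B.N n) (hα : vx X.α ∉ B.F k0 n X.E) :
    ∃ m < X.len ω, ∃ v ∈ B.F k0 n X.E,
      plab (X.cor ω m) ∈ star (B.F k0 n X.E) ∧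
      (∀ j < m, plab (X.cor ω j) ∉ star (B.F k0 n X.E)) ∧
      vx (X.cor ω m) ∉ B.F k0 n X.E ∧ plab (X.cor ω m) ∈ star1 v ∧
      plab (X.cor ω m) = v + vx (X.cor ω m) ∧
      tipv (B.F k0 n X.E) (plab (X.cor ω m)) = v ∧
      tipd (B.F k0 n X.E) (plab (X.cor ω m)) = vx (X.cor ω m) - v ∧
      tipd (B.F k0 n X.E) (plab (X.cor ω m)) ∈ dirs ∧
      X.tau ((B.rules k0 n).Q X) ω = m + 1 ∧
      lab ((B.rules k0 n).nenv X ω).α = plab (X.cor ω m) ∧
      (∀ e, e ∈ ((B.rules k0 n).nenv X ω).E ↔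
        e ∈ X.E ∧ ∀ j ≤ m, plab (X.cor ω j) ≠ e) := by
  have hβ' : vx X.β ∈ B.F k0 n X.E := mem_union_right _ hβ
  obtain ⟨m, hm, h1, h2⟩ := exists_first (K := B.F k0 n X.E) hω hne hβ'
  obtain ⟨v, hv, hw, h3, h4, h5, h6⟩ := exit_edge hα h1 h2
  have ht := B.tau_step h hm h1 h2
  have hωE : ω ∩ X.E = ω := inter_eq_left.2 hω
  have hv' : tipv (B.F k0 n X.E) (plab (X.cor ω m)) = v ∧
      tipd (B.F k0 n X.E) (plab (X.cor ω m)) = vx (X.cor ω m) - v := by
    unfold tipv tipd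
    rcases h6 with ⟨h7, h8⟩ | ⟨h7, h8⟩
    · rw [h7, h8, if_pos hv, if_pos hv]; exact ⟨rfl, rfl⟩
    · rw [h7, h8, if_neg hw, if_neg hw]; exact ⟨rfl, rfl⟩
  refine ⟨m, hm, v, hv, h1, h2, hw, h3, h4, hv'.1, hv'.2, by rw [hv'.2]; exact h5, ht, ?_, ?_⟩
  · rw [Rules.nenv_α, hωE, ht, X.cor_succ, lab_pv]
  · intro e
    rw [Rules.nenv_E, hωE, Finset.mem_sdiff, DEnv.mem_exset, ht]
    constructor
    · rintro ⟨h7, h8⟩
      exact ⟨h7, fun j hj h9 => h8 ⟨h7, j, by omega, h9⟩⟩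
    · rintro ⟨h7, h8⟩
      exact ⟨h7, fun ⟨_, j, hj, h9⟩ => h8 j (by omega) h9⟩

/-- **The event of a step in terms of an exit event.** -/
theorem Base.step_iff (hδ : 0 < A.δ n) {k : ℕ} (h : ¬ B.Fin n X) (hω : ω ⊆ X.E)
    (hne : X.α ≠ X.β) (hβ : vx X.β ∈ B.N n) {C : Finset Cell}
    (hC : ∀ q ∈ C, q.1 ≤ k ∧ Free D (A.δ n) B.o X.E q)
    (hα : vx X.α ∉ Vn (A.δ n) B.o C ∪ B.F k0 n X.E) {x d : ℤ × ℤ} (hd : d ∈ dirs)
    (hN : ∀ v ∈ B.N n, box (A.δ n) B.o k v ≠ x) :
    (¬ B.Fin n ((B.rules k0 n).nenv X ω) ∧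
      (∀ q ∈ C, Free D (A.δ n) B.o ((B.rules k0 n).nenv X ω).E q) ∧
      box (A.δ n) B.o k (tipv (B.F k0 n X.E) (lab ((B.rules k0 n).nenv X ω).α)) = x ∧
      tipd (B.F k0 n X.E) (lab ((B.rules k0 n).nenv X ω).α) = d) ↔
    (x ∉ Bxs k C ∧ ExB (A.δ n) B.o k X (Vn (A.δ n) B.o C ∪ B.F k0 n X.E) x d ω) := by
  have hα' : vx X.α ∉ B.F k0 n X.E := fun h1 => hα (mem_union_right _ h1)
  obtain ⟨m, hm, v, hv, h1, h2, hw, h3, h4, h5, h6, h7, -, h8, h9⟩ :=
    B.step_spec (k0 := k0) h hω hne hβ hα'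
  have hbox : ∀ u, u ∈ Vn (A.δ n) B.o C ↔ box (A.δ n) B.o k u ∈ Bxs k C := fun u =>
    mem_Vn_iff_box hδ (B.gen' n) (fun q hq => (hC q hq).1)
  constructor
  · rintro ⟨g1, g2, g3, g4⟩
    unfold Base.Fin at g1
    rw [h8] at g1 g3 g4
    rw [h5] at g3
    rw [h6] at g4
    -- no label of `star (Vn C)` is met up to `m`
    have g5 : ∀ j ≤ m, plab (X.cor ω j) ∉ star (Vn (A.δ n) B.o C) := by
      intro j hj g6
      obtain ⟨u, hu, g7⟩ := mem_star.1 g6
      obtain ⟨q, hq, g8⟩ := mem_Vn.1 hu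
      have g9 := (g2 q hq).2 (star1_sub_star g8 g7)
      exact ((h9 _).1 g9).2 j hj rfl
    have g6 : vx (X.cor ω m) ∉ Vn (A.δ n) B.o C := fun g7 =>
      g5 m le_rfl (star1_sub_star g7 (plab_star1 _))
    have g7 : v ∉ Vn (A.δ n) B.o C := fun g8 => g5 m le_rfl (star1_sub_star g8 h3)
    refine ⟨fun g8 => g7 ((hbox v).2 (by rw [g3]; exact g8)), m, hm, ?_, v,
      mem_union_right _ hv, ?_, ?_, g3⟩
    · intro j hj g8
      rw [star_union, mem_union] at g8
      rcases g8 with g8 | g8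
      · exact g5 j hj.le g8
      · exact h2 j hj g8
    · rw [← g4, add_sub_cancel, mem_union, not_or]
      exact ⟨g6, hw⟩
    · rw [← g4, add_sub_cancel]
      exact h4
  · rintro ⟨g0, i, hi, g1, v', g2, g3, g4, g5⟩
    have g6 : v' ∉ Vn (A.δ n) B.o C := fun g7 => g0 (by rw [← g5]; exact (hbox v').1 g7)
    have g7 : v' ∈ B.F k0 n X.E := (mem_union.1 g2).resolve_left g6
    obtain ⟨g8, g9⟩ := add_dir_star1 (v := v') hd
    have g10 : plab (X.cor ω i) ∈ star (B.F k0 n X.E) := by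
      rw [g4]; exact star1_sub_star g7 g8
    have him : i = m := by
      rcases lt_trichotomy i m with h10 | h10 | h10
      · exact absurd g10 (h2 i h10)
      · exact h10
      · refine absurd h1 fun h11 => g1 m h10 ?_
        rw [star_union, mem_union]
        exact Or.inr h11
    subst him
    have g11 : vx (X.cor ω i) ∉ Vn (A.δ n) B.o C ∪ B.F k0 n X.E := vx_notMem hα g1 i le_rfl
    -- the two ends
    have ho : ((plab (X.cor ω i)).1 + (plab (X.cor ω i)).2) % 2 = 1 := odd_star1 h3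
    have g12 : vx (X.cor ω i) = v' + d := by
      have e1 := (mem_star1_iff ho).1 (plab_star1 (X.cor ω i))
      have e2 := (mem_star1_iff ho).1 (by rw [g4]; exact g8 : plab (X.cor ω i) ∈ star1 v')
      have e3 := (mem_star1_iff ho).1 (by rw [g4]; exact g9 : plab (X.cor ω i) ∈ star1 (v' + d))
      have e4 : v' ≠ v' + d := fun e5 => g3 (e5 ▸ g2)
      have e6 : vx (X.cor ω i) ≠ v' := fun e7 => g11 (e7 ▸ g2)
      rcases e1 with e1 | e1 <;> rcases e2 with e2 | e2 <;> rcases e3 with e3 | e3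
      · exact absurd (e2.trans e3.symm) e4
      · exact absurd (e1.trans e2.symm) e6
      · exact e1.trans e3.symm
      · exact absurd (e2.trans e3.symm) e4
      · exact absurd (e2.trans e3.symm) e4
      · exact e1.trans e3.symm
      · exact absurd (e1.trans e2.symm) e6
      · exact absurd (e2.trans e3.symm) e4
    have g13 : v = v' := by
      have e1 : v + vx (X.cor ω i) = v' + (v' + d) := h4.symm.trans g4
      rw [g12] at e1
      exact add_right_cancel e1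
    subst g13
    unfold Base.Fin
    rw [h8, h5, h6]
    refine ⟨?_, ?_, g5, by rw [g12]; abel⟩
    · intro e1
      obtain ⟨u, hu, e2⟩ := mem_star.1 e1
      have e3 := (mem_star1_iff ho).1 e2
      have e4 := (mem_star1_iff ho).1 h3
      have e5 := (mem_star1_iff ho).1 (plab_star1 (X.cor ω i))
      have e6 : v ≠ vx (X.cor ω i) := fun e7 => hw (e7 ▸ hv)
      have e8 : u = v ∨ u = vx (X.cor ω i) := by
        rcases e3 with e3 | e3 <;> rcases e4 with e4 | e4 <;> rcases e5 with e5 | e5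
        · exact Or.inl (e3.trans e4.symm)
        · exact Or.inl (e3.trans e4.symm)
        · exact Or.inr (e3.trans e5.symm)
        · exact absurd (e4.trans e5.symm) e6
        · exact absurd (e4.trans e5.symm) e6
        · exact Or.inr (e3.trans e5.symm)
        · exact Or.inl (e3.trans e4.symm)
        · exact Or.inl (e3.trans e4.symm)
      rcases e8 with e8 | e8
      · exact hN u hu (by rw [e8]; exact g5)
      · exact hw (mem_union_right _ (e8 ▸ hu))
    · intro q hq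
      refine ⟨(hC q hq).2.1, fun l hl => ?_⟩
      rw [h9]
      refine ⟨(hC q hq).2.2 hl, fun j hj e1 => ?_⟩
      have hlC : l ∈ star (Vn (A.δ n) B.o C) := by
        obtain ⟨u, hu, e2⟩ := mem_star.1 hl
        exact star1_sub_star (mem_Vn.2 ⟨q, hq, hu⟩) e2
      rcases hj.lt_or_eq with hj | hj
      · refine g1 j hj ?_
        rw [star_union, mem_union, e1]
        exact Or.inl hlC
      · subst hj
        rw [← e1] at hlC
        obtain ⟨u, hu, e2⟩ := mem_star.1 hlC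
        have e3 := (mem_star1_iff ho).1 e2
        have e4 := (mem_star1_iff ho).1 h3
        have e5 := (mem_star1_iff ho).1 (plab_star1 (X.cor ω j))
        have e6 : v ≠ vx (X.cor ω j) := fun e7 => hw (e7 ▸ hv)
        have e8 : u = v ∨ u = vx (X.cor ω j) := by
          rcases e3 with e3 | e3 <;> rcases e4 with e4 | e4 <;> rcases e5 with e5 | e5
          · exact Or.inl (e3.trans e4.symm)
          · exact Or.inl (e3.trans e4.symm)
          · exact Or.inr (e3.trans e5.symm)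
          · exact absurd (e4.trans e5.symm) e6
          · exact absurd (e4.trans e5.symm) e6
          · exact Or.inr (e3.trans e5.symm)
          · exact Or.inl (e3.trans e4.symm)
          · exact Or.inl (e3.trans e4.symm)
        rcases e8 with e8 | e8
        · exact g6 (e8 ▸ hu)
        · exact g11 (mem_union_left _ (e8 ▸ hu))

end

end Pool.Agent.Q1.M3
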