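import Mathlib
import Pool.Agent.Q1.M3.Step

set_option autoImplicit false
open Finset

/-! # M3: the law of one step by inclusion and exclusion -/

namespace Pool.Agent.Q1.M3

open Pool.Agent.H75.Perc Pool.Agent.H75.TwoArm Pool.Agent.H75.Four Pool.Agent.H69.Q1
open Pool.Agent.H99.NC
open Pool.Agent.H81.Q1 (pt DDomain Approx IsJordanDomain IsArcs)

/-- Inclusion and exclusion for indicators. -/
lemma ind_incl_excl {ι : Type} [DecidableEq ι] (s : Finset ι) (P : Prop) (f : ι → Prop) :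
    ind (P ∧ ∀ i ∈ s, ¬ f i) = ∑ t ∈ s.powerset, (-1) ^ t.card * ind (P ∧ ∀ i ∈ t, f i) := by
  have h1 : ∀ t : Finset ι, ind (∀ i ∈ t, f i) = ∏ i ∈ t, ind (f i) := by
    intro t
    induction t using Finset.induction_on with
    | empty => rw [prod_empty]; exact ind_true (by simp)
    | insert a t ha ih =>
      rw [prod_insert ha, ← ih, ← ind_and]
      exact ind_congr (by simp)
  have h2 : ind (∀ i ∈ s, ¬ f i) = ∏ i ∈ s, (-ind (f i) + 1) := by
    induction s using Finset.induction_on with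
    | empty => rw [prod_empty]; exact ind_true (by simp)
    | insert a t ha ih =>
      rw [prod_insert ha, ← ih]
      have h3 : -ind (f a) + 1 = ind (¬ f a) := by rw [ind_not]; ring
      rw [h3, ← ind_and]
      exact ind_congr (by simp)
  rw [ind_and, h2, Finset.prod_add, Finset.mul_sum]
  refine sum_congr rfl fun t _ => ?_
  rw [ind_and, h1, prod_const_one, mul_one]
  have h4 : ∏ i ∈ t, -ind (f i) = (-1) ^ t.card * ∏ i ∈ t, ind (f i) := by
    rw [← prod_const, ← prod_mul_distrib]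
    exact prod_congr rfl fun _ _ => by ring
  rw [h4]; ring

/-- The law of one step as a function of the exit probabilities `g`. -/
noncomputable def lawF (o : ℂ) (qb : Cell) (k0 k : ℕ) (fam : Finset Cell) (NB : Finset (ℤ × ℤ))
    (g : Finset Cell → ℤ × ℤ → ℤ × ℤ → ℝ) (v : Finset Cell × (ℤ × ℤ) × (ℤ × ℤ)) : ℝ :=
  open Classical in
  if v.1 ⊆ fam ∧ Lev o qb v.1 ∧ v.2.1 ∈ Bxs k (fam.filter (fun q => q.1 = k0)) ∧ v.2.1 ∉ NB ∧
      v.2.2 ∈ dirs then
    ∑ T ∈ (bd o qb fam v.1).powerset, (-1) ^ T.card *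
      (if v.2.1 ∈ Bxs k (v.1 ∪ T) then 0
       else g (v.1 ∪ T ∪ fam.filter (fun q => q.1 = k0)) v.2.1 v.2.2)
  else 0

lemma Lev.union {o : ℂ} {b : Cell} {C C' : Finset Cell} (h : Lev o b C) (h' : Lev o b C') :
    Lev o b (C ∪ C') := by
  intro q hq
  rcases mem_union.1 hq with h1 | h1
  · exact (h q h1).mono fun x hx => mem_union_left _ hx
  · exact (h' q h1).mono fun x hx => mem_union_right _ hx

lemma Lev.bd {o : ℂ} {b : Cell} {U C T : Finset Cell} (h : Lev o b C) (hT : T ⊆ bd o b U C) :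
    Lev o b (C ∪ T) := by
  classical
  intro q hq
  rcases mem_union.1 hq with h1 | h1
  · exact (h q h1).mono fun x hx => mem_union_left _ hx
  · have h2 := hT h1
    unfold M3.bd at h2
    rw [mem_filter] at h2
    rcases h2.2 with h3 | ⟨q', h3, h4, h5⟩
    · exact ConnC.single rfl (mem_union_right _ h1) h3
    · refine ConnC.cons rfl (mem_union_right _ h1) h5 ?_
      rw [← h4]
      exact (h q' h3).mono fun x hx => mem_union_left _ hx

lemma Lev.Uk {D : Set ℂ} {δ : ℝ} {o : ℂ} {b : Cell} {k0 : ℕ} {E : Finset (ℤ × ℤ)}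
    (hD : Bornology.IsBounded D) : Lev o b (Uk D δ o b k0 E) := by
  intro q hq
  rw [mem_Uk hD] at hq
  have h0 := hq.head.1
  rw [h0]
  refine ConnC.induct (P := fun x => ConnC o (fun y => y ∈ M3.Uk D δ o b k0 E) b k0 x) ?_ ?_ hq
  · intro x hx hS ha
    exact ConnC.single hx ((mem_Uk hD).2 (ConnC.single hx hS ha)) ha
  · intro x y hx hS ha hc ih
    exact ConnC.cons hx ((mem_Uk hD).2 (ConnC.cons hx hS ha hc)) ha ih

/-- The law depends continuously on the exit probabilities. -/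
lemma lawF_sub {o : ℂ} {qb : Cell} {k0 k : ℕ} {fam : Finset Cell} {NB : Finset (ℤ × ℤ)}
    {g g' : Finset Cell → ℤ × ℤ → ℤ × ℤ → ℝ} {v : Finset Cell × (ℤ × ℤ) × (ℤ × ℤ)} {ε : ℝ}
    (hε : 0 ≤ ε) (hL : Lev o qb (fam.filter (fun q => q.1 = k0)))
    (h : ∀ C, fam.filter (fun q => q.1 = k0) ⊆ C → C ⊆ fam → Lev o qb C →
      v.2.1 ∈ Bxs k (fam.filter (fun q => q.1 = k0)) → v.2.1 ∉ NB → v.2.2 ∈ dirs →
      |g C v.2.1 v.2.2 - g' C v.2.1 v.2.2| ≤ ε) :
    |lawF o qb k0 k fam NB g v - lawF o qb k0 k fam NB g' v| ≤ 2 ^ fam.card * ε := by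
  classical
  unfold lawF
  split_ifs with hv
  · obtain ⟨h1, h2, h3, h4, h5⟩ := hv
    rw [← sum_sub_distrib]
    refine (abs_sum_le_sum_abs _ _).trans ?_
    have h6 : ∀ T ∈ (bd o qb fam v.1).powerset,
        |(-1) ^ T.card * (if v.2.1 ∈ Bxs k (v.1 ∪ T) then 0
          else g (v.1 ∪ T ∪ fam.filter (fun q => q.1 = k0)) v.2.1 v.2.2) -
          (-1) ^ T.card * (if v.2.1 ∈ Bxs k (v.1 ∪ T) then 0
          else g' (v.1 ∪ T ∪ fam.filter (fun q => q.1 = k0)) v.2.1 v.2.2)| ≤ ε := by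
      intro T hT
      rw [mem_powerset] at hT
      rw [← mul_sub, abs_mul, abs_pow, abs_neg, abs_one, one_pow, one_mul]
      split_ifs
      · rw [sub_zero, abs_zero]; exact hε
      · refine h _ subset_union_right ?_ ((h2.bd hT).union hL) h3 h4 h5
        refine union_subset (union_subset h1 (hT.trans ?_)) (filter_subset _ _)
        unfold M3.bd
        exact (filter_subset _ _).trans Finset.sdiff_subset
    refine (sum_le_card_nsmul _ _ _ h6).trans ?_
    rw [card_powerset, nsmul_eq_mul]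
    refine mul_le_mul_of_nonneg_right ?_ hε
    push_cast
    refine pow_le_pow_right₀ (by norm_num) (card_le_card ?_)
    unfold M3.bd
    exact (filter_subset _ _).trans Finset.sdiff_subset
  · rw [sub_zero, abs_zero]; positivity

section

variable {D : Set ℂ} {a b : ℂ} {A₁ A₂ : Set ℂ} {A : Approx D a b A₁ A₂} {r0 : ℝ} (B : Base A r0)
  {k0 n : ℕ} {X : DEnv}

/-- **The law of one step.** -/
theorem Base.law (hD : Bornology.IsBounded D) (hδ : 0 < A.δ n) {k : ℕ} (hk : k0 ≤ k)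
    (h : ¬ B.Fin n X) (hne : X.α ≠ X.β) (hβ : vx X.β ∈ B.N n)
    (hα : vx X.α ∉ Vn (A.δ n) B.o (Ule D (A.δ n) B.o B.qb k0 k X.E) ∪ B.N n)
    {NB : Finset (ℤ × ℤ)} {v : Finset Cell × (ℤ × ℤ) × (ℤ × ℤ)}
    (hN1 : v.2.1 ∈ Bxs k (Uk D (A.δ n) B.o B.qb k0 X.E) → v.2.1 ∈ NB →
      ∀ u, box (A.δ n) B.o k u = v.2.1 → u ∈ B.N n)
    (hN2 : v.2.1 ∈ Bxs k (Uk D (A.δ n) B.o B.qb k0 X.E) → v.2.1 ∉ NB →
      ∀ u ∈ B.N n, box (A.δ n) B.o k u ≠ v.2.1) :
    EX X.E (fun ω => ind (B.obs k0 k n X ((B.rules k0 n).nenv X ω) = some v)) =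
      lawF B.o B.qb k0 k (Ule D (A.δ n) B.o B.qb k0 k X.E) NB
        (fun C x d => Pr X.E (ExB (A.δ n) B.o k X (Vn (A.δ n) B.o C ∪ B.N n) x d)) v := by
  classical
  obtain ⟨CC, x, d⟩ := v
  simp only at hN1 hN2
  set fam := Ule D (A.δ n) B.o B.qb k0 k X.E with hfam
  have hU : fam.filter (fun q => q.1 = k0) = Uk D (A.δ n) B.o B.qb k0 X.E :=
    (Uk_eq_filter hD hk).symm
  have hUf : Uk D (A.δ n) B.o B.qb k0 X.E ⊆ fam := by rw [← hU]; exact filter_subset _ _
  have hαF : vx X.α ∉ B.F k0 n X.E := by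
    intro h1
    apply hα
    rcases mem_union.1 h1 with h2 | h2
    · exact mem_union_left _ (Vn_mono hUf h2)
    · exact mem_union_right _ h2
  have hlev : ∀ q ∈ fam, q.1 ≤ k := fun q hq => ((mem_Ule hD).1 hq).2.1
  have hX'E : ∀ ω, ((B.rules k0 n).nenv X ω).E ⊆ X.E := fun ω => by
    rw [Rules.nenv_E]; exact Finset.sdiff_subset
  -- the observation
  have hobs : ∀ ω, B.obs k0 k n X ((B.rules k0 n).nenv X ω) = some (CC, x, d) ↔
      ¬ B.Fin n ((B.rules k0 n).nenv X ω) ∧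
      Ule D (A.δ n) B.o B.qb k0 k ((B.rules k0 n).nenv X ω).E = CC ∧
      box (A.δ n) B.o k (tipv (B.F k0 n X.E) (lab ((B.rules k0 n).nenv X ω).α)) = x ∧
      tipd (B.F k0 n X.E) (lab ((B.rules k0 n).nenv X ω).α) = d := by
    intro ω
    unfold Base.obs
    split_ifs with h1
    · simp [h1]
    · rw [Option.some_inj, Prod.mk.injEq, Prod.mk.injEq]
      exact ⟨fun h2 => ⟨h1, h2⟩, fun h2 => h2.2⟩
  -- zero cases
  have hzero : (∀ ω, ω ⊆ X.E → ¬ B.obs k0 k n X ((B.rules k0 n).nenv X ω) = some (CC, x, d)) →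
      EX X.E (fun ω => ind (B.obs k0 k n X ((B.rules k0 n).nenv X ω) = some (CC, x, d))) = 0 := by
    intro h1
    rw [← Ex_const (fun _ => 1 / 2) X.E 0]
    exact Ex_congr fun ω hω => ind_false (h1 ω hω)
  by_cases hv : CC ⊆ fam ∧ Lev B.o B.qb CC ∧ x ∈ Bxs k (fam.filter (fun q => q.1 = k0)) ∧
      x ∉ NB ∧ d ∈ dirs
  · obtain ⟨h1, h2, h3, h4, h5⟩ := hv
    unfold lawF
    rw [if_pos ⟨h1, h2, h3, h4, h5⟩]
    simp only
    have hbd : bd B.o B.qb fam CC ⊆ fam := by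
      unfold M3.bd
      exact (filter_subset _ _).trans Finset.sdiff_subset
    have e1 : ∀ ω, ω ⊆ X.E →
        ind (B.obs k0 k n X ((B.rules k0 n).nenv X ω) = some (CC, x, d)) =
        ∑ T ∈ (bd B.o B.qb fam CC).powerset, (-1) ^ T.card *
          (if x ∈ Bxs k (CC ∪ T) then 0 else
            ind (ExB (A.δ n) B.o k X (Vn (A.δ n) B.o (CC ∪ T ∪ fam.filter (fun q => q.1 = k0)) ∪
              B.N n) x d ω)) := by
      intro ω hω
      have e2 : ind (B.obs k0 k n X ((B.rules k0 n).nenv X ω) = some (CC, x, d)) =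
          ind ((¬ B.Fin n ((B.rules k0 n).nenv X ω) ∧
            (∀ q ∈ CC, Free D (A.δ n) B.o ((B.rules k0 n).nenv X ω).E q) ∧
            box (A.δ n) B.o k (tipv (B.F k0 n X.E) (lab ((B.rules k0 n).nenv X ω).α)) = x ∧
            tipd (B.F k0 n X.E) (lab ((B.rules k0 n).nenv X ω).α) = d) ∧
            ∀ q ∈ bd B.o B.qb fam CC, ¬ Free D (A.δ n) B.o ((B.rules k0 n).nenv X ω).E q) := by
        refine ind_congr ?_
        rw [hobs, Ule_eq_iff hD (hX'E ω)]
        constructor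
        · rintro ⟨g1, ⟨-, -, g2, g3⟩, g4, g5⟩
          exact ⟨⟨g1, g2, g4, g5⟩, g3⟩
        · rintro ⟨⟨g1, g2, g4, g5⟩, g3⟩
          exact ⟨g1, ⟨h1, h2, g2, g3⟩, g4, g5⟩
      rw [e2, ind_incl_excl]
      refine sum_congr rfl fun T hT => ?_
      rw [mem_powerset] at hT
      congr 1
      have hC : ∀ q ∈ CC ∪ T, q.1 ≤ k ∧ Free D (A.δ n) B.o X.E q := by
        intro q hq
        have hq' : q ∈ fam := by
          rcases mem_union.1 hq with h6 | h6
          · exact h1 h6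
          · exact hbd (hT h6)
        exact ⟨hlev q hq', Ule_free hD hq'⟩
      have hCf : CC ∪ T ⊆ fam := union_subset h1 (hT.trans hbd)
      have hα' : vx X.α ∉ Vn (A.δ n) B.o (CC ∪ T) ∪ B.F k0 n X.E := by
        intro h6
        rcases mem_union.1 h6 with h7 | h7
        · exact hα (mem_union_left _ (Vn_mono hCf h7))
        · exact hαF h7
      have key := B.step_iff (k0 := k0) hδ h hω hne hβ hC hα' h5 (hN2 (by rwa [hU] at h3) h4)
      have hK : Vn (A.δ n) B.o (CC ∪ T ∪ fam.filter (fun q => q.1 = k0)) ∪ B.N n =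
          Vn (A.δ n) B.o (CC ∪ T) ∪ B.F k0 n X.E := by
        rw [hU, Vn_union]
        unfold Base.F
        rw [union_assoc]
      rw [hK]
      have e3 : ((¬ B.Fin n ((B.rules k0 n).nenv X ω) ∧
            (∀ q ∈ CC, Free D (A.δ n) B.o ((B.rules k0 n).nenv X ω).E q) ∧
            box (A.δ n) B.o k (tipv (B.F k0 n X.E) (lab ((B.rules k0 n).nenv X ω).α)) = x ∧
            tipd (B.F k0 n X.E) (lab ((B.rules k0 n).nenv X ω).α) = d) ∧
            ∀ q ∈ T, Free D (A.δ n) B.o ((B.rules k0 n).nenv X ω).E q) ↔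
            (x ∉ Bxs k (CC ∪ T) ∧
              ExB (A.δ n) B.o k X (Vn (A.δ n) B.o (CC ∪ T) ∪ B.F k0 n X.E) x d ω) := by
        rw [← key]
        constructor
        · rintro ⟨⟨g1, g2, g4, g5⟩, g3⟩
          refine ⟨g1, fun q hq => ?_, g4, g5⟩
          rcases mem_union.1 hq with h6 | h6
          · exact g2 q h6
          · exact g3 q h6
        · rintro ⟨g1, g2, g4, g5⟩
          exact ⟨⟨g1, fun q hq => g2 q (mem_union_left _ hq), g4, g5⟩,
            fun q hq => g2 q (mem_union_right _ hq)⟩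
      rw [ind_congr e3]
      split_ifs with h6
      · exact ind_false fun h7 => h7.1 h6
      · exact ind_congr ⟨fun h7 => h7.2, fun h7 => ⟨h6, h7⟩⟩
    have e4 : EX X.E (fun ω => ind (B.obs k0 k n X ((B.rules k0 n).nenv X ω) = some (CC, x, d))) =
        EX X.E (fun ω => ∑ T ∈ (bd B.o B.qb fam CC).powerset, (-1) ^ T.card *
          (if x ∈ Bxs k (CC ∪ T) then 0 else
            ind (ExB (A.δ n) B.o k X (Vn (A.δ n) B.o (CC ∪ T ∪ fam.filter (fun q => q.1 = k0)) ∪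
              B.N n) x d ω))) := Ex_congr e1
    rw [e4]
    unfold EX
    rw [Ex_sum]
    refine sum_congr rfl fun T _ => ?_
    rw [Ex_smul]
    congr 1
    split_ifs
    · exact Ex_const _ _ _
    · rw [← PrP_half]; rfl
  · have hz : lawF B.o B.qb k0 k fam NB
        (fun C x d => Pr X.E (ExB (A.δ n) B.o k X (Vn (A.δ n) B.o C ∪ B.N n) x d)) (CC, x, d) = 0 := by
      unfold lawF
      rw [if_neg hv]
    rw [hz]
    refine hzero fun ω hω h1 => hv ?_
    rw [hobs, Ule_eq_iff hD (hX'E ω)] at h1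
    obtain ⟨g1, ⟨g2, g3, -, -⟩, g4, g5⟩ := h1
    obtain ⟨m, hm, u, hu, q1, q2, hw, q3, q4, q5, q6, q7, -, q8, -⟩ :=
      B.step_spec (k0 := k0) h hω hne hβ hαF
    rw [q8, q5] at g4
    rw [q8] at g5
    have hdx : d ∈ dirs := by rw [← g5]; exact q7
    unfold Base.Fin at g1
    rw [q8] at g1
    have huN : u ∉ B.N n := fun h6 => g1 (star1_sub_star h6 q3)
    have huU : u ∈ Vn (A.δ n) B.o (Uk D (A.δ n) B.o B.qb k0 X.E) :=
      (mem_union.1 hu).resolve_right huN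
    have hx : x ∈ Bxs k (Uk D (A.δ n) B.o B.qb k0 X.E) := by
      rw [← g4]
      exact (mem_Vn_iff_box hδ (B.gen' n) (fun q hq => hlev q (hUf hq))).1 huU
    refine ⟨g2, g3, by rw [hU]; exact hx, fun h6 => huN (hN1 hx h6 u g4), hdx⟩

end

end Pool.Agent.Q1.M3
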