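import Mathlib
import Pool.Agent.Q1.M3.Law

set_option autoImplicit false
open Finset Filter Topology

/-! # M3: the states of the chain, regularity for large `n` -/

namespace Pool.Agent.Q1.M3

open Pool.Agent.H75.Perc Pool.Agent.H75.TwoArm Pool.Agent.H75.Four Pool.Agent.H69.Q1
open Pool.Agent.H99.NC
open Pool.Agent.H81.Q1 (pt DDomain Approx IsJordanDomain IsArcs)

/-! ### Closed families -/

lemma isClosed_cfat (o : ℂ) (q : Cell) : IsClosed (cfat o q) := by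
  have h : cfat o q = Complex.re ⁻¹' Set.Icc (o.re + (q.2.1 - 1 / 3) * mesh q.1)
      (o.re + (q.2.1 + 4 / 3) * mesh q.1) ∩ Complex.im ⁻¹' Set.Icc
      (o.im + (q.2.2 - 1 / 3) * mesh q.1) (o.im + (q.2.2 + 4 / 3) * mesh q.1) := by
    ext z
    simp only [cfat, Set.mem_ofPred_eq, Set.mem_inter_iff, Set.mem_preimage, Set.mem_Icc]
    tauto
  rw [h]
  exact (isClosed_Icc.preimage Complex.continuous_re).inter
    (isClosed_Icc.preimage Complex.continuous_im)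

lemma fat_sub_cfat (o : ℂ) (q : Cell) : fat o q ⊆ cfat o q := fun _ h =>
  ⟨h.1.le, h.2.1.le, h.2.2.1.le, h.2.2.2.le⟩

/-- Points of the complement of `D` are at positive distance from a finite family in `D`. -/
lemma exists_dist {D : Set ℂ} {o : ℂ} (C : Finset Cell) (hC : ∀ q ∈ C, cfat o q ⊆ D) {p : ℂ}
    (hp : p ∉ D) : ∃ s > 0, ∀ q ∈ C, ∀ z ∈ cfat o q, s ≤ dist z p := by
  have h1 : IsClosed (⋃ q ∈ C, cfat o q) :=
    Set.Finite.isClosed_biUnion (Finset.finite_toSet C) fun q _ => isClosed_cfat o q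
  have h2 : p ∈ (⋃ q ∈ C, cfat o q)ᶜ := by
    intro h3
    rw [Set.mem_iUnion₂] at h3
    obtain ⟨q, hq, h4⟩ := h3
    exact hp (hC q hq h4)
  obtain ⟨s, hs, h3⟩ := Metric.isOpen_iff.1 h1.isOpen_compl p h2
  refine ⟨s, hs, fun q hq z hz => ?_⟩
  by_contra h4
  push Not at h4
  exact h3 (Metric.mem_ball.2 h4) (Set.mem_iUnion₂.2 ⟨q, hq, hz⟩)

/-- The cells of levels `k0, …, k` in `D`. -/
noncomputable def cellsLe (D : Set ℂ) (o : ℂ) (k0 k : ℕ) : Finset Cell :=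
  (Finset.Icc k0 k).biUnion (cells D o)

lemma mem_cellsLe {D : Set ℂ} (hD : Bornology.IsBounded D) {o : ℂ} {k0 k : ℕ} {q : Cell} :
    q ∈ cellsLe D o k0 k ↔ k0 ≤ q.1 ∧ q.1 ≤ k ∧ cfat o q ⊆ D := by
  unfold cellsLe
  rw [Finset.mem_biUnion]
  constructor
  · rintro ⟨l, hl, h⟩
    rw [mem_cells hD] at h
    rw [Finset.mem_Icc] at hl
    rw [h.1]
    exact ⟨hl.1, hl.2, h.2⟩
  · rintro ⟨h1, h2, h3⟩
    exact ⟨q.1, Finset.mem_Icc.2 ⟨h1, h2⟩, (mem_cells hD).2 ⟨rfl, h3⟩⟩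

lemma Ule_sub_cellsLe {D : Set ℂ} (hD : Bornology.IsBounded D) {δ : ℝ} {o : ℂ} {b : Cell}
    {k0 k : ℕ} {E : Finset (ℤ × ℤ)} : Ule D δ o b k0 k E ⊆ cellsLe D o k0 k := by
  intro q hq
  rw [mem_Ule hD] at hq
  rw [mem_cellsLe hD]
  exact ⟨hq.1, hq.2.1, hq.2.2.head.2.1⟩

lemma Uk_sub_cells {D : Set ℂ} (hD : Bornology.IsBounded D) {δ : ℝ} {o : ℂ} {b : Cell}
    {k : ℕ} {E : Finset (ℤ × ℤ)} : Uk D δ o b k E ⊆ cells D o k := by
  intro q hq
  rw [mem_Uk hD] at hq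
  rw [mem_cells hD]
  exact ⟨hq.head.1, hq.head.2.1⟩

/-- Neighbouring vertices are at distance `δ`. -/
lemma dist_of_star1 {δ : ℝ} (hδ : 0 < δ) {e v w : ℤ × ℤ} (hv : e ∈ star1 v) (hw : e ∈ star1 w) :
    dist (pt δ v) (pt δ w) ≤ δ := by
  by_cases hne : v = w
  · rw [hne, dist_self]; exact hδ.le
  obtain ⟨-, h2, -⟩ := star1_pair hv hw hne
  obtain ⟨x, y⟩ := v
  obtain ⟨x', y'⟩ := w
  unfold dirs at h2
  simp only [Finset.mem_insert, Finset.mem_singleton, Prod.mk_sub_mk, Prod.mk.injEq] at h2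
  rw [Complex.dist_eq_re_im]
  unfold pt
  simp only
  rcases h2 with ⟨h3, h4⟩ | ⟨h3, h4⟩ | ⟨h3, h4⟩ | ⟨h3, h4⟩
  · have e1 : (x' : ℝ) = x + 1 := by exact_mod_cast (by omega : x' = x + 1)
    have e2 : (y' : ℝ) = y := by exact_mod_cast (by omega : y' = y)
    rw [e1, e2, show (δ * x - δ * (x + 1)) ^ 2 + (δ * y - δ * y) ^ 2 = δ ^ 2 by ring,
      Real.sqrt_sq hδ.le]
  · have e1 : (x' : ℝ) = x := by exact_mod_cast (by omega : x' = x)
    have e2 : (y' : ℝ) = y + 1 := by exact_mod_cast (by omega : y' = y + 1)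
    rw [e1, e2, show (δ * x - δ * x) ^ 2 + (δ * y - δ * (y + 1)) ^ 2 = δ ^ 2 by ring,
      Real.sqrt_sq hδ.le]
  · have e1 : (x' : ℝ) = x - 1 := by exact_mod_cast (by omega : x' = x - 1)
    have e2 : (y' : ℝ) = y := by exact_mod_cast (by omega : y' = y)
    rw [e1, e2, show (δ * x - δ * (x - 1)) ^ 2 + (δ * y - δ * y) ^ 2 = δ ^ 2 by ring,
      Real.sqrt_sq hδ.le]
  · have e1 : (x' : ℝ) = x := by exact_mod_cast (by omega : x' = x)
    have e2 : (y' : ℝ) = y - 1 := by exact_mod_cast (by omega : y' = y - 1)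
    rw [e1, e2, show (δ * x - δ * x) ^ 2 + (δ * y - δ * (y - 1)) ^ 2 = δ ^ 2 by ring,
      Real.sqrt_sq hδ.le]

section

variable {D : Set ℂ} {a b : ℂ} {A₁ A₂ : Set ℂ} {A : Approx D a b A₁ A₂} {r0 : ℝ} (B : Base A r0)
  {k0 n : ℕ} {ω : Finset (ℤ × ℤ)}

/-- Regularity of the index `n`. -/
structure Base.Reg (k0 k n : ℕ) : Prop where
  beta : vx (X0 A n).β ∈ B.N n
  nfin : ¬ B.Fin n (X0 A n)
  init : vx (X0 A n).α ∉ Vn (A.δ n) B.o (cellsLe D B.o k0 k)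

/-- The barrier outside the small ball does not depend on `n`. -/
def Base.Bar (k0 M0 n : ℕ) : Prop :=
  ∃ N' : Finset (ℤ × ℤ), B.N n = Vn (A.δ n) B.o (B.Q M0) ∪ N' ∧
    ∀ v ∈ N', v ∉ Vn (A.δ n) B.o (cells D B.o k0)

lemma Base.reg_eventually (hD : Bornology.IsBounded D) (ha : a ∉ D) (hr : r0 < dist a b)
    (k0 k : ℕ) : ∀ᶠ n in atTop, B.Reg k0 k n := by
  obtain ⟨s, hs, h1⟩ := exists_dist (cellsLe D B.o k0 k)
    (fun q hq => ((mem_cellsLe hD).1 hq).2.2) ha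
  set d := dist a b - r0 with hd
  have hd0 : 0 < d := by rw [hd]; linarith
  have e1 := (Metric.tendsto_nhds.1 A.limα) (min s (d / 2)) (lt_min hs (by linarith))
  have e2 : ∀ᶠ n in atTop, A.δ n < d / 4 := A.lim.eventually_lt_const (by linarith)
  filter_upwards [B.beta, B.sub, e1, e2] with n h2 h3 h4 h5
  have hα : vx (X0 A n).α = (A.X n).α.1 := by
    change vx (A.X n).toDEnv.α = _
    rw [Pool.Agent.H81.Q1.toDEnv_α, vx_cor]
  refine ⟨h2, ?_, ?_⟩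
  · intro h6
    obtain ⟨v, hv, h7⟩ := mem_star.1 h6
    have h8 := dist_of_star1 (A.pos n) h7 (lab_star1 (X0 A n).α)
    rw [hα] at h8
    have h9 := Metric.mem_ball.1 (h3 v hv)
    have h10 := lt_of_lt_of_le h4 (min_le_right _ _)
    have h11 := dist_triangle a (pt (A.δ n) (A.X n).α.1) b
    have h12 := dist_triangle (pt (A.δ n) (A.X n).α.1) (pt (A.δ n) v) b
    rw [dist_comm a (pt (A.δ n) (A.X n).α.1)] at h11
    rw [dist_comm (pt (A.δ n) (A.X n).α.1) (pt (A.δ n) v)] at h12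
    linarith
  · intro h6
    obtain ⟨q, hq, h7⟩ := mem_Vn.1 h6
    rw [mem_verts (A.pos n), hα] at h7
    have h8 := h1 q hq _ (fat_sub_cfat _ _ h7)
    exact absurd (lt_of_lt_of_le h4 (min_le_left _ _)) (not_lt.2 h8)

lemma Base.bar_eventually (hD : Bornology.IsBounded D) (hb : b ∉ D) (k0 : ℕ) :
    ∃ M0, ∀ᶠ n in atTop, B.Bar k0 M0 n := by
  obtain ⟨s, hs, h1⟩ := exists_dist (cells D B.o k0) (fun q hq => ((mem_cells hD).1 hq).2) hb
  obtain ⟨M0, hM⟩ := (B.rlim.eventually_lt_const hs).exists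
  refine ⟨M0, ?_⟩
  filter_upwards [B.hN M0] with n h2
  obtain ⟨N', h3, h4⟩ := h2
  refine ⟨N', h3, fun v hv h5 => ?_⟩
  obtain ⟨q, hq, h6⟩ := mem_Vn.1 h5
  rw [mem_verts (A.pos n)] at h6
  have h7 := h1 q hq _ (fat_sub_cfat _ _ h6)
  have h8 := Metric.mem_ball.1 (h4 v hv)
  linarith

/-! ### The states -/

lemma Base.X_beta (j : ℕ) : (B.X k0 n j ω).β = (X0 A n).β := Rules.st_β _ j

lemma Base.X_E (hω : ω ⊆ (X0 A n).E) (j : ℕ) : (B.X k0 n j ω).E ⊆ (X0 A n).E := by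
  unfold Base.X
  rw [Rules.st_E _ hω]
  exact Finset.sdiff_subset

/-- The tip of an unfinished state. -/
theorem Base.tip_spec (hD : Bornology.IsBounded D) {k : ℕ} (hk : k0 ≤ k) (hR : B.Reg k0 k n)
    (hω : ω ⊆ (X0 A n).E) (j : ℕ) (h : ¬ B.Fin n (B.X k0 n j ω)) :
    vx (B.X k0 n j ω).α ∉
      Vn (A.δ n) B.o (Ule D (A.δ n) B.o B.qb k0 k (B.X k0 n j ω).E) ∪ B.N n ∧
    (j ≠ 0 → lab (B.X k0 n j ω).α ∉ (B.X k0 n j ω).E) ∧
    (B.X k0 n j ω).α ≠ (B.X k0 n j ω).β := by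
  have hN : ∀ X : DEnv, ¬ B.Fin n X → vx X.α ∉ B.N n := fun X h1 h2 =>
    h1 (star1_sub_star h2 (lab_star1 _))
  have hne : ∀ j, ¬ B.Fin n (B.X k0 n j ω) → (B.X k0 n j ω).α ≠ (B.X k0 n j ω).β := by
    intro j h1 h2
    apply h1
    refine star1_sub_star (v := vx (X0 A n).β) hR.beta ?_
    rw [h2, B.X_beta]
    exact lab_star1 _
  induction j with
  | zero =>
    refine ⟨?_, fun h1 => absurd rfl h1, hne 0 h⟩
    rw [Finset.mem_union, not_or]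
    exact ⟨fun h1 => hR.init (Vn_mono (Ule_sub_cellsLe hD) h1), hN _ h⟩
  | succ j ih =>
    have hst : B.X k0 n (j + 1) ω =
        (B.rules k0 n).nenv (B.X k0 n j ω) ((B.rules k0 n).cf j (X0 A n) ω) :=
      Rules.st_last _ _ _ _
    have h1 : ¬ B.Fin n (B.X k0 n j ω) := by
      intro h2
      apply h
      rw [hst, B.nenv_fin h2]
      exact h2
    obtain ⟨h2, -, h3⟩ := ih h1
    have h4 : vx (B.X k0 n j ω).α ∉ B.F k0 n (B.X k0 n j ω).E := by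
      intro h5
      apply h2
      rcases Finset.mem_union.1 h5 with h6 | h6
      · refine Finset.mem_union_left _ (Vn_mono ?_ h6)
        rw [Uk_eq_filter hD hk]
        exact Finset.filter_subset _ _
      · exact Finset.mem_union_right _ h6
    have hcf := (B.rules k0 n).cf_sub hω j
    obtain ⟨m, -, v, -, -, -, -, -, -, -, -, -, -, h5, h6⟩ :=
      B.step_spec (k0 := k0) (X := B.X k0 n j ω) h1 hcf h3 (by rw [B.X_beta]; exact hR.beta) h4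
    have h7 : lab (B.X k0 n (j + 1) ω).α ∉ (B.X k0 n (j + 1) ω).E := by
      rw [hst, h5, h6]
      rintro ⟨-, h8⟩
      exact h8 m le_rfl rfl
    refine ⟨?_, fun _ => h7, hne _ h⟩
    rw [Finset.mem_union, not_or]
    refine ⟨fun h8 => h7 ?_, hN _ h⟩
    obtain ⟨q, hq, h9⟩ := mem_Vn.1 h8
    exact (Ule_free hD hq).2 (star1_sub_star h9 (lab_star1 _))

/-- The law of the next step at an unfinished state. -/
theorem Base.law_state (hD : Bornology.IsBounded D) {k M0 : ℕ} (hk : k0 ≤ k)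
    (hR : B.Reg k0 k n) (hM : ∀ q ∈ B.Q M0, q.1 ≤ k) (hB : B.Bar k0 M0 n)
    (hω : ω ⊆ (X0 A n).E) {j : ℕ} (h : ¬ B.Fin n (B.X k0 n j ω))
    (v : Finset Cell × (ℤ × ℤ) × (ℤ × ℤ)) :
    EX (B.X k0 n j ω).E (fun η => ind (B.obs k0 k n (B.X k0 n j ω)
        ((B.rules k0 n).nenv (B.X k0 n j ω) η) = some v)) =
      lawF B.o B.qb k0 k (Ule D (A.δ n) B.o B.qb k0 k (B.X k0 n j ω).E) (Bxs k (B.Q M0))
        (fun C x d => Pr (B.X k0 n j ω).E (ExB (A.δ n) B.o k (B.X k0 n j ω)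
          (Vn (A.δ n) B.o C ∪ B.N n) x d)) v ∧
    (v.2.1 ∈ Bxs k (Uk D (A.δ n) B.o B.qb k0 (B.X k0 n j ω).E) → v.2.1 ∉ Bxs k (B.Q M0) →
      ∀ u ∈ B.N n, box (A.δ n) B.o k u ≠ v.2.1) := by
  obtain ⟨h1, -, h3⟩ := B.tip_spec hD hk hR hω j h
  obtain ⟨N', h4, h5⟩ := hB
  have hδ := A.pos n
  have key : v.2.1 ∈ Bxs k (Uk D (A.δ n) B.o B.qb k0 (B.X k0 n j ω).E) →
      v.2.1 ∉ Bxs k (B.Q M0) → ∀ u ∈ B.N n, box (A.δ n) B.o k u ≠ v.2.1 := by
    intro g1 g2 u hu g3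
    rw [h4] at hu
    rcases Finset.mem_union.1 hu with g4 | g4
    · exact g2 (by rw [← g3]; exact (mem_Vn_iff_box hδ (B.gen' n) hM).1 g4)
    · refine h5 u g4 (Vn_mono (Uk_sub_cells hD (E := (B.X k0 n j ω).E) (b := B.qb)
        (δ := A.δ n)) ?_)
      refine (mem_Vn_iff_box hδ (B.gen' n) (k := k) ?_).2 (by rw [g3]; exact g1)
      intro q hq
      rw [mem_Uk hD] at hq
      rw [hq.head.1]
      exact hk
  refine ⟨?_, key⟩
  refine B.law (k0 := k0) hD hδ hk h h3 (by rw [B.X_beta]; exact hR.beta) h1 ?_ key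
  intro g1 g2 u g3
  rw [h4]
  exact Finset.mem_union_left _ ((mem_Vn_iff_box hδ (B.gen' n) hM).2 (by rw [g3]; exact g2))

end

end Pool.Agent.Q1.M3
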