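import Mathlib
import Pool.Agent.Q1.M3.State
import Pool.Agent.H28.Q1.LayerP

set_option autoImplicit false
open Finset Filter Topology

/-! # M3: the tip is not near a grid vertex -/

namespace Pool.Agent.Q1.M3

open Pool.Agent.H75.Perc Pool.Agent.H75.TwoArm Pool.Agent.H75.Four Pool.Agent.H69.Q1
open Pool.Agent.H99.NC
open Pool.Agent.H81.Q1 (pt DDomain Approx IsJordanDomain IsArcs)

lemma isCompact_cfat (o : ℂ) (q : Cell) : IsCompact (cfat o q) := by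
  refine Metric.isCompact_of_isClosed_isBounded (isClosed_cfat o q) ?_
  refine (Metric.isBounded_iff_subset_closedBall o).2
    ⟨|(q.2.1 : ℝ) - 1 / 3| * mesh q.1 + |(q.2.1 : ℝ) + 4 / 3| * mesh q.1 +
      (|(q.2.2 : ℝ) - 1 / 3| * mesh q.1 + |(q.2.2 : ℝ) + 4 / 3| * mesh q.1), ?_⟩
  rintro z ⟨h1, h2, h3, h4⟩
  have hm := mesh_pos q.1
  rw [Metric.mem_closedBall, Complex.dist_eq]
  refine (Complex.norm_le_abs_re_add_abs_im _).trans ?_
  have key : ∀ x u v : ℝ, u * mesh q.1 ≤ x → x ≤ v * mesh q.1 →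
      |x| ≤ |u| * mesh q.1 + |v| * mesh q.1 := by
    intro x u v hu hv
    have e1 : u * mesh q.1 ≥ -(|u| * mesh q.1) := by
      have := neg_abs_le u
      nlinarith
    have e2 : v * mesh q.1 ≤ |v| * mesh q.1 := by
      have := le_abs_self v
      nlinarith
    have e3 : 0 ≤ |u| * mesh q.1 := by positivity
    have e4 : 0 ≤ |v| * mesh q.1 := by positivity
    rw [abs_le]
    constructor <;> linarith
  refine add_le_add (key _ _ _ ?_ ?_) (key _ _ _ ?_ ?_)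
  · rw [Complex.sub_re]; linarith
  · rw [Complex.sub_re]; linarith
  · rw [Complex.sub_im]; linarith
  · rw [Complex.sub_im]; linarith

/-- A finite family in `D` is at positive distance from the complement of `D`. -/
lemma exists_dist_compl {D : Set ℂ} (hD : IsOpen D) {o : ℂ} (C : Finset Cell)
    (hC : ∀ q ∈ C, cfat o q ⊆ D) : ∃ s > 0, ∀ q ∈ C, ∀ z ∈ cfat o q, ∀ p, p ∉ D → s ≤ dist z p := by
  have h1 : IsCompact (⋃ q ∈ C, cfat o q) :=
    (Finset.finite_toSet C).isCompact_biUnion fun q _ => isCompact_cfat o q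
  have h2 : (⋃ q ∈ C, cfat o q) ⊆ D := Set.iUnion₂_subset hC
  obtain ⟨s, hs, h3⟩ := h1.exists_thickening_subset_open hD h2
  refine ⟨s, hs, fun q hq z hz p hp => ?_⟩
  by_contra h4
  push Not at h4
  refine hp (h3 (Metric.mem_thickening_iff.2 ⟨z, Set.mem_iUnion₂.2 ⟨q, hq, hz⟩, ?_⟩))
  rw [dist_comm]; exact h4

lemma grid_finite {D : Set ℂ} (hD : Bornology.IsBounded D) (o : ℂ) (k : ℕ) :
    {m : ℤ × ℤ | gpt o k m ∈ D}.Finite := by
  obtain ⟨R, hR⟩ := hD.subset_closedBall 0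
  have hm := mesh_pos (k + 1)
  have key : ∀ (x0 : ℝ) (i : ℤ), |x0 + i * mesh (k + 1)| ≤ R →
      i ∈ Finset.Icc (⌊(-R - |x0|) / mesh (k + 1)⌋) (⌈(R + |x0|) / mesh (k + 1)⌉) := by
    intro x0 i hi
    rw [abs_le] at hi
    have h1 := neg_abs_le x0
    have h2 := le_abs_self x0
    rw [Finset.mem_Icc]
    constructor
    · have h3 : ((⌊(-R - |x0|) / mesh (k + 1)⌋ : ℤ) : ℝ) ≤ i := by
        have h4 : ((⌊(-R - |x0|) / mesh (k + 1)⌋ : ℤ) : ℝ) ≤ (-R - |x0|) / mesh (k + 1) :=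
          Int.floor_le _
        have h5 : (-R - |x0|) / mesh (k + 1) ≤ i := by
          rw [div_le_iff₀ hm]; linarith [hi.1]
        linarith
      exact_mod_cast h3
    · have h3 : (i : ℝ) ≤ ((⌈(R + |x0|) / mesh (k + 1)⌉ : ℤ) : ℝ) := by
        have h4 : (R + |x0|) / mesh (k + 1) ≤ ((⌈(R + |x0|) / mesh (k + 1)⌉ : ℤ) : ℝ) :=
          Int.le_ceil _
        have h5 : (i : ℝ) ≤ (R + |x0|) / mesh (k + 1) := by
          rw [le_div_iff₀ hm]; linarith [hi.2]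
        linarith
      exact_mod_cast h3
  refine (((Finset.Icc (⌊(-R - |o.re|) / mesh (k + 1)⌋) (⌈(R + |o.re|) / mesh (k + 1)⌉)) ×ˢ
      (Finset.Icc (⌊(-R - |o.im|) / mesh (k + 1)⌋)
        (⌈(R + |o.im|) / mesh (k + 1)⌉))).finite_toSet).subset ?_
  rintro m hmD
  have h1 := hR hmD
  rw [Metric.mem_closedBall, dist_zero_right] at h1
  rw [Finset.mem_coe, mem_product]
  exact ⟨key o.re m.1 ((Complex.abs_re_le_norm _).trans h1),
    key o.im m.2 ((Complex.abs_im_le_norm _).trans h1)⟩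

section

variable {D : Set ℂ} {a b : ℂ} {A₁ A₂ : Set ℂ} {A : Approx D a b A₁ A₂} {r0 : ℝ} (B : Base A r0)
  {k0 n : ℕ} {ω : Finset (ℤ × ℤ)}

/-- Position of the tip of an unfinished state. -/
theorem Base.tip_pos (hD : Bornology.IsBounded D) (hR : B.Reg k0 k0 n)
    (hω : ω ⊆ (X0 A n).E) (j : ℕ) (h : ¬ B.Fin n (B.X k0 n (j + 1) ω)) :
    ∃ v, v ∈ Vn (A.δ n) B.o (Uk D (A.δ n) B.o B.qb k0 (B.X k0 n j ω).E) ∧
      tipv (B.F k0 n (B.X k0 n j ω).E) (lab (B.X k0 n (j + 1) ω).α) = v ∧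
      dist (pt (A.δ n) (vx (B.X k0 n (j + 1) ω).α)) (pt (A.δ n) v) ≤ A.δ n := by
  have hst : B.X k0 n (j + 1) ω =
      (B.rules k0 n).nenv (B.X k0 n j ω) ((B.rules k0 n).cf j (X0 A n) ω) :=
    Rules.st_last _ _ _ _
  have h1 : ¬ B.Fin n (B.X k0 n j ω) := by
    intro h2
    apply h
    rw [hst, B.nenv_fin h2]
    exact h2
  obtain ⟨h2, -, h3⟩ := B.tip_spec hD le_rfl hR hω j h1
  have h4 : vx (B.X k0 n j ω).α ∉ B.F k0 n (B.X k0 n j ω).E := by
    intro h5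
    apply h2
    rcases Finset.mem_union.1 h5 with h6 | h6
    · refine Finset.mem_union_left _ (Vn_mono ?_ h6)
      rw [Uk_eq_filter hD le_rfl]
      exact Finset.filter_subset _ _
    · exact Finset.mem_union_right _ h6
  have hcf := (B.rules k0 n).cf_sub hω j
  obtain ⟨m, -, v, hv, -, -, -, g1, -, g2, -, -, -, g3, -⟩ :=
    B.step_spec (k0 := k0) (X := B.X k0 n j ω) h1 hcf h3 (by rw [B.X_beta]; exact hR.beta) h4
  have g4 : lab (B.X k0 n (j + 1) ω).α = plab ((B.X k0 n j ω).cor ((B.rules k0 n).cf j (X0 A n) ω) m) := by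
    rw [hst]; exact g3
  refine ⟨v, ?_, by rw [g4]; exact g2, ?_⟩
  · refine (Finset.mem_union.1 hv).resolve_right fun g5 => h ?_
    unfold Base.Fin
    rw [g4]
    exact star1_sub_star g5 g1
  · refine dist_of_star1 (A.pos n) (e := lab (B.X k0 n (j + 1) ω).α) (lab_star1 _) ?_
    rw [g4]; exact g1

/-- **The tip is not near a grid vertex.** -/
theorem Base.good_prob (hDo : IsOpen D) (hD : Bornology.IsBounded D) (hA : IsArcs D a b A₁ A₂)
    (ha : a ∉ D) (hb : b ∉ D) (hr : r0 < dist a b) (k0 k : ℕ) {θ : ℝ} (hθ : 0 < θ) :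
    ∃ ρ > 0, ∀ᶠ n in atTop, ∀ j, Pr (X0 A n).E (fun ω => j ≠ 0 ∧ ¬ B.Fin n (B.X k0 n j ω) ∧
      ¬ B.Good k n ρ (B.X k0 n j ω)) ≤ θ := by
  classical
  obtain ⟨s, hs, h1⟩ := exists_dist_compl hDo (cells D B.o k0)
    (fun q hq => ((mem_cells hD).1 hq).2)
  set Z := (grid_finite hD B.o k).toFinset with hZ
  have hZm : ∀ m, m ∈ Z ↔ gpt B.o k m ∈ D := fun m => by
    rw [hZ, Set.Finite.mem_toFinset]; rfl
  have hθ' : 0 < θ / (Z.card + 1) := by positivity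
  have h2 : ∀ m : ℤ × ℤ, ∃ η > 0, m ∈ Z → ∀ᶠ n in atTop,
      Pr (EL (A.X n)) (fun S => ∃ w ≤ (A.X n).toDEnv.len S,
        dist (pt (A.δ n) (vx ((A.X n).toDEnv.cor S w))) (gpt B.o k m) ≤ η) ≤
        θ / (Z.card + 1) := by
    intro m
    by_cases hm : m ∈ Z
    · have hmD := (hZm m).1 hm
      obtain ⟨η, hη, h3⟩ := Pool.Agent.H28.Q1.reach_prob hA A (p := gpt B.o k m)
        (fun h => ha (h ▸ hmD)) (fun h => hb (h ▸ hmD)) hθ'
      exact ⟨η, hη, fun _ => h3⟩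
    · exact ⟨1, one_pos, fun h => absurd h hm⟩
  choose η hη h3 using h2
  obtain ⟨ρ, hρ, h4, h5⟩ : ∃ ρ > 0, ρ ≤ s / 2 ∧ ∀ m ∈ Z, ρ ≤ η m := by
    have : ∀ S : Finset (ℤ × ℤ), ∃ ρ > 0, ρ ≤ s / 2 ∧ ∀ m ∈ S, ρ ≤ η m := by
      intro S
      induction S using Finset.induction_on with
      | empty => exact ⟨s / 2, by positivity, le_rfl, by simp⟩
      | insert m S _ ih =>
        obtain ⟨ρ, g1, g2, g3⟩ := ih
        refine ⟨min ρ (η m), lt_min g1 (hη m), (min_le_left _ _).trans g2, fun m' hm' => ?_⟩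
        rcases Finset.mem_insert.1 hm' with rfl | hm'
        · exact min_le_right _ _
        · exact (min_le_left _ _).trans (g3 m' hm')
    exact this Z
  refine ⟨ρ, hρ, ?_⟩
  have e1 : ∀ᶠ n in atTop, ∀ m ∈ Z,
      Pr (EL (A.X n)) (fun S => ∃ w ≤ (A.X n).toDEnv.len S,
        dist (pt (A.δ n) (vx ((A.X n).toDEnv.cor S w))) (gpt B.o k m) ≤ η m) ≤
        θ / (Z.card + 1) := by
    rw [Finset.eventually_all]
    exact fun m hm => h3 m hm
  have e2 : ∀ᶠ n in atTop, A.δ n < s / 2 := A.lim.eventually_lt_const (by positivity)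
  filter_upwards [e1, e2, B.reg_eventually hD ha hr k0 k0] with n g1 g2 g3 j
  have hE : (X0 A n).E = EL (A.X n) := Pool.Agent.H81.Q1.toDEnv_E (A.X n)
  have g4 : Pr (X0 A n).E (fun ω => j ≠ 0 ∧ ¬ B.Fin n (B.X k0 n j ω) ∧
      ¬ B.Good k n ρ (B.X k0 n j ω)) ≤ Pr (X0 A n).E (fun S => ∃ m ∈ Z,
        ∃ w ≤ (A.X n).toDEnv.len S,
        dist (pt (A.δ n) (vx ((A.X n).toDEnv.cor S w))) (gpt B.o k m) ≤ η m) := by
    refine Pr_mono fun ω hω => ?_
    rintro ⟨g5, g6, g7⟩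
    unfold Base.Good at g7
    push Not at g7
    obtain ⟨m, g8⟩ := g7
    have hα : (B.X k0 n j ω).α = (X0 A n).cor ω (B.T k0 n j ω) := Rules.st_α _ hω j
    have hT : B.T k0 n j ω ≤ (X0 A n).len ω := Rules.tm_le_len _ hω j
    have hmZ : m ∈ Z := by
      rw [hZm]
      by_contra g9
      obtain ⟨i, rfl⟩ : ∃ i, j = i + 1 := ⟨j - 1, by omega⟩
      obtain ⟨v, q1, -, q2⟩ := B.tip_pos hD g3 hω i g6
      obtain ⟨q, q3, q4⟩ := mem_Vn.1 q1
      rw [mem_verts (A.pos n)] at q4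
      have q5 := h1 q (Uk_sub_cells hD q3) _ (fat_sub_cfat _ _ q4) _ g9
      have q6 := dist_triangle (pt (A.δ n) v) (pt (A.δ n) (vx (B.X k0 n (i + 1) ω).α))
        (gpt B.o k m)
      have q7 := dist_comm (pt (A.δ n) v) (pt (A.δ n) (vx (B.X k0 n (i + 1) ω).α))
      linarith
    refine ⟨m, hmZ, B.T k0 n j ω, hT, ?_⟩
    have g10 := h5 m hmZ
    change dist (pt (A.δ n) (vx ((X0 A n).cor ω (B.T k0 n j ω)))) _ ≤ _
    rw [← hα]
    linarith
  refine g4.trans ?_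
  rw [← PrP_half]
  refine (PrP_exists_le (Pb.const (by norm_num) (by norm_num)) _ _ _).trans ?_
  have g5 : ∀ m ∈ Z, PrP (fun _ => 1 / 2) (X0 A n).E (fun S => ∃ w ≤ (A.X n).toDEnv.len S,
        dist (pt (A.δ n) (vx ((A.X n).toDEnv.cor S w))) (gpt B.o k m) ≤ η m) ≤
        θ / (Z.card + 1) := by
    intro m hm
    rw [PrP_half, hE]
    exact g1 m hm
  refine (Finset.sum_le_card_nsmul _ _ _ g5).trans ?_
  rw [nsmul_eq_mul]
  have : (0 : ℝ) < Z.card + 1 := by positivity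
  rw [mul_div_assoc', div_le_iff₀ this]
  nlinarith

end

end Pool.Agent.Q1.M3
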