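import Mathlib
import Pool.Agent.Q1.M3.GoodP

set_option autoImplicit false
open Finset Filter Topology

/-! # M3: the law of the history of `j` steps converges -/

namespace Pool.Agent.Q1.M3

open Pool.Agent.H75.Perc Pool.Agent.H75.TwoArm Pool.Agent.H75.Four Pool.Agent.H69.Q1
open Pool.Agent.H99.NC
open Pool.Agent.H81.Q1 (pt DDomain Approx IsJordanDomain IsArcs)

/-! ### Abstract lemmas -/

/-- A sequence which is approximated by convergent sequences converges. -/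
lemma conv_of_approx {u : ℕ → ℝ} (h : ∀ ε > 0, ∃ w : ℕ → ℝ, (∃ l, Tendsto w atTop (𝓝 l)) ∧
    ∀ᶠ n in atTop, |u n - w n| ≤ ε) : ∃ l, Tendsto u atTop (𝓝 l) := by
  refine cauchySeq_tendsto_of_complete (Metric.cauchySeq_iff'.2 fun ε hε => ?_)
  obtain ⟨w, ⟨l, hw⟩, h1⟩ := h (ε / 5) (by positivity)
  have h2 := Metric.tendsto_nhds.1 hw (ε / 5) (by positivity)
  obtain ⟨N, hN⟩ := eventually_atTop.1 (h1.and h2)
  refine ⟨N, fun n hn => ?_⟩
  obtain ⟨g1, g2⟩ := hN n hn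
  obtain ⟨g3, g4⟩ := hN N le_rfl
  rw [Real.dist_eq] at g2 g4 ⊢
  rw [abs_lt] at g2 g4 ⊢
  rw [abs_le] at g1 g3
  constructor <;> linarith

/-- Finite set of lists. -/
noncomputable def hs {O : Type} (S : Finset O) : ℕ → Finset (List O)
  | 0 => {[]}
  | j + 1 => open Classical in ((hs S j) ×ˢ S).image (fun p => p.1 ++ [p.2])

lemma mem_hs_succ {O : Type} {S : Finset O} {j : ℕ} {l : List O} {o : O} (hl : l ∈ hs S j)
    (ho : o ∈ S) : l ++ [o] ∈ hs S (j + 1) := by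
  classical
  exact mem_image.2 ⟨(l, o), mem_product.2 ⟨hl, ho⟩, rfl⟩

/-- Decomposition of an expectation over a finite set of values. -/
lemma sum_fibre {O : Type} {E : Finset (ℤ × ℤ)} (S : Finset O) (f : Finset (ℤ × ℤ) → O)
    (hf : ∀ ω, ω ⊆ E → f ω ∈ S) (φ : O → ℝ) :
    EX E (fun ω => φ (f ω)) = ∑ o ∈ S, φ o * EX E (fun ω => ind (f ω = o)) := by
  classical
  have h1 : ∀ ω, ω ⊆ E → φ (f ω) = ∑ o ∈ S, φ o * ind (f ω = o) := by
    intro ω hω
    rw [sum_eq_single (f ω)]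
    · rw [ind_true rfl, mul_one]
    · intro o _ ho
      rw [ind_false (fun h => ho h.symm), mul_zero]
    · intro h; exact absurd (hf ω hω) h
  have h2 : EX E (fun ω => φ (f ω)) = EX E (fun ω => ∑ o ∈ S, φ o * ind (f ω = o)) :=
    Ex_congr h1
  rw [h2]
  unfold EX
  rw [Ex_sum]
  exact sum_congr rfl fun o _ => Ex_smul _ _ _ _

lemma EX_mono {E : Finset (ℤ × ℤ)} {f g : Finset (ℤ × ℤ) → ℝ} (h : ∀ ω, ω ⊆ E → f ω ≤ g ω) :
    EX E f ≤ EX E g := Ex_mono (Pb.const (by norm_num) (by norm_num)) h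

lemma EX_abs_le {E : Finset (ℤ × ℤ)} {f g : Finset (ℤ × ℤ) → ℝ}
    (h : ∀ ω, ω ⊆ E → |f ω| ≤ g ω) : |EX E f| ≤ EX E g := by
  rw [abs_le]
  constructor
  · have h1 : EX E (fun ω => (-1) * g ω) ≤ EX E f :=
      EX_mono fun ω hω => by have := (abs_le.1 (h ω hω)).1; linarith
    have h2 : EX E (fun ω => (-1) * g ω) = (-1) * EX E g := Ex_smul _ _ _ _
    linarith
  · exact EX_mono fun ω hω => (le_abs_self _).trans (h ω hω)

lemma EX_nonneg {E : Finset (ℤ × ℤ)} {f : Finset (ℤ × ℤ) → ℝ} (h : ∀ ω, ω ⊆ E → 0 ≤ f ω) :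
    0 ≤ EX E f := Ex_nonneg (Pb.const (by norm_num) (by norm_num)) h

lemma EX_add (E : Finset (ℤ × ℤ)) (f g : Finset (ℤ × ℤ) → ℝ) :
    EX E (fun ω => f ω + g ω) = EX E f + EX E g := Ex_add _ _ _ _

lemma EX_sub (E : Finset (ℤ × ℤ)) (f g : Finset (ℤ × ℤ) → ℝ) :
    EX E (fun ω => f ω - g ω) = EX E f - EX E g := Ex_sub _ _ _ _

lemma EX_smul (E : Finset (ℤ × ℤ)) (c : ℝ) (f : Finset (ℤ × ℤ) → ℝ) :
    EX E (fun ω => c * f ω) = c * EX E f := Ex_smul _ _ _ _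

lemma EX_const (E : Finset (ℤ × ℤ)) (c : ℝ) : EX E (fun _ => c) = c := Ex_const _ _ _

lemma Pr_eq_EX (E : Finset (ℤ × ℤ)) (P : Finset (ℤ × ℤ) → Prop) :
    Pr E P = EX E (fun ω => ind (P ω)) := by rw [← PrP_half]; rfl

/-! ### Observations at different levels -/

/-- Observations of unfinished steps. -/
abbrev Ob := Finset Cell × (ℤ × ℤ) × (ℤ × ℤ)

/-- Coarser box. -/
def coa (m : ℕ) (x : ℤ × ℤ) : ℤ × ℤ := (x.1 / 3 ^ m, x.2 / 3 ^ m)

lemma floor_coa {k k' : ℕ} (h : k ≤ k') (t : ℝ) :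
    ⌊t / mesh (k' + 1)⌋ / 3 ^ (k' - k) = ⌊t / mesh (k + 1)⌋ := by
  have hm := mesh_pos (k + 1)
  have hm' := mesh_pos (k' + 1)
  have h1 : mesh (k + 1) = 3 ^ (k' - k) * mesh (k' + 1) := by
    unfold mesh
    have h2 : k' + 1 = (k' - k) + (k + 1) := by omega
    have h3 : (3 : ℝ) ^ (k' - k) * (1 / 3) ^ (k' - k) = 1 := by rw [← mul_pow]; norm_num
    rw [h2, pow_add (1 / 3 : ℝ) (k' - k) (k + 1), ← mul_assoc, h3, one_mul]
  have key : ∀ z : ℤ, z ≤ ⌊t / mesh (k' + 1)⌋ / 3 ^ (k' - k) ↔ z ≤ ⌊t / mesh (k + 1)⌋ := by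
    intro z
    rw [Int.le_ediv_iff_mul_le (by positivity), Int.le_floor, Int.le_floor, le_div_iff₀ hm',
      le_div_iff₀ hm, h1]
    push_cast
    rw [mul_assoc]
  exact le_antisymm ((key _).1 le_rfl) ((key _).2 le_rfl)

lemma box_coa {k k' : ℕ} (h : k ≤ k') (δ : ℝ) (o : ℂ) (v : ℤ × ℤ) :
    coa (k' - k) (box δ o k' v) = box δ o k v := by
  unfold coa box
  rw [floor_coa h, floor_coa h]

/-- Reduction of an observation from level `k'` to level `k`. -/
noncomputable def red (k k' : ℕ) (v : Ob) : Ob :=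
  (v.1.filter (fun q => q.1 ≤ k), coa (k' - k) v.2.1, v.2.2)

section

variable {D : Set ℂ} {a b : ℂ} {A₁ A₂ : Set ℂ} {A : Approx D a b A₁ A₂} {r0 : ℝ} (B : Base A r0)
  {k0 n : ℕ} {ω : Finset (ℤ × ℤ)}

lemma Base.obs_red (hD : Bornology.IsBounded D) {k k' : ℕ} (h : k ≤ k') (X X' : DEnv) :
    B.obs k0 k n X X' = (B.obs k0 k' n X X').map (red k k') := by
  unfold Base.obs
  split_ifs with h1
  · rfl
  · rw [Option.map_some]
    unfold red
    simp only
    rw [Ule_filter hD h, box_coa h]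

lemma Base.H_red (hD : Bornology.IsBounded D) {k k' : ℕ} (h : k ≤ k') (j : ℕ) :
    B.H k0 k n j ω = (B.H k0 k' n j ω).map (Option.map (red k k')) :=
  Rules.hist_map _ _ _ _ (fun X X' => B.obs_red hD h X X') _ _ _

/-- Possible observations of unfinished steps. -/
noncomputable def obsSet (D : Set ℂ) (o : ℂ) (k0 k : ℕ) : Finset Ob :=
  (cellsLe D o k0 k).powerset ×ˢ (Bxs k (cells D o k0) ×ˢ dirs)

/-- Possible observations. -/
noncomputable def obsO (D : Set ℂ) (o : ℂ) (k0 k : ℕ) : Finset (Option Ob) :=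
  Finset.insertNone (obsSet D o k0 k)

lemma Base.obs_none {k : ℕ} {X : DEnv} (h : B.Fin n X) (η : Finset (ℤ × ℤ)) :
    B.obs k0 k n X ((B.rules k0 n).nenv X η) = none := by
  unfold Base.obs
  rw [B.nenv_fin h, if_pos h]

lemma Base.obs_mem (hD : Bornology.IsBounded D) {k : ℕ} (hk : k0 ≤ k) {X : DEnv}
    (h : ¬ B.Fin n X) (hne : X.α ≠ X.β) (hβ : vx X.β ∈ B.N n) (hα : vx X.α ∉ B.F k0 n X.E)
    {η : Finset (ℤ × ℤ)} (hη : η ⊆ X.E) :
    B.obs k0 k n X ((B.rules k0 n).nenv X η) ∈ obsO D B.o k0 k := by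
  unfold obsO
  rw [Finset.mem_insertNone]
  intro v hv
  unfold Base.obs at hv
  split_ifs at hv with h1
  · simp at hv
  · rw [Option.mem_def, Option.some_inj] at hv
    subst hv
    obtain ⟨m, -, v, hvF, -, -, -, q3, -, q5, -, q7, -, q8, -⟩ :=
      B.step_spec (k0 := k0) h hη hne hβ hα
    unfold obsSet
    rw [Finset.mem_product, Finset.mem_powerset, Finset.mem_product]
    refine ⟨Ule_sub_cellsLe hD, ?_, ?_⟩
    · simp only
      rw [q8, q5]
      unfold Base.Fin at h1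
      rw [q8] at h1
      have h2 : v ∈ Vn (A.δ n) B.o (Uk D (A.δ n) B.o B.qb k0 X.E) :=
        (Finset.mem_union.1 hvF).resolve_right fun h3 => h1 (star1_sub_star h3 q3)
      exact (mem_Vn_iff_box (A.pos n) (B.gen' n) (fun q hq => by
        rw [((mem_cells hD).1 hq).1]; exact hk)).1 (Vn_mono (Uk_sub_cells hD) h2)
    · simp only
      rw [q8]
      exact q7

/-- The hypotheses of `step_spec` at the states. -/
lemma Base.spec_state (hD : Bornology.IsBounded D) {k : ℕ} (hk : k0 ≤ k) (hR : B.Reg k0 k n)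
    (hω : ω ⊆ (X0 A n).E) (j : ℕ) (h : ¬ B.Fin n (B.X k0 n j ω)) :
    (B.X k0 n j ω).α ≠ (B.X k0 n j ω).β ∧ vx (B.X k0 n j ω).β ∈ B.N n ∧
      vx (B.X k0 n j ω).α ∉ B.F k0 n (B.X k0 n j ω).E := by
  obtain ⟨h1, -, h3⟩ := B.tip_spec hD hk hR hω j h
  refine ⟨h3, by rw [B.X_beta]; exact hR.beta, fun h5 => h1 ?_⟩
  rcases Finset.mem_union.1 h5 with h6 | h6
  · refine Finset.mem_union_left _ (Vn_mono ?_ h6)
    rw [Uk_eq_filter hD hk]
    exact Finset.filter_subset _ _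
  · exact Finset.mem_union_right _ h6

lemma Base.H_succ (k j : ℕ) :
    B.H k0 k n (j + 1) ω = B.H k0 k n j ω ++ [B.obs k0 k n (B.X k0 n j ω)
      ((B.rules k0 n).nenv (B.X k0 n j ω) ((B.rules k0 n).cf j (X0 A n) ω))] := by
  unfold Base.H Base.X
  rw [Rules.hist_last, Rules.st_last]

lemma Base.H_mem (hD : Bornology.IsBounded D) {k : ℕ} (hk : k0 ≤ k) (hR : B.Reg k0 k n)
    (hω : ω ⊆ (X0 A n).E) (j : ℕ) : B.H k0 k n j ω ∈ hs (obsO D B.o k0 k) j := by
  induction j with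
  | zero => exact Finset.mem_singleton.2 rfl
  | succ j ih =>
    rw [B.H_succ]
    refine mem_hs_succ ih ?_
    by_cases h : B.Fin n (B.X k0 n j ω)
    · rw [B.obs_none h]
      exact Finset.none_mem_insertNone
    · obtain ⟨h1, h2, h3⟩ := B.spec_state hD hk hR hω j h
      exact B.obs_mem hD hk h h1 h2 h3 ((B.rules k0 n).cf_sub hω j)

/-- The last observation tells whether the state is finished. -/
lemma Base.getLast (hD : Bornology.IsBounded D) {k : ℕ} (hk : k0 ≤ k) (hR : B.Reg k0 k n)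
    (hω : ω ⊆ (X0 A n).E) (j : ℕ) :
    (B.Fin n (B.X k0 n j ω) → (B.H k0 k n j ω).getLast? = some none) ∧
    (¬ B.Fin n (B.X k0 n j ω) → (j = 0 ∧ B.H k0 k n j ω = []) ∨
      ∃ x d, (B.H k0 k n j ω).getLast? =
        some (some (Ule D (A.δ n) B.o B.qb k0 k (B.X k0 n j ω).E, x, d))) := by
  cases j with
  | zero => exact ⟨fun h => absurd h hR.nfin, fun _ => Or.inl ⟨rfl, rfl⟩⟩
  | succ j =>
    have hst : B.X k0 n (j + 1) ω =
        (B.rules k0 n).nenv (B.X k0 n j ω) ((B.rules k0 n).cf j (X0 A n) ω) :=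
      Rules.st_last _ _ _ _
    rw [B.H_succ, List.getLast?_append]
    simp only [List.getLast?_singleton, Option.some_or]
    constructor
    · intro h
      unfold Base.obs
      rw [← hst, if_pos h]
    · intro h
      right
      unfold Base.obs
      rw [← hst, if_neg h]
      exact ⟨_, _, rfl⟩

/-- The visible family given by a history. -/
noncomputable def Base.famH (k0 k n : ℕ) (h : List (Option Ob)) : Finset Cell :=
  match h.getLast? with
  | none => Ule D (A.δ n) B.o B.qb k0 k (X0 A n).E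
  | some none => ∅
  | some (some v) => v.1.filter (fun q => q.1 ≤ k)

lemma Base.famH_eq (hD : Bornology.IsBounded D) {k k' : ℕ} (hk : k0 ≤ k) (hkk : k ≤ k')
    (hR : B.Reg k0 k' n) (hω : ω ⊆ (X0 A n).E) (j : ℕ) (h : ¬ B.Fin n (B.X k0 n j ω)) :
    B.famH k0 k n (B.H k0 k' n j ω) = Ule D (A.δ n) B.o B.qb k0 k (B.X k0 n j ω).E := by
  rcases (B.getLast hD (hk.trans hkk) hR hω j).2 h with ⟨h1, h2⟩ | ⟨x, d, h1⟩
  · subst h1
    unfold Base.famH
    rw [h2]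
    rfl
  · unfold Base.famH
    rw [h1]
    exact Ule_filter hD hkk

/-! ### Convergence of the law of a step -/

lemma lawF_tendsto {o : ℂ} {qb : Cell} {k0 k : ℕ} {NB : Finset (ℤ × ℤ)}
    {fam : ℕ → Finset Cell} {fam0 : Finset Cell} (hf : ∀ᶠ n in atTop, fam n = fam0)
    {g : ℕ → Finset Cell → ℤ × ℤ → ℤ × ℤ → ℝ}
    (hg : ∀ C x d, ∃ l, Tendsto (fun n => g n C x d) atTop (𝓝 l)) (v : Ob) :
    ∃ l, Tendsto (fun n => lawF o qb k0 k (fam n) NB (g n) v) atTop (𝓝 l) := by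
  classical
  have h1 : ∃ l, Tendsto (fun n => lawF o qb k0 k fam0 NB (g n) v) atTop (𝓝 l) := by
    unfold lawF
    by_cases hv : v.1 ⊆ fam0 ∧ Lev o qb v.1 ∧ v.2.1 ∈ Bxs k (fam0.filter (fun q => q.1 = k0)) ∧
      v.2.1 ∉ NB ∧ v.2.2 ∈ dirs
    · simp only [if_pos hv]
      have h2 : ∀ T : Finset Cell, ∃ l, Tendsto (fun n => (-1 : ℝ) ^ T.card *
          (if v.2.1 ∈ Bxs k (v.1 ∪ T) then 0
          else g n (v.1 ∪ T ∪ fam0.filter (fun q => q.1 = k0)) v.2.1 v.2.2)) atTop (𝓝 l) := by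
        intro T
        by_cases hT : v.2.1 ∈ Bxs k (v.1 ∪ T)
        · simp only [if_pos hT]
          exact ⟨_, tendsto_const_nhds⟩
        · simp only [if_neg hT]
          obtain ⟨l, hl⟩ := hg (v.1 ∪ T ∪ fam0.filter (fun q => q.1 = k0)) v.2.1 v.2.2
          exact ⟨_, hl.const_mul _⟩
      choose l hl using h2
      exact ⟨_, tendsto_finsetSum _ fun T _ => hl T⟩
    · simp only [if_neg hv]
      exact ⟨_, tendsto_const_nhds⟩
  obtain ⟨l, hl⟩ := h1
  refine ⟨l, hl.congr' ?_⟩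
  filter_upwards [hf] with n hn
  rw [hn]

end

end Pool.Agent.Q1.M3
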