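import Mathlib
import Pool.Agent.Q1.M3.Induct

set_option autoImplicit false
open Finset Filter Topology

/-! # M3: number of steps, times, entries of the history -/

namespace Pool.Agent.Q1.M3

open Pool.Agent.H75.Perc Pool.Agent.H75.TwoArm Pool.Agent.H75.Four Pool.Agent.H69.Q1
open Pool.Agent.H99.NC
open Pool.Agent.H81.Q1 (pt DDomain Approx IsJordanDomain IsArcs)

lemma Rules.hist_get (R : Rules) {O : Type} (obs : DEnv → DEnv → O) {i j : ℕ} (h : i < j)
    (X : DEnv) (ω : Finset (ℤ × ℤ)) :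
    (R.hist obs j X ω)[i]? = some (obs (R.st i X ω) (R.st (i + 1) X ω)) := by
  induction j generalizing i X ω with
  | zero => omega
  | succ j ih =>
    rw [R.hist_succ]
    cases i with
    | zero => rfl
    | succ i =>
      rw [List.getElem?_cons_succ, ih (by omega)]
      rfl

section

variable {D : Set ℂ} {a b : ℂ} {A₁ A₂ : Set ℂ} {A : Approx D a b A₁ A₂} {r0 : ℝ} (B : Base A r0)
  {k0 n : ℕ} {ω : Finset (ℤ × ℤ)}

lemma Base.X_succ (j : ℕ) : B.X k0 n (j + 1) ω =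
    (B.rules k0 n).nenv (B.X k0 n j ω) ((B.rules k0 n).cf j (X0 A n) ω) :=
  Rules.st_last _ _ _ _

/-- Finished states stay finished. -/
lemma Base.Fin_succ {j : ℕ} (h : B.Fin n (B.X k0 n j ω)) : B.Fin n (B.X k0 n (j + 1) ω) := by
  rw [B.X_succ, B.nenv_fin h]; exact h

lemma Base.Fin_mono {i j : ℕ} (hij : i ≤ j) (h : B.Fin n (B.X k0 n i ω)) :
    B.Fin n (B.X k0 n j ω) := by
  induction j, hij using Nat.le_induction with
  | base => exact h
  | succ j _ ih => exact B.Fin_succ ih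

/-- Every step takes some time. -/
lemma Base.T_lt (hD : Bornology.IsBounded D) (hR : B.Reg k0 k0 n) (hω : ω ⊆ (X0 A n).E) {j : ℕ}
    (h : ¬ B.Fin n (B.X k0 n j ω)) : B.T k0 n j ω < B.T k0 n (j + 1) ω := by
  obtain ⟨h1, h2, h3⟩ := B.spec_state hD le_rfl hR hω j h
  have hcf := (B.rules k0 n).cf_sub hω j
  obtain ⟨m, -, v, -, -, -, -, -, -, -, -, -, h4, -, -⟩ :=
    B.step_spec (k0 := k0) (X := B.X k0 n j ω) h hcf h1 h2 h3
  unfold Base.T
  rw [Rules.tm_last]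
  have h5 : (B.rules k0 n).cf j (X0 A n) ω ∩ (B.X k0 n j ω).E =
      (B.rules k0 n).cf j (X0 A n) ω := inter_eq_left.2 hcf
  change _ < _ + (B.X k0 n j ω).tau ((B.rules k0 n).Q (B.X k0 n j ω))
    ((B.rules k0 n).cf j (X0 A n) ω ∩ (B.X k0 n j ω).E)
  rw [h5, h4]
  omega

lemma Base.T_le_len (hω : ω ⊆ (X0 A n).E) (j : ℕ) : B.T k0 n j ω ≤ (X0 A n).len ω :=
  Rules.tm_le_len _ hω j

lemma Base.X_α (hω : ω ⊆ (X0 A n).E) (j : ℕ) :
    (B.X k0 n j ω).α = (X0 A n).cor ω (B.T k0 n j ω) := Rules.st_α _ hω j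

/-- The number of visible coarse cells decreases. -/
lemma Base.card_lt (hD : Bornology.IsBounded D) (hR : B.Reg k0 k0 n) (hω : ω ⊆ (X0 A n).E)
    (j : ℕ) (h : ¬ B.Fin n (B.X k0 n (j + 1) ω)) :
    (Uk D (A.δ n) B.o B.qb k0 (B.X k0 n (j + 1) ω).E).card <
      (Uk D (A.δ n) B.o B.qb k0 (B.X k0 n j ω).E).card := by
  obtain ⟨-, h2, -⟩ := B.tip_spec hD le_rfl hR hω (j + 1) h
  have hlab := h2 (by omega)
  have h0 : ¬ B.Fin n (B.X k0 n j ω) := fun g => h (B.Fin_succ g)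
  obtain ⟨g1, g2, g3⟩ := B.spec_state hD le_rfl hR hω j h0
  have hcf := (B.rules k0 n).cf_sub hω j
  obtain ⟨m, -, v, hv, -, -, -, q3, -, -, -, -, -, q8, -⟩ :=
    B.step_spec (k0 := k0) (X := B.X k0 n j ω) h0 hcf g1 g2 g3
  rw [← B.X_succ] at q8
  have hsub : Uk D (A.δ n) B.o B.qb k0 (B.X k0 n (j + 1) ω).E ⊆
      Uk D (A.δ n) B.o B.qb k0 (B.X k0 n j ω).E := by
    intro q hq
    rw [mem_Uk hD] at hq ⊢
    refine hq.mono fun x hx => hx.mono ?_
    rw [B.X_succ, Rules.nenv_E]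
    exact Finset.sdiff_subset
  refine Finset.card_lt_card ⟨hsub, fun hsub' => ?_⟩
  have hvU : v ∈ Vn (A.δ n) B.o (Uk D (A.δ n) B.o B.qb k0 (B.X k0 n j ω).E) := by
    refine (Finset.mem_union.1 hv).resolve_right fun h3 => h ?_
    unfold Base.Fin
    rw [q8]
    exact star1_sub_star h3 q3
  obtain ⟨q, hq, hvq⟩ := mem_Vn.1 hvU
  have hq' := hsub' hq
  rw [mem_Uk hD] at hq'
  refine hlab (hq'.head.2.2 (star1_sub_star hvq ?_))
  rw [q8]
  exact q3

/-- **The chain is finished after at most `card (cells k0) + 1` steps.** -/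
theorem Base.fin_all (hD : Bornology.IsBounded D) (hR : B.Reg k0 k0 n) (hω : ω ⊆ (X0 A n).E) :
    B.Fin n (B.X k0 n ((cells D B.o k0).card + 1) ω) := by
  by_contra h
  have key : ∀ j, ¬ B.Fin n (B.X k0 n j ω) →
      (Uk D (A.δ n) B.o B.qb k0 (B.X k0 n j ω).E).card + j ≤ (cells D B.o k0).card := by
    intro j
    induction j with
    | zero => intro _; exact Finset.card_le_card (Uk_sub_cells hD)
    | succ j ih =>
      intro h1
      have h2 := B.card_lt hD hR hω j h1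
      have h3 := ih fun g => h1 (B.Fin_succ g)
      omega
  have := key _ h
  omega

/-- Entries of the history. -/
lemma Base.H_get (k : ℕ) {i j : ℕ} (h : i < j) :
    (B.H k0 k n j ω)[i]? = some (B.obs k0 k n (B.X k0 n i ω) (B.X k0 n (i + 1) ω)) :=
  Rules.hist_get _ _ h _ _

end

end Pool.Agent.Q1.M3
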