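import Mathlib
import Pool.Agent.Q1.M3.Count
import Pool.Agent.H81.Q1.Tools

set_option autoImplicit false
open Finset Filter Topology
open scoped unitInterval

/-! # M3: the exploration path is close to a polygonal line which is a function of the history -/

namespace Pool.Agent.Q1.M3

open Pool.Agent.H75.Perc Pool.Agent.H75.TwoArm Pool.Agent.H75.Four Pool.Agent.H69.Q1
open Pool.Agent.H75.TwoArm.StrandAux
open Pool.Agent.H99.NC
open Pool.Agent.H81.Q1 (pt DDomain Approx IsJordanDomain IsArcs polyline Curve PCurve)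

/-! ### Geometry -/

lemma lpt_dist {δ : ℝ} (hδ : 0 < δ) {e v : ℤ × ℤ} (he : e ∈ star1 v) :
    dist (lpt δ e) (pt δ v) ≤ δ := by
  obtain ⟨x, y⟩ := v
  rw [Complex.dist_eq_re_im]
  unfold star1 at he
  simp only [Finset.mem_insert, Finset.mem_singleton] at he
  unfold pt lpt
  have h1 : (δ / 2) ^ 2 ≤ δ ^ 2 := by nlinarith
  have h2 : Real.sqrt ((δ / 2) ^ 2) ≤ δ := by
    rw [Real.sqrt_sq (by positivity)]; linarith
  rcases he with rfl | rfl | rfl | rfl
  · simp only
    push_cast
    rw [show (δ * (2 * x + 1) / 2 - δ * x) ^ 2 + (δ * (2 * y) / 2 - δ * y) ^ 2 =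
      (δ / 2) ^ 2 by ring]
    exact h2
  · simp only
    push_cast
    rw [show (δ * (2 * x - 1) / 2 - δ * x) ^ 2 + (δ * (2 * y) / 2 - δ * y) ^ 2 =
      (δ / 2) ^ 2 by ring]
    exact h2
  · simp only
    push_cast
    rw [show (δ * (2 * x) / 2 - δ * x) ^ 2 + (δ * (2 * y + 1) / 2 - δ * y) ^ 2 =
      (δ / 2) ^ 2 by ring]
    exact h2
  · simp only
    push_cast
    rw [show (δ * (2 * x) / 2 - δ * x) ^ 2 + (δ * (2 * y - 1) / 2 - δ * y) ^ 2 =
      (δ / 2) ^ 2 by ring]
    exact h2

lemma lvert_eq (δ : ℝ) (L : Finset (ℤ × ℤ)) (c : ℤ × ℤ) (i : ℕ) :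
    lvert δ L c i = lpt δ (lab ((pv L)^[i] c)) := by
  cases i with
  | zero => rfl
  | succ i =>
    rw [Function.iterate_succ_apply', lab_pv]
    rfl

lemma box_dist {δ : ℝ} (o : ℂ) (k : ℕ) (v : ℤ × ℤ) :
    dist (pt δ v) (gpt o k (box δ o k v)) ≤ 2 * mesh (k + 1) := by
  have hm := mesh_pos (k + 1)
  have key : ∀ t : ℝ, |t - ⌊t / mesh (k + 1)⌋ * mesh (k + 1)| ≤ mesh (k + 1) := by
    intro t
    have h1 := Int.floor_le (t / mesh (k + 1))
    have h2 := Int.lt_floor_add_one (t / mesh (k + 1))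
    rw [le_div_iff₀ hm] at h1
    rw [div_lt_iff₀ hm] at h2
    rw [abs_le]
    constructor <;> nlinarith
  rw [Complex.dist_eq]
  refine (Complex.norm_le_abs_re_add_abs_im _).trans ?_
  have e1 := key ((pt δ v).re - o.re)
  have e2 := key ((pt δ v).im - o.im)
  have e3 : (pt δ v - gpt o k (box δ o k v)).re = (pt δ v).re - o.re -
      ⌊((pt δ v).re - o.re) / mesh (k + 1)⌋ * mesh (k + 1) := by
    rw [Complex.sub_re]
    unfold gpt box
    simp only
    ring
  have e4 : (pt δ v - gpt o k (box δ o k v)).im = (pt δ v).im - o.im -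
      ⌊((pt δ v).im - o.im) / mesh (k + 1)⌋ * mesh (k + 1) := by
    rw [Complex.sub_im]
    unfold gpt box
    simp only
    ring
  rw [e3, e4]
  linarith

/-- Polygonal lines with close vertices. -/
lemma polyline_close {p q : ℕ → ℂ} {m : ℕ} (hm : 0 < m) {η : ℝ}
    (h : ∀ j ≤ m, dist (p j) (q j) ≤ η) :
    dist (Curve.mk (polyline p m)) (Curve.mk (polyline q m)) ≤ η := by
  have hη : 0 ≤ η := dist_nonneg.trans (h 0 (Nat.zero_le _))
  rw [Pool.Agent.H81.Q1.Curve.dist_mk]
  refine (Pool.Agent.H81.Q1.cdist_le _ _).trans ((ContinuousMap.dist_le hη).2 fun x => ?_)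
  have hm' : (0 : ℝ) < m := by exact_mod_cast hm
  rcases lt_or_eq_of_le x.2.2 with hx | hx
  · obtain ⟨k, hk, h3, h4⟩ := Pool.Agent.H57.Q1.exists_piece hm x.2.1 hx
    rw [Pool.Agent.H57.Q1.polyline_piece hk h3 h4.le, Pool.Agent.H57.Q1.polyline_piece hk h3 h4.le]
    have h5 := h k hk.le
    have h6 := h (k + 1) hk
    set s : ℝ := (m : ℝ) * x - k with hs
    have hs0 : 0 ≤ s := by rw [hs]; linarith
    have hs1 : s ≤ 1 := by rw [hs]; linarith
    rw [dist_eq_norm] at h5 h6 ⊢
    have e1 : p k + (s : ℂ) * (p (k + 1) - p k) - (q k + (s : ℂ) * (q (k + 1) - q k)) =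
        ((1 - s : ℝ) : ℂ) * (p k - q k) + (s : ℂ) * (p (k + 1) - q (k + 1)) := by
      push_cast; ring
    rw [e1]
    refine (norm_add_le _ _).trans ?_
    rw [norm_mul, norm_mul, Complex.norm_real, Complex.norm_real, Real.norm_of_nonneg hs0,
      Real.norm_of_nonneg (by linarith)]
    nlinarith
  · have h5 : ((m - 1 : ℕ) : ℝ) = m - 1 := by
      rw [Nat.cast_sub (by omega)]; simp
    have e : ∀ r : ℕ → ℂ, (polyline r m).toC x = r m := by
      intro r
      rw [Pool.Agent.H57.Q1.polyline_piece (i := m - 1) (by omega) (by rw [hx, h5]; linarith)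
        (by rw [hx, h5]; linarith), show m - 1 + 1 = m by omega, hx, h5]
      push_cast
      ring
    rw [e, e]
    exact h m le_rfl

/-! ### The code -/

/-- Number of unfinished observations at the beginning of a history. -/
noncomputable def hlen (h : List (Option Ob)) : ℕ := sInf {i | ∀ v, h[i]? ≠ some (some v)}

/-- Vertices of the polygonal line of a history. -/
noncomputable def cpt (a b o : ℂ) (k : ℕ) (h : List (Option Ob)) : ℕ → ℂ
  | 0 => a
  | j + 1 => match h[j]? with
    | some (some v) => gpt o k v.2.1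
    | _ => b

/-- The polygonal line of a history. -/
noncomputable def code (a b o : ℂ) (k : ℕ) (h : List (Option Ob)) : Curve :=
  Curve.mk (polyline (cpt a b o k h) (hlen h + 2))

section

variable {D : Set ℂ} {a b : ℂ} {A₁ A₂ : Set ℂ} {A : Approx D a b A₁ A₂} {r0 : ℝ} (B : Base A r0)
  {k0 n : ℕ} {ω : Finset (ℤ × ℤ)}

/-- **The exploration path is close to the code of its history.** -/
theorem Base.dist_code (hD : Bornology.IsBounded D) (hR : B.Reg k0 k0 n)
    (hω : ω ⊆ (X0 A n).E) {k : ℕ} {ε : ℝ} (hε : 0 < ε) (hδ : A.δ n ≤ ε)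
    (hm : mesh (k + 1) ≤ ε) (hα : dist (pt (A.δ n) (A.X n).α.1) a ≤ ε)
    (h1 : ∀ j t, B.T k0 n j ω ≤ t → t ≤ B.T k0 n (j + 1) ω →
      dist (pt (A.δ n) (vx ((X0 A n).cor ω t)))
        (pt (A.δ n) (vx ((X0 A n).cor ω (B.T k0 n j ω)))) ≤ ε)
    (h2 : ∀ j t, B.Fin n (B.X k0 n j ω) → B.T k0 n j ω ≤ t → t ≤ (X0 A n).len ω →
      dist (pt (A.δ n) (vx ((X0 A n).cor ω t))) b ≤ ε) :
    dist ((A.X n).gamma (A.δ n) ω)
      (code a b B.o k (B.H k0 k n ((cells D B.o k0).card + 1) ω)) ≤ 40 * ε := by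
  classical
  have hδ0 := A.pos n
  set J := (cells D B.o k0).card + 1 with hJ
  have hfin : ∃ j, B.Fin n (B.X k0 n j ω) := ⟨J, B.fin_all hD hR hω⟩
  set J' := Nat.find hfin with hJ'
  have hJ1 : B.Fin n (B.X k0 n J' ω) := Nat.find_spec hfin
  have hJ2 : ∀ j < J', ¬ B.Fin n (B.X k0 n j ω) := fun j hj => Nat.find_min hfin hj
  have hJ3 : J' ≤ J := Nat.find_min' hfin (B.fin_all hD hR hω)
  have hJ4 : 0 < J' := by
    rcases Nat.eq_zero_or_pos J' with h3 | h3
    · rw [h3] at hJ1
      exact absurd hJ1 hR.nfin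
    · exact h3
  set H := B.H k0 k n J ω with hH
  -- entries of the history
  have hget : ∀ i < J, (i + 1 < J' ∧ ∃ v : Ob, H[i]? = some (some v) ∧
      v.2.1 = box (A.δ n) B.o k (tipv (B.F k0 n (B.X k0 n i ω).E)
        (lab (B.X k0 n (i + 1) ω).α))) ∨ (J' ≤ i + 1 ∧ H[i]? = some none) := by
    intro i hi
    rw [hH, B.H_get k hi]
    unfold Base.obs
    by_cases h3 : i + 1 < J'
    · left
      refine ⟨h3, _, by rw [if_neg (hJ2 _ h3)], rfl⟩
    · right
      push Not at h3
      exact ⟨h3, by rw [if_pos (B.Fin_mono h3 hJ1)]⟩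
  have hlenH : hlen H + 1 = J' := by
    unfold hlen
    have e1 : sInf {i | ∀ v, H[i]? ≠ some (some v)} = J' - 1 := by
      apply le_antisymm
      · refine Nat.sInf_le fun v hv => ?_
        rcases hget (J' - 1) (by omega) with ⟨h3, -⟩ | ⟨-, h3⟩
        · omega
        · rw [h3] at hv; simp at hv
      · refine le_csInf ⟨J' - 1, fun v hv => ?_⟩ fun i hi => ?_
        · rcases hget (J' - 1) (by omega) with ⟨h3, -⟩ | ⟨-, h3⟩
          · omega
          · rw [h3] at hv; simp at hv
        · by_contra h3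
          push Not at h3
          rcases hget i (by omega) with ⟨-, v, h4, -⟩ | ⟨h4, -⟩
          · exact hi v h4
          · omega
    rw [e1]
    omega
  -- the path
  set L := ω ∪ (X0 A n).W with hL
  set p := lvert (A.δ n) L (X0 A n).α with hp
  set N := (X0 A n).len ω + 1 with hN
  have hγ : (A.X n).gamma (A.δ n) ω = Curve.mk (polyline p N) := by
    unfold DDomain.gamma expl
    rw [← Pool.Agent.H81.Q1.toDEnv_W]
    rfl
  have hpc : ∀ i, p i = lpt (A.δ n) (lab ((X0 A n).cor ω i)) := fun i => by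
    rw [hp, lvert_eq]; rfl
  have hpd : ∀ i, dist (p i) (pt (A.δ n) (vx ((X0 A n).cor ω i))) ≤ ε := fun i => by
    rw [hpc]
    exact (lpt_dist hδ0 (lab_star1 _)).trans hδ
  have hpN : dist (p N) (pt (A.δ n) (vx ((X0 A n).cor ω ((X0 A n).len ω)))) ≤ ε := by
    rw [hpc, hN, DEnv.cor_succ, lab_pv]
    exact (lpt_dist hδ0 (plab_star1 _)).trans hδ
  -- the times
  let idx : ℕ → ℕ := fun j => if j ≤ J' then B.T k0 n j ω else N
  have hidx : ∀ j ≤ J', idx j = B.T k0 n j ω := fun j hj => if_pos hj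
  have hidxN : idx (J' + 1) = N := if_neg (by omega)
  have hT0 : B.T k0 n 0 ω = 0 := rfl
  have hTlt : ∀ j < J', B.T k0 n j ω < B.T k0 n (j + 1) ω := fun j hj =>
    B.T_lt hD hR hω (hJ2 j hj)
  have hTl : ∀ j, B.T k0 n j ω ≤ (X0 A n).len ω := fun j => B.T_le_len hω j
  -- positions of the last piece
  have hb1 : ∀ t, B.T k0 n J' ω ≤ t → t ≤ N → dist (p t) b ≤ 2 * ε := by
    intro t ht ht'
    rcases ht'.lt_or_eq with h3 | h3
    · have h4 := h2 J' t hJ1 ht (by omega)
      have h5 := hpd t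
      have h6 := dist_triangle (p t) (pt (A.δ n) (vx ((X0 A n).cor ω t))) b
      linarith
    · rw [h3]
      have h4 := h2 J' ((X0 A n).len ω) hJ1 (hTl _) le_rfl
      have h6 := dist_triangle (p N) (pt (A.δ n) (vx ((X0 A n).cor ω ((X0 A n).len ω)))) b
      linarith
  have key1 : dist (Curve.mk (polyline p N)) (Curve.mk (polyline (fun j => p (idx j)) (J' + 1))) ≤
      8 * (4 * ε) := by
    refine Pool.Agent.H81.Q1.dist_coarse (p := p) (n := N) (J := J' + 1) (i := idx) ?_ hidxN
      (by omega) ?_ ?_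
    · rw [hidx 0 (Nat.zero_le _), hT0]
    · intro j hj
      rcases lt_or_ge j J' with h3 | h3
      · rw [hidx j h3.le, hidx (j + 1) h3]
        exact hTlt j h3
      · have h4 : j = J' := by omega
        rw [h4, hidxN, hidx J' le_rfl]
        have := hTl J'
        omega
    · intro j hj t ht1 ht2
      rcases lt_or_ge j J' with h3 | h3
      · rw [hidx j h3.le] at ht1 ⊢
        rw [hidx (j + 1) h3] at ht2
        have g1 := h1 j t ht1 ht2
        have g2 := hpd t
        have g3 := hpd (B.T k0 n j ω)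
        have g4 := dist_triangle (p t) (pt (A.δ n) (vx ((X0 A n).cor ω t)))
          (p (B.T k0 n j ω))
        have g5 := dist_triangle (pt (A.δ n) (vx ((X0 A n).cor ω t)))
          (pt (A.δ n) (vx ((X0 A n).cor ω (B.T k0 n j ω)))) (p (B.T k0 n j ω))
        have g6 := dist_comm (p (B.T k0 n j ω))
          (pt (A.δ n) (vx ((X0 A n).cor ω (B.T k0 n j ω))))
        linarith
      · have h4 : j = J' := by omega
        rw [h4, hidx J' le_rfl] at ht1
        rw [h4, hidxN] at ht2
        rw [h4, hidx J' le_rfl]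
        have g1 := hb1 t ht1 ht2
        have g2 := hb1 (B.T k0 n J' ω) le_rfl (by have := hTl J'; omega)
        have g3 := dist_triangle_right (p t) (p (B.T k0 n J' ω)) b
        linarith
  have key2 : dist (Curve.mk (polyline (fun j => p (idx j)) (J' + 1)))
      (code a b B.o k H) ≤ 4 * ε := by
    unfold code
    rw [show hlen H + 2 = J' + 1 by omega]
    refine polyline_close (by omega) fun j hj => ?_
    rcases Nat.eq_zero_or_pos j with h3 | h3
    · subst h3
      rw [hidx 0 (Nat.zero_le _), hT0]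
      have g1 := hpd 0
      have g2 : vx ((X0 A n).cor ω 0) = (A.X n).α.1 := by
        change vx (A.X n).toDEnv.α = _
        rw [Pool.Agent.H81.Q1.toDEnv_α, vx_cor]
      rw [g2] at g1
      have g3 := dist_triangle (p 0) (pt (A.δ n) (A.X n).α.1) a
      change dist (p 0) a ≤ _
      linarith
    · obtain ⟨i, rfl⟩ : ∃ i, j = i + 1 := ⟨j - 1, by omega⟩
      rcases lt_or_ge (i + 1) J' with h4 | h4
      · rcases hget i (by omega) with ⟨-, v, g1, g2⟩ | ⟨g1, -⟩
        · rw [hidx (i + 1) h4.le]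
          have g3 : cpt a b B.o k H (i + 1) = gpt B.o k v.2.1 := by
            simp only [cpt, g1]
          rw [g3, g2]
          obtain ⟨u, -, g4, g5⟩ := B.tip_pos hD hR hω i (hJ2 _ h4)
          rw [g4]
          have g6 := box_dist (δ := A.δ n) B.o k u
          have g7 := hpd (B.T k0 n (i + 1) ω)
          rw [← B.X_α hω] at g7
          have g8 := dist_triangle (p (B.T k0 n (i + 1) ω))
            (pt (A.δ n) (vx (B.X k0 n (i + 1) ω).α)) (gpt B.o k (box (A.δ n) B.o k u))
          have g9 := dist_triangle (pt (A.δ n) (vx (B.X k0 n (i + 1) ω).α)) (pt (A.δ n) u)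
            (gpt B.o k (box (A.δ n) B.o k u))
          linarith
        · omega
      · have g3 : cpt a b B.o k H (i + 1) = b := by
          rcases lt_or_ge i J with h5 | h5
          · rcases hget i h5 with ⟨g1, -⟩ | ⟨-, g1⟩
            · omega
            · simp only [cpt, g1]
          · have g1 : H[i]? = none := by
              rw [List.getElem?_eq_none_iff, hH]
              unfold Base.H
              rw [Rules.hist_length]
              exact h5
            simp only [cpt, g1]
        rw [g3]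
        have h5 : i + 1 = J' ∨ i + 1 = J' + 1 := by omega
        rcases h5 with h5 | h5
        · rw [h5, hidx J' le_rfl]
          have := hb1 (B.T k0 n J' ω) le_rfl (by have := hTl J'; omega)
          linarith
        · rw [h5, hidxN]
          have := hb1 N (by have := hTl J'; omega) le_rfl
          linarith
  rw [hγ]
  have := dist_triangle (Curve.mk (polyline p N))
    (Curve.mk (polyline (fun j => p (idx j)) (J' + 1))) (code a b B.o k H)
  linarith

end

end Pool.Agent.Q1.M3
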