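import Mathlib
import Pool.Agent.Q1.M3.GoodP

set_option autoImplicit false
open Finset Filter Topology

/-! # M3: cells in `D` are free in the initial environment for large `n` -/

namespace Pool.Agent.Q1.M3

open Pool.Agent.H75.Perc Pool.Agent.H75.TwoArm Pool.Agent.H75.Four Pool.Agent.H69.Q1
open Pool.Agent.H81.Q1 (pt DDomain Approx IsJordanDomain IsArcs Z2 edges)

section

variable {D : Set ℂ} {a b : ℂ} {A₁ A₂ : Set ℂ}

/-- The labels at the vertices of a compact part of `D` are free for large `n`. -/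
theorem free_ev_compact (hDo : IsOpen D) (hA : A₁ ⊆ frontier D)
    (hne : A₁.Nonempty) (A : Approx D a b A₁ A₂)
    {K0 : Set ℂ} (hK : IsCompact K0) (hKD : K0 ⊆ D) : ∀ᶠ n in atTop, ∀ v : ℤ × ℤ,
      pt (A.δ n) v ∈ K0 → star1 v ⊆ (X0 A n).E := by
  obtain ⟨s, hs, h1⟩ := hK.exists_thickening_subset_open hDo hKD
  have h2 : IsCompact (Metric.cthickening (s / 2) K0) := hK.cthickening
  have h3 : Metric.cthickening (s / 2) K0 ⊆ D :=
    (Metric.cthickening_subset_thickening' hs (by linarith) K0).trans h1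
  have e1 : ∀ᶠ n in atTop, A.δ n < s / 2 := A.lim.eventually_lt_const (by positivity)
  filter_upwards [A.fill _ h2 h3, A.wired (s / 4) (by positivity), e1] with n g1 g2 g3 v hv e he
  -- the other end
  obtain ⟨w, hw1, hw2, hw3⟩ : ∃ w : ℤ × ℤ, e ∈ star1 w ∧ e = v + w ∧ v ≠ w := by
    have ho := odd_star1 he
    rcases (mem_star1_iff ho).1 he with h4 | h4
    · refine ⟨ev e, (mem_star1_iff ho).2 (Or.inr rfl), ?_, ?_⟩
      · rw [h4]
        obtain ⟨x, y⟩ := e
        simp only [eu, ev, Prod.mk_add_mk, Prod.mk.injEq] at ho ⊢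
        omega
      · rw [h4]
        obtain ⟨x, y⟩ := e
        simp only [eu, ev, ne_eq, Prod.mk.injEq] at ho ⊢
        omega
    · refine ⟨eu e, (mem_star1_iff ho).2 (Or.inl rfl), ?_, ?_⟩
      · rw [h4]
        obtain ⟨x, y⟩ := e
        simp only [eu, ev, Prod.mk_add_mk, Prod.mk.injEq] at ho ⊢
        omega
      · rw [h4]
        obtain ⟨x, y⟩ := e
        simp only [eu, ev, ne_eq, Prod.mk.injEq] at ho ⊢
        omega
  have hd := dist_of_star1 (A.pos n) hw1 he
  have hvK : pt (A.δ n) v ∈ Metric.cthickening (s / 2) K0 :=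
    Metric.mem_cthickening_of_dist_le _ _ _ _ hv (by rw [dist_self]; positivity)
  have hwK : pt (A.δ n) w ∈ Metric.cthickening (s / 2) K0 :=
    Metric.mem_cthickening_of_dist_le _ _ _ _ hv (hd.trans g3.le)
  obtain ⟨-, h5, -⟩ := star1_pair he hw1 hw3
  have hadj : s(v, w) ∈ Z2.edgeSet := by
    rw [SimpleGraph.mem_edgeSet]
    change |v.1 - w.1| + |v.2 - w.2| = 1
    obtain ⟨x, y⟩ := v
    obtain ⟨x', y'⟩ := w
    unfold dirs at h5
    simp only [Finset.mem_insert, Finset.mem_singleton, Prod.mk_sub_mk, Prod.mk.injEq] at h5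
    simp only
    rcases h5 with ⟨h6, h7⟩ | ⟨h6, h7⟩ | ⟨h6, h7⟩ | ⟨h6, h7⟩
    · rw [show x - x' = -1 by omega, show y - y' = 0 by omega]; rfl
    · rw [show x - x' = 0 by omega, show y - y' = -1 by omega]; rfl
    · rw [show x - x' = 1 by omega, show y - y' = 0 by omega]; rfl
    · rw [show x - x' = 0 by omega, show y - y' = 1 by omega]; rfl
  have hE : s(v, w) ∈ (A.X n).E := by
    refine g1.2 ⟨hadj, fun u hu => ?_⟩
    rcases Sym2.mem_iff.1 hu with rfl | rfl
    · exact hvK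
    · exact hwK
  change e ∈ (A.X n).toDEnv.E
  rw [Pool.Agent.H81.Q1.toDEnv_E, mem_EL]
  refine ⟨s(v, w), ⟨hE, ?_⟩, by rw [lb_mk]; exact hw2.symm⟩
  rintro ⟨-, c, hc, -, h6⟩
  have h7 : c.1 ∈ s(v, w) := by
    rw [h6]
    exact Sym2.mem_mk_left _ _
  have h8 : pt (A.δ n) c.1 ∈ Metric.cthickening (s / 2) K0 := by
    rcases Sym2.mem_iff.1 h7 with h9 | h9
    · rw [h9]; exact hvK
    · rw [h9]; exact hwK
  have h9 := g2 c hc
  obtain ⟨y, hy, h11⟩ := (Metric.infDist_lt_iff hne).1 h9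
  have h12 : y ∈ Metric.thickening s K0 := by
    have h13 := Metric.cthickening_subset_thickening' (δ₁ := s / 2) (δ₂ := 3 * s / 4)
      (by positivity) (by linarith) K0 h8
    obtain ⟨z, hz, h14⟩ := Metric.mem_thickening_iff.1 h13
    refine Metric.mem_thickening_iff.2 ⟨z, hz, ?_⟩
    have h15 := dist_triangle_left y z (pt (A.δ n) c.1)
    linarith
  have h13 : y ∈ D := h1 h12
  have h14 := hA hy
  rw [hDo.frontier_eq] at h14
  exact h14.2 h13

end

end Pool.Agent.Q1.M3
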