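import Mathlib
import Pool.Agent.Q1.M3.Induct
import Pool.Agent.Q1.M3.FreeEv

set_option autoImplicit false
open Finset Filter Topology

/-! # M3: the laws of the histories converge -/

namespace Pool.Agent.Q1.M3

open Pool.Agent.H75.Perc Pool.Agent.H75.TwoArm Pool.Agent.H75.Four Pool.Agent.H69.Q1
open Pool.Agent.H99.NC
open Pool.Agent.H81.Q1 (pt DDomain Approx IsJordanDomain IsArcs)

lemma ConnC.mono' {o : ℂ} {S S' : Cell → Prop} {b : Cell} {k : ℕ} {q : Cell}
    (h : ∀ x, x.1 = k → S x → S' x) (hc : ConnC o S b k q) : ConnC o S' b k q := by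
  obtain ⟨q', h1, h2, h3, h4⟩ := hc
  exact ⟨q', Relation.ReflTransGen.mono
    (fun x y hxy => ⟨hxy.1, hxy.2.1, h x hxy.2.1 hxy.2.2⟩) _ _ h1, h2, h q' h2 h3, h4⟩

section

variable {D : Set ℂ} {a b : ℂ} {A₁ A₂ : Set ℂ} {A : Approx D a b A₁ A₂} {r0 : ℝ} (B : Base A r0)
  {k0 : ℕ}

/-- The visible family of the initial environment is constant for large `n`. -/
lemma Base.Ule_const (hDo : IsOpen D) (hD : Bornology.IsBounded D) (hA : A₁ ⊆ frontier D)
    (hne : A₁.Nonempty) (k0 k : ℕ) :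
    ∃ F0, ∀ᶠ n in atTop, Ule D (A.δ n) B.o B.qb k0 k (X0 A n).E = F0 := by
  classical
  refine ⟨(cellsLe D B.o k0 k).filter
    (fun q => ConnC B.o (fun x => cfat B.o x ⊆ D) B.qb q.1 q), ?_⟩
  have h1 : IsCompact (⋃ q ∈ cellsLe D B.o k0 k, cfat B.o q) :=
    (Finset.finite_toSet _).isCompact_biUnion fun q _ => isCompact_cfat B.o q
  have h2 : (⋃ q ∈ cellsLe D B.o k0 k, cfat B.o q) ⊆ D :=
    Set.iUnion₂_subset fun q hq => ((mem_cellsLe hD).1 hq).2.2
  filter_upwards [free_ev_compact hDo hA hne A h1 h2] with n h3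
  have h4 : ∀ q ∈ cellsLe D B.o k0 k, Free D (A.δ n) B.o (X0 A n).E q := by
    intro q hq
    refine ⟨((mem_cellsLe hD).1 hq).2.2, fun e he => ?_⟩
    obtain ⟨v, hv, h5⟩ := mem_star.1 he
    rw [mem_verts (A.pos n)] at hv
    exact h3 v (Set.mem_iUnion₂.2 ⟨q, hq, fat_sub_cfat _ _ hv⟩) h5
  ext q
  rw [Finset.mem_filter, mem_Ule hD, mem_cellsLe hD]
  constructor
  · rintro ⟨g1, g2, g3⟩
    exact ⟨⟨g1, g2, g3.head.2.1⟩, g3.mono fun x hx => hx.1⟩
  · rintro ⟨⟨g1, g2, -⟩, g4⟩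
    refine ⟨g1, g2, g4.mono' fun x hx hS => h4 x ?_⟩
    rw [mem_cellsLe hD, hx]
    exact ⟨g1, g2, hS⟩

lemma append_one_iff {O : Type} (l l' : List O) (x x' : O) :
    l ++ [x] = l' ++ [x'] ↔ l = l' ∧ x = x' := by
  constructor
  · intro h
    obtain ⟨h1, h2⟩ := List.append_inj' h rfl
    exact ⟨h1, by simpa using h2⟩
  · rintro ⟨h1, h2⟩
    rw [h1, h2]

/-- Truncation to `[0,1]`. -/
noncomputable def clamp (x : ℝ) : ℝ := max 0 (min 1 x)

lemma clamp_mem (x : ℝ) : 0 ≤ clamp x ∧ clamp x ≤ 1 :=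
  ⟨le_max_left _ _, max_le zero_le_one (min_le_left _ _)⟩

lemma abs_sub_clamp_le {p x : ℝ} (h0 : 0 ≤ p) (h1 : p ≤ 1) : |p - clamp x| ≤ |p - x| := by
  unfold clamp
  rcases le_total x 0 with h2 | h2
  · rw [min_eq_right (h2.trans zero_le_one), max_eq_left h2, sub_zero, abs_of_nonneg h0,
      abs_of_nonneg (by linarith)]
    linarith
  · rcases le_total x 1 with h3 | h3
    · rw [min_eq_right h3, max_eq_right h2]
    · rw [min_eq_left h3, max_eq_right zero_le_one, abs_of_nonpos (by linarith),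
        abs_of_nonpos (by linarith)]
      linarith

lemma abs_sub_clamp_le_one {p x : ℝ} (h0 : 0 ≤ p) (h1 : p ≤ 1) : |p - clamp x| ≤ 1 := by
  obtain ⟨h2, h3⟩ := clamp_mem x
  rw [abs_le]; constructor <;> linarith

lemma tendsto_clamp {u : ℕ → ℝ} (h : ∃ l, Tendsto u atTop (𝓝 l)) :
    ∃ l, Tendsto (fun n => clamp (u n)) atTop (𝓝 l) := by
  obtain ⟨l, hl⟩ := h
  have hc : Continuous clamp := by unfold clamp; fun_prop
  exact ⟨_, (hc.tendsto l).comp hl⟩

/-- The law of a step given a history which ends with the observation `some v`. -/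
lemma Base.step_conv (hDo : IsOpen D) (hD : Bornology.IsBounded D) (hA : IsArcs D a b A₁ A₂)
    (hAf : A₁ ⊆ frontier D) (ha : a ∉ D) (hb : b ∉ D) (hr : r0 < dist a b)
    {k1 M0 : ℕ} (hk01 : k0 ≤ k1)
    (hCMP : ∀ j k : ℕ, k1 ≤ k → ∀ ε > 0, ∀ ρ > 0, ∃ k', k ≤ k' ∧
      ∃ Γ : ℕ → List (Option Ob) → Finset Cell → ℤ × ℤ → ℤ × ℤ → ℝ,
      (∀ h C x d, ∃ l, Tendsto (fun n => Γ n h C x d) atTop (𝓝 l)) ∧
      ∀ᶠ n in atTop, ∀ ω, ω ⊆ (X0 A n).E → ¬ B.Fin n (B.X k0 n j ω) →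
        (j ≠ 0 → B.Good k n ρ (B.X k0 n j ω)) →
        ∀ C x d, Uk D (A.δ n) B.o B.qb k0 (B.X k0 n j ω).E ⊆ C →
          C ⊆ Ule D (A.δ n) B.o B.qb k0 k (B.X k0 n j ω).E → Lev B.o B.qb C →
          x ∈ Bxs k (Uk D (A.δ n) B.o B.qb k0 (B.X k0 n j ω).E) →
          (∀ v ∈ B.N n, box (A.δ n) B.o k v ≠ x) → d ∈ dirs →
          |Pr (B.X k0 n j ω).E (ExB (A.δ n) B.o k (B.X k0 n j ω)
              (Vn (A.δ n) B.o C ∪ B.N n) x d) - Γ n (B.H k0 k' n j ω) C x d| ≤ ε)
    (hM : ∀ k, k1 ≤ k → ∀ q ∈ B.Q M0, q.1 ≤ k) (hBar : ∀ᶠ n in atTop, B.Bar k0 M0 n)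
    (j : ℕ)
    (ih : ∀ k, k1 ≤ k → ∀ h, ∃ l, Tendsto (fun n => EX (X0 A n).E (fun ω =>
      ind (B.H k0 k n j ω = h))) atTop (𝓝 l))
    (k : ℕ) (hk : k1 ≤ k) (h : List (Option Ob)) (v : Ob) :
    ∃ l, Tendsto (fun n => EX (X0 A n).E (fun ω =>
      ind (B.H k0 k n (j + 1) ω = h ++ [some v]))) atTop (𝓝 l) := by
  classical
  refine conv_of_approx fun ε hε => ?_
  set c : ℝ := 2 ^ (cellsLe D B.o k0 k).card with hc
  have hc0 : 0 < c := by positivity
  obtain ⟨ρ, hρ, h1⟩ := B.good_prob hDo hD hA ha hb hr k0 k (θ := ε / (2 * c)) (by positivity)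
  obtain ⟨k', hkk, Γ, hΓ, h2⟩ := hCMP j k hk (ε / (2 * c)) (by positivity) ρ hρ
  have hk0 : k0 ≤ k := hk01.trans hk
  have hk0' : k0 ≤ k' := hk0.trans hkk
  -- the approximation
  let Γ' : ℕ → List (Option Ob) → Finset Cell → ℤ × ℤ → ℤ × ℤ → ℝ :=
    fun n h C x d => clamp (Γ n h C x d)
  let NB := Bxs k (B.Q M0)
  let φ : ℕ → List (Option Ob) → ℝ := fun n h' =>
    if h'.getLast? = some none then 0 else
      lawF B.o B.qb k0 k (B.famH k0 k n h') NB (Γ' n h') v
  let w : ℕ → ℝ := fun n => ∑ h' ∈ hs (obsO D B.o k0 k') j,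
    (ind (h'.map (Option.map (red k k')) = h) * φ n h') *
      EX (X0 A n).E (fun ω => ind (B.H k0 k' n j ω = h'))
  obtain ⟨F0, hF0⟩ := B.Ule_const hDo hD hAf hA.conn₁.nonempty k0 k
  have hφ : ∀ h', ∃ l, Tendsto (fun n => φ n h') atTop (𝓝 l) := by
    intro h'
    by_cases h3 : h'.getLast? = some none
    · refine ⟨0, ?_⟩
      have : (fun n => φ n h') = fun _ => 0 := by
        funext n; simp only [φ, if_pos h3]
      rw [this]; exact tendsto_const_nhds
    · have e1 : (fun n => φ n h') = fun n =>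
          lawF B.o B.qb k0 k (B.famH k0 k n h') NB (Γ' n h') v := by
        funext n; simp only [φ, if_neg h3]
      rw [e1]
      rcases h4 : h'.getLast? with _ | u
      · refine lawF_tendsto (fam0 := F0) ?_ (fun C x d => tendsto_clamp (hΓ h' C x d)) v
        filter_upwards [hF0] with n hn
        unfold Base.famH
        rw [h4]; exact hn
      · rcases u with _ | u
        · exact absurd h4 h3
        · refine lawF_tendsto (fam0 := u.1.filter (fun q => q.1 ≤ k)) ?_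
            (fun C x d => tendsto_clamp (hΓ h' C x d)) v
          refine Eventually.of_forall fun n => ?_
          unfold Base.famH
          rw [h4]
  refine ⟨w, ?_, ?_⟩
  · -- convergence of `w`
    have h3 : ∀ h' : List (Option Ob), ∃ l, Tendsto (fun n =>
        (ind (h'.map (Option.map (red k k')) = h) * φ n h') *
        EX (X0 A n).E (fun ω => ind (B.H k0 k' n j ω = h'))) atTop (𝓝 l) := by
      intro h'
      obtain ⟨l1, hl1⟩ := hφ h'
      obtain ⟨l2, hl2⟩ := ih k' (hk.trans hkk) h'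
      exact ⟨_, (hl1.const_mul _).mul hl2⟩
    choose l hl using h3
    exact ⟨_, tendsto_finsetSum _ fun h' _ => hl h'⟩
  · -- comparison
    filter_upwards [h1, h2, B.reg_eventually hD ha hr k0 k, B.reg_eventually hD ha hr k0 k',
      hBar] with n g1 g2 hR hR' hB
    have hw : w n = EX (X0 A n).E (fun ω => ind (B.H k0 k n j ω = h) *
        φ n (B.H k0 k' n j ω)) := by
      refine (sum_fibre (hs (obsO D B.o k0 k') j) (fun ω => B.H k0 k' n j ω)
        (fun ω hω => B.H_mem hD hk0' hR' hω j)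
        (fun h' => ind (h'.map (Option.map (red k k')) = h) * φ n h')).symm.trans ?_
      refine Ex_congr fun ω _ => ?_
      rw [B.H_red hD hkk]
    have hu : EX (X0 A n).E (fun ω => ind (B.H k0 k n (j + 1) ω = h ++ [some v])) =
        EX (X0 A n).E (fun ω => ind (B.H k0 k n j ω = h) *
          EX (B.X k0 n j ω).E (fun η => ind (B.obs k0 k n (B.X k0 n j ω)
            ((B.rules k0 n).nenv (B.X k0 n j ω) η) = some v))) := by
      have e1 := (B.rules k0 n).markov (B.obs k0 k n) j (X0 A n)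
        (fun h' Y η => ind (h' = h) * ind (B.obs k0 k n Y ((B.rules k0 n).nenv Y η) = some v))
      have e2 : EX (X0 A n).E (fun ω => ind (B.H k0 k n (j + 1) ω = h ++ [some v])) =
          EX (X0 A n).E (fun ω => ind (B.H k0 k n j ω = h) *
            ind (B.obs k0 k n (B.X k0 n j ω) ((B.rules k0 n).nenv (B.X k0 n j ω)
              ((B.rules k0 n).cf j (X0 A n) ω)) = some v)) := by
        refine Ex_congr fun ω _ => ?_
        rw [B.H_succ, ← ind_and]
        exact ind_congr (append_one_iff _ _ _ _)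
      rw [e2]
      refine e1.trans ?_
      refine Ex_congr fun ω _ => ?_
      exact Ex_smul _ _ _ _
    rw [hu, hw, ← EX_sub]
    have e3 : EX (X0 A n).E (fun ω => ε / 2 + c * ind (j ≠ 0 ∧ ¬ B.Fin n (B.X k0 n j ω) ∧
        ¬ B.Good k n ρ (B.X k0 n j ω))) ≤ ε := by
      rw [EX_add, EX_const, EX_smul, ← Pr_eq_EX]
      have g3 := g1 j
      have g4 : c * (ε / (2 * c)) = ε / 2 := by field_simp
      nlinarith
    refine (EX_abs_le fun ω hω => ?_).trans e3
    rw [← mul_sub, abs_mul, abs_of_nonneg (ind_nonneg _)]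
    have e4 : |EX (B.X k0 n j ω).E (fun η => ind (B.obs k0 k n (B.X k0 n j ω)
            ((B.rules k0 n).nenv (B.X k0 n j ω) η) = some v)) - φ n (B.H k0 k' n j ω)| ≤
        ε / 2 + c * ind (j ≠ 0 ∧ ¬ B.Fin n (B.X k0 n j ω) ∧
        ¬ B.Good k n ρ (B.X k0 n j ω)) := by
      by_cases hF : B.Fin n (B.X k0 n j ω)
      · have q1 : EX (B.X k0 n j ω).E (fun η => ind (B.obs k0 k n (B.X k0 n j ω)
            ((B.rules k0 n).nenv (B.X k0 n j ω) η) = some v)) = 0 := by
          rw [← EX_const (B.X k0 n j ω).E 0]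
          refine Ex_congr fun η _ => ?_
          rw [B.obs_none hF]
          exact ind_false (by simp)
        have q2 : φ n (B.H k0 k' n j ω) = 0 := by
          simp only [φ]
          rw [if_pos ((B.getLast hD hk0' hR' hω j).1 hF)]
        rw [q1, q2, sub_zero, abs_zero]
        have := ind_nonneg (j ≠ 0 ∧ ¬ B.Fin n (B.X k0 n j ω) ∧ ¬ B.Good k n ρ (B.X k0 n j ω))
        positivity
      · obtain ⟨q1, q2⟩ := B.law_state hD hk0 hR (hM k hk) hB hω hF v
        have q3 : φ n (B.H k0 k' n j ω) = lawF B.o B.qb k0 k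
            (Ule D (A.δ n) B.o B.qb k0 k (B.X k0 n j ω).E) NB (Γ' n (B.H k0 k' n j ω)) v := by
          simp only [φ]
          rw [B.famH_eq hD hk0 hkk hR' hω j hF, if_neg]
          rcases (B.getLast hD hk0' hR' hω j).2 hF with ⟨q4, q5⟩ | ⟨x, d, q4⟩
          · rw [q5]; simp
          · rw [q4]; simp
        rw [q1, q3]
        have hcard : (2 : ℝ) ^ (Ule D (A.δ n) B.o B.qb k0 k (B.X k0 n j ω).E).card ≤ c :=
          pow_le_pow_right₀ (by norm_num) (card_le_card (Ule_sub_cellsLe hD))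
        have hU : (Ule D (A.δ n) B.o B.qb k0 k (B.X k0 n j ω).E).filter (fun q => q.1 = k0) =
            Uk D (A.δ n) B.o B.qb k0 (B.X k0 n j ω).E := (Uk_eq_filter hD hk0).symm
        have hLU : Lev B.o B.qb ((Ule D (A.δ n) B.o B.qb k0 k (B.X k0 n j ω).E).filter
            (fun q => q.1 = k0)) := by rw [hU]; exact Lev.Uk hD
        have hp : ∀ C x d, 0 ≤ Pr (B.X k0 n j ω).E (ExB (A.δ n) B.o k (B.X k0 n j ω)
            (Vn (A.δ n) B.o C ∪ B.N n) x d) ∧ Pr (B.X k0 n j ω).E (ExB (A.δ n) B.o k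
            (B.X k0 n j ω) (Vn (A.δ n) B.o C ∪ B.N n) x d) ≤ 1 := fun C x d =>
          ⟨Pr_nonneg _ _, Pr_le_one _ _⟩
        by_cases hG : j ≠ 0 → B.Good k n ρ (B.X k0 n j ω)
        · have q4 := lawF_sub (o := B.o) (qb := B.qb) (k0 := k0) (k := k) (v := v)
            (fam := Ule D (A.δ n) B.o B.qb k0 k (B.X k0 n j ω).E) (NB := NB)
            (g := fun C x d => Pr (B.X k0 n j ω).E (ExB (A.δ n) B.o k (B.X k0 n j ω)
              (Vn (A.δ n) B.o C ∪ B.N n) x d)) (g' := Γ' n (B.H k0 k' n j ω))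
            (ε := ε / (2 * c)) (by positivity) hLU ?_
          · have q5 := ind_nonneg (j ≠ 0 ∧ ¬ B.Fin n (B.X k0 n j ω) ∧
              ¬ B.Good k n ρ (B.X k0 n j ω))
            have q6 : c * (ε / (2 * c)) = ε / 2 := by field_simp
            have q7 : 0 < ε / (2 * c) := by positivity
            nlinarith
          · intro C hC1 hC2 hC3 hx hxN hd
            rw [hU] at hC1 hx
            refine (abs_sub_clamp_le (hp C _ _).1 (hp C _ _).2).trans ?_
            exact g2 ω hω hF hG C _ _ hC1 hC2 hC3 hx (q2 hx hxN) hd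
        · push Not at hG
          have q4 := lawF_sub (o := B.o) (qb := B.qb) (k0 := k0) (k := k) (v := v)
            (fam := Ule D (A.δ n) B.o B.qb k0 k (B.X k0 n j ω).E) (NB := NB)
            (g := fun C x d => Pr (B.X k0 n j ω).E (ExB (A.δ n) B.o k (B.X k0 n j ω)
              (Vn (A.δ n) B.o C ∪ B.N n) x d)) (g' := Γ' n (B.H k0 k' n j ω))
            (ε := 1) (by positivity) hLU
            (fun C _ _ _ _ _ _ => abs_sub_clamp_le_one (hp C _ _).1 (hp C _ _).2)
          rw [ind_true ⟨hG.1, hF, hG.2⟩]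
          linarith
    have e5 := ind_le_one (B.H k0 k n j ω = h)
    have e6 := ind_nonneg (B.H k0 k n j ω = h)
    have e7 := abs_nonneg (EX (B.X k0 n j ω).E (fun η => ind (B.obs k0 k n (B.X k0 n j ω)
            ((B.rules k0 n).nenv (B.X k0 n j ω) η) = some v)) - φ n (B.H k0 k' n j ω))
    nlinarith

end

end Pool.Agent.Q1.M3
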