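import Mathlib
import Pool.Agent.Q1.M3.HistConv

set_option autoImplicit false
open Finset Filter Topology

/-! # M3: the laws of the histories converge, all steps -/

namespace Pool.Agent.Q1.M3

open Pool.Agent.H75.Perc Pool.Agent.H75.TwoArm Pool.Agent.H75.Four Pool.Agent.H69.Q1
open Pool.Agent.H99.NC
open Pool.Agent.H81.Q1 (pt DDomain Approx IsJordanDomain IsArcs)

section

variable {D : Set ℂ} {a b : ℂ} {A₁ A₂ : Set ℂ} {A : Approx D a b A₁ A₂} {r0 : ℝ} (B : Base A r0)
  {k0 : ℕ}

/-- **The laws of the histories converge.** -/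
theorem Base.hist_conv (hDo : IsOpen D) (hD : Bornology.IsBounded D) (hA : IsArcs D a b A₁ A₂)
    (hAf : A₁ ⊆ frontier D) (ha : a ∉ D) (hb : b ∉ D) (hr : r0 < dist a b)
    (hCMP : StCMP B k0) :
    ∃ k1, k0 ≤ k1 ∧ ∀ j k : ℕ, k1 ≤ k → ∀ h, ∃ l, Tendsto (fun n => EX (X0 A n).E (fun ω =>
      ind (B.H k0 k n j ω = h))) atTop (𝓝 l) := by
  classical
  obtain ⟨k2, hk2, h1⟩ := hCMP
  obtain ⟨M0, hBar⟩ := B.bar_eventually hD hb k0
  obtain ⟨k3, hk3⟩ : ∃ k3 : ℕ, ∀ q ∈ B.Q M0, q.1 ≤ k3 :=
    ⟨(B.Q M0).sup (fun q => q.1), fun q hq => Finset.le_sup (f := fun q : Cell => q.1) hq⟩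
  refine ⟨max k2 k3, hk2.trans (le_max_left _ _), fun j => ?_⟩
  induction j with
  | zero =>
    intro k _ h
    exact ⟨ind (([] : List (Option Ob)) = h), by
      have : (fun n => EX (X0 A n).E (fun ω => ind (B.H k0 k n 0 ω = h))) =
          fun _ => ind (([] : List (Option Ob)) = h) := by
        funext n
        exact EX_const (X0 A n).E (ind (([] : List (Option Ob)) = h))
      rw [this]
      exact tendsto_const_nhds⟩
  | succ j ih =>
    intro k hk h
    have hk0 : k0 ≤ k := hk2.trans ((le_max_left _ _).trans hk)
    have hsome : ∀ h' v, ∃ l, Tendsto (fun n => EX (X0 A n).E (fun ω =>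
        ind (B.H k0 k n (j + 1) ω = h' ++ [some v]))) atTop (𝓝 l) := fun h' v =>
      B.step_conv hDo hD hA hAf ha hb hr (hk2.trans (le_max_left _ _))
        (fun j k hk => h1 j k ((le_max_left _ _).trans hk))
        (fun k hk q hq => (hk3 q hq).trans ((le_max_right _ _).trans hk)) hBar j ih k hk h' v
    rcases List.eq_nil_or_concat h with rfl | ⟨h', o, rfl⟩
    · refine ⟨0, ?_⟩
      have : (fun n => EX (X0 A n).E (fun ω => ind (B.H k0 k n (j + 1) ω = []))) =
          fun _ => 0 := by
        funext n
        rw [← EX_const (X0 A n).E 0]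
        refine Ex_congr fun ω _ => ?_
        rw [B.H_succ]
        exact ind_false (by simp)
      rw [this]
      exact tendsto_const_nhds
    · rcases o with _ | v
      · choose l hl using hsome
        obtain ⟨l0, hl0⟩ := ih k hk h'
        have e1 := hl0.sub (tendsto_finsetSum (obsSet D B.o k0 k) fun v _ => hl h' v)
        refine ⟨_, e1.congr' ?_⟩
        filter_upwards [B.reg_eventually hD ha hr k0 k] with n hR
        have e2 : ∀ ω, ω ⊆ (X0 A n).E → ind (B.H k0 k n j ω = h') =
            ind (B.H k0 k n (j + 1) ω = h' ++ [none]) +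
            ∑ v ∈ obsSet D B.o k0 k, ind (B.H k0 k n (j + 1) ω = h' ++ [some v]) := by
          intro ω hω
          have hmem : B.obs k0 k n (B.X k0 n j ω) ((B.rules k0 n).nenv (B.X k0 n j ω)
              ((B.rules k0 n).cf j (X0 A n) ω)) ∈ obsO D B.o k0 k := by
            by_cases hF : B.Fin n (B.X k0 n j ω)
            · rw [B.obs_none hF]
              exact Finset.none_mem_insertNone
            · obtain ⟨g1, g2, g3⟩ := B.spec_state hD hk0 hR hω j hF
              exact B.obs_mem hD hk0 hF g1 g2 g3 ((B.rules k0 n).cf_sub hω j)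
          simp only [B.H_succ, append_one_iff]
          by_cases hh : B.H k0 k n j ω = h'
          · rw [ind_true hh]
            rcases hob : B.obs k0 k n (B.X k0 n j ω) ((B.rules k0 n).nenv (B.X k0 n j ω)
              ((B.rules k0 n).cf j (X0 A n) ω)) with _ | u
            · rw [ind_true ⟨hh, rfl⟩, Finset.sum_eq_zero]
              · ring
              · intro v _
                exact ind_false (by simp)
            · rw [hob] at hmem
              have hu : u ∈ obsSet D B.o k0 k := by
                unfold obsO at hmem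
                rw [Finset.mem_insertNone] at hmem
                exact hmem u rfl
              rw [ind_false (by simp), Finset.sum_eq_single_of_mem u hu]
              · rw [ind_true ⟨hh, rfl⟩]; ring
              · intro v _ hv
                refine ind_false fun h5 => hv ?_
                exact (Option.some_inj.1 h5.2).symm
          · rw [ind_false hh, ind_false (fun h5 => hh h5.1), Finset.sum_eq_zero]
            · ring
            · intro v _
              exact ind_false (fun h5 => hh h5.1)
        have e3 : EX (X0 A n).E (fun ω => ind (B.H k0 k n j ω = h')) =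
            EX (X0 A n).E (fun ω => ind (B.H k0 k n (j + 1) ω = h' ++ [none])) +
            ∑ v ∈ obsSet D B.o k0 k,
              EX (X0 A n).E (fun ω => ind (B.H k0 k n (j + 1) ω = h' ++ [some v])) := by
          have e4 : EX (X0 A n).E (fun ω => ind (B.H k0 k n j ω = h')) =
              EX (X0 A n).E (fun ω => ind (B.H k0 k n (j + 1) ω = h' ++ [none]) +
              ∑ v ∈ obsSet D B.o k0 k, ind (B.H k0 k n (j + 1) ω = h' ++ [some v])) :=
            Ex_congr e2
          rw [e4, EX_add]
          congr 1
          exact Ex_sum _ _ _ _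
        rw [e3]
        simp only [List.concat_eq_append]
        ring
      · simpa only [List.concat_eq_append] using hsome h' v

end

end Pool.Agent.Q1.M3
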