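import Mathlib
import Pool.Agent.Q1.M3.HistConv2
import Pool.Agent.Q1.M3.Conc
import Pool.Agent.H57.Q1.M2
import Pool.Agent.H81.Q1.Reduction2

set_option autoImplicit false
open Finset Filter Topology MeasureTheory

/-! # M3: existence of the scaling limit from the interface statements -/

namespace Pool.Agent.Q1.M3

open Pool.Agent.H75.Perc Pool.Agent.H75.TwoArm Pool.Agent.H75.Four Pool.Agent.H69.Q1
open Pool.Agent.H99.NC
open Pool.Agent.H81.Q1 (pt DDomain Approx IsJordanDomain IsArcs polyline Curve PCurve)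

section

variable {D : Set ℂ} {a b : ℂ} {A₁ A₂ : Set ℂ} {A : Approx D a b A₁ A₂}

/-- A base of radius `r0` is a base of every larger radius. -/
def Base.incr {r0 r1 : ℝ} (B : Base A r0) (h : r0 ≤ r1) : Base A r1 where
  o := B.o
  gen := B.gen
  qb := B.qb
  Q := B.Q
  qb_mem := B.qb_mem
  mono := B.mono
  connQ := B.connQ
  subQ := fun M q hq => (B.subQ M q hq).trans
    (Set.inter_subset_inter_right _ (Metric.ball_subset_ball h))
  r := B.r
  rlim := B.rlim
  rpos := B.rpos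
  N := B.N
  hN := B.hN
  sub := B.sub.mono fun n hn v hv => Metric.ball_subset_ball h (hn v hv)
  conn := B.conn
  beta := B.beta

lemma exists_mesh_le {ε : ℝ} (hε : 0 < ε) (k1 : ℕ) : ∃ k, k1 ≤ k ∧ mesh (k + 1) ≤ ε := by
  obtain ⟨m, hm⟩ := exists_pow_lt_of_lt_one hε (show (1 / 3 : ℝ) < 1 by norm_num)
  refine ⟨max k1 m, le_max_left _ _, ?_⟩
  unfold mesh
  refine le_trans ?_ hm.le
  exact pow_le_pow_of_le_one (by norm_num) (by norm_num) ((le_max_right _ _).trans (Nat.le_succ _))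

/-- **Convergence of the integrals of Lipschitz functions.** -/
theorem conv (hDo : IsOpen D) (hD : Bornology.IsBounded D) (hA : IsArcs D a b A₁ A₂) (hab : a ≠ b)
    (hNB : StNB A) (hCMP : ∀ (r0 : ℝ), r0 < dist a b → ∀ (B : Base A r0) (k0 : ℕ),
      B.qb.1 ≤ k0 → StCMP B k0)
    (hS : StSmall A) (f : Curve → ℝ) (hf : ∃ K, LipschitzWith K f)
    (hf1 : ∀ γ, 0 ≤ f γ ∧ f γ ≤ 1) :
    ∃ l, Tendsto (fun n => ∫ γ, f γ ∂(A.law n : Measure Curve)) atTop (𝓝 l) := by
  classical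
  obtain ⟨K, hK⟩ := hf
  have hAf : A₁ ⊆ frontier D := fun z hz => hA.union ▸ Or.inl hz
  have hfr : ∀ z, z ∈ frontier D → z ∉ D := fun z hz hzD => by
    have : z ∈ D ∩ frontier D := ⟨hzD, hz⟩
    rw [hDo.inter_frontier_eq] at this
    exact this
  have ha : a ∉ D := hfr a (hAf (by
    have : a ∈ A₁ ∩ A₂ := by rw [hA.inter]; exact Or.inl rfl
    exact this.1))
  have hb : b ∉ D := hfr b (hAf (by
    have : b ∈ A₁ ∩ A₂ := by rw [hA.inter]; exact Or.inr rfl
    exact this.1))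
  have hd : 0 < dist a b := dist_pos.2 hab
  refine conv_of_approx fun η hη => ?_
  have hK0 : (0 : ℝ) ≤ K := K.2
  set ε : ℝ := η / (40 * K + 1) with hεd
  have hε : 0 < ε := by rw [hεd]; positivity
  have hε1 : K * (40 * ε) + ε ≤ η := by
    rw [hεd]
    have : (40 * (K : ℝ) + 1) ≠ 0 := by positivity
    rw [show (K : ℝ) * (40 * (η / (40 * K + 1))) + η / (40 * K + 1) = η by field_simp]
  obtain ⟨r0, hr0, hB⟩ := hS ε hε
  have hmin : 0 < min r0 (dist a b / 2) := lt_min hr0 (by linarith)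
  obtain ⟨B⟩ := hNB _ hmin
  have hr : min r0 (dist a b / 2) < dist a b := lt_of_le_of_lt (min_le_right _ _) (by linarith)
  obtain ⟨k00, hk00⟩ := hB (B.incr (min_le_left _ _))
  set k0 := max k00 B.qb.1 with hk0
  have hbad := hk00 k0 (le_max_left _ _)
  obtain ⟨k1, hk1, hconv⟩ := B.hist_conv hDo hD hA hAf ha hb hr
    (hCMP _ hr B k0 (le_max_right _ _))
  obtain ⟨k, hk, hmk⟩ := exists_mesh_le hε k1
  set J := (cells D B.o k0).card + 1 with hJ
  refine ⟨fun n => ∑ h ∈ hs (obsO D B.o k0 k) J, f (code a b B.o k h) *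
    EX (X0 A n).E (fun ω => ind (B.H k0 k n J ω = h)), ?_, ?_⟩
  · choose l hl using hconv J k hk
    exact ⟨_, tendsto_finsetSum _ fun h _ => (hl h).const_mul _⟩
  · have e1 : ∀ᶠ n in atTop, A.δ n < ε := A.lim.eventually_lt_const hε
    have e2 := (Metric.tendsto_nhds.1 A.limα) ε hε
    filter_upwards [hbad, e1, e2, B.reg_eventually hD ha hr k0 k,
      B.reg_eventually hD ha hr k0 k0] with n h1 h2 h3 h4 h5
    have hu : ∫ γ, f γ ∂(A.law n : Measure Curve) =
        EX (X0 A n).E (fun ω => f ((A.X n).gamma (A.δ n) ω)) := by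
      have g1 : (X0 A n).E = EL (A.X n) := Pool.Agent.H81.Q1.toDEnv_E _
      rw [g1]
      exact Pool.Agent.H81.Q1.integral_law (A.X n) (A.δ n) hK.continuous
    have hw : ∑ h ∈ hs (obsO D B.o k0 k) J, f (code a b B.o k h) *
        EX (X0 A n).E (fun ω => ind (B.H k0 k n J ω = h)) =
        EX (X0 A n).E (fun ω => f (code a b B.o k (B.H k0 k n J ω))) :=
      (sum_fibre (hs (obsO D B.o k0 k) J) (fun ω => B.H k0 k n J ω)
        (fun ω hω => B.H_mem hD (hk1.trans hk) h4 hω J) (fun h => f (code a b B.o k h))).symm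
    rw [hu, hw, ← EX_sub]
    set Bad : Finset (ℤ × ℤ) → Prop := fun ω =>
      (∃ j t, B.T k0 n j ω ≤ t ∧ t ≤ B.T k0 n (j + 1) ω ∧
        ε < dist (pt (A.δ n) (vx ((X0 A n).cor ω t)))
          (pt (A.δ n) (vx ((X0 A n).cor ω (B.T k0 n j ω))))) ∨
      (∃ j t, B.Fin n (B.X k0 n j ω) ∧ B.T k0 n j ω ≤ t ∧ t ≤ (X0 A n).len ω ∧
        ε < dist (pt (A.δ n) (vx ((X0 A n).cor ω t))) b) with hBad
    have h6 : Pr (X0 A n).E Bad ≤ ε := h1
    have h7 : ∀ ω, ω ⊆ (X0 A n).E → |f ((A.X n).gamma (A.δ n) ω) -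
        f (code a b B.o k (B.H k0 k n J ω))| ≤ K * (40 * ε) + ind (Bad ω) := by
      intro ω hω
      by_cases h8 : Bad ω
      · rw [ind_true h8]
        have g1 := hf1 ((A.X n).gamma (A.δ n) ω)
        have g2 := hf1 (code a b B.o k (B.H k0 k n J ω))
        have g3 : 0 ≤ K * (40 * ε) := by positivity
        rw [abs_le]
        constructor <;> linarith
      · rw [ind_false h8, add_zero]
        rw [hBad] at h8
        simp only [not_or, not_exists, not_and, not_lt] at h8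
        have g1 : dist ((A.X n).gamma (A.δ n) ω) (code a b B.o k (B.H k0 k n J ω)) ≤ 40 * ε :=
          B.dist_code hD h5 hω hε h2.le hmk h3.le h8.1 h8.2
        have g2 := hK.dist_le_mul ((A.X n).gamma (A.δ n) ω) (code a b B.o k (B.H k0 k n J ω))
        rw [Real.dist_eq] at g2
        exact g2.trans (mul_le_mul_of_nonneg_left g1 hK0)
    refine (EX_abs_le h7).trans ?_
    rw [EX_add, EX_const, ← Pr_eq_EX]
    linarith

end

/-- **Q1 from the interface statements of module M3.** -/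
theorem Q1_of
    (hNB : ∀ (D : Set ℂ), IsJordanDomain D → ∀ (a b : ℂ) (A₁ A₂ : Set ℂ), a ≠ b →
      IsArcs D a b A₁ A₂ → ∀ A : Approx D a b A₁ A₂, StNB A)
    (hCMP : ∀ (D : Set ℂ), IsJordanDomain D → ∀ (a b : ℂ) (A₁ A₂ : Set ℂ), a ≠ b →
      IsArcs D a b A₁ A₂ → ∀ (A : Approx D a b A₁ A₂) (r0 : ℝ), r0 < dist a b →
        ∀ (B : Base A r0) (k0 : ℕ), B.qb.1 ≤ k0 → StCMP B k0)
    (hS : ∀ (D : Set ℂ), IsJordanDomain D → ∀ (a b : ℂ) (A₁ A₂ : Set ℂ), a ≠ b →
      IsArcs D a b A₁ A₂ → ∀ A : Approx D a b A₁ A₂, StSmall A) :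
    Pool.Agent.H81.Q1.Q1 := by
  refine Pool.Agent.H81.Q1.Q1_of_conv ?_ ?_
  · intro D hD a b A₁ A₂ hab hA A
    exact Pool.Agent.H57.Q1.tight hD.2.2.1 hD.2.1.nonempty hA A
  · intro D hD a b A₁ A₂ hab hA A f hf hf1
    exact conv hD.1 hD.2.2.1 hA hab (hNB D hD a b A₁ A₂ hab hA A)
      (hCMP D hD a b A₁ A₂ hab hA A) (hS D hD a b A₁ A₂ hab hA A) f hf hf1

end Pool.Agent.Q1.M3
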