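import Mathlib
import Pool.Agent.Q1.M4.Walk

set_option autoImplicit false
open Finset

/-! Module M3: connectivity of sets of unit cells, components, filling of holes. -/

namespace Pool.Agent.Q1.M3.Pg

open Pool.Agent.H75.Perc (dir dir_cases)
open Pool.Agent.Q1.M4 (Adj4 Conn4 dir_neg)

/-- `c` and `d` are joined through sides in `S` (all cells after `c` lie in `S`). -/
def J4 (S : Set (ℤ × ℤ)) (c d : ℤ × ℤ) : Prop :=
  Relation.ReflTransGen (fun a b => Adj4 a b ∧ b ∈ S) c d

variable {S T : Set (ℤ × ℤ)} {c d e : ℤ × ℤ}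

lemma adj4_symm (h : Adj4 c d) : Adj4 d c := by
  obtain ⟨k, rfl⟩ := h
  exact ⟨k + 2, by rw [dir_neg]; abel⟩

lemma J4.refl (S : Set (ℤ × ℤ)) (c : ℤ × ℤ) : J4 S c c := Relation.ReflTransGen.refl

lemma J4.trans (h : J4 S c d) (h' : J4 S d e) : J4 S c e := Relation.ReflTransGen.trans h h'

lemma J4.tail (h : J4 S c d) (h1 : Adj4 d e) (h2 : e ∈ S) : J4 S c e :=
  Relation.ReflTransGen.tail h ⟨h1, h2⟩

lemma J4.single (h1 : Adj4 c d) (h2 : d ∈ S) : J4 S c d := (J4.refl S c).tail h1 h2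

lemma J4.mono (hST : S ⊆ T) (h : J4 S c d) : J4 T c d := by
  induction h with
  | refl => exact J4.refl _ _
  | tail _ h ih => exact ih.tail h.1 (hST h.2)

lemma J4.mem (h : J4 S c d) (hc : c ∈ S) : d ∈ S := by
  induction h with
  | refl => exact hc
  | tail _ h _ => exact h.2

lemma J4.symm (h : J4 S c d) (hc : c ∈ S) : J4 S d c := by
  induction h with
  | refl => exact J4.refl _ _
  | @tail a b h1 h2 ih =>
    have ha : a ∈ S := J4.mem h1 hc
    exact (J4.single (adj4_symm h2.1) ha).trans ih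

/-- Induction along a path: a property that passes to neighbours in `S`. -/
lemma J4.induct {P : ℤ × ℤ → Prop} (h : J4 S c d) (hc : P c)
    (hs : ∀ a b, P a → Adj4 a b → b ∈ S → P b) : P d := by
  induction h with
  | refl => exact hc
  | tail _ h ih => exact hs _ _ ih h.1 h.2

/-- If a path of `S` starts in `T` and ends outside `T`, there is a step leaving `T`. -/
lemma J4.exit (h : J4 S c d) (hc : c ∈ T) (hd : d ∉ T) (hcS : c ∈ S) :
    ∃ a b, a ∈ S ∧ a ∈ T ∧ b ∈ S ∧ b ∉ T ∧ Adj4 a b ∧ J4 (S ∩ T) c a := by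
  induction h with
  | refl => exact absurd hc hd
  | @tail a b h1 h2 ih =>
    by_cases ha : a ∈ T
    · have key : ∀ x, J4 S c x → x ∈ T → (J4 (S ∩ T) c x) ∨ (∃ a b, a ∈ S ∧ a ∈ T ∧ b ∈ S ∧
          b ∉ T ∧ Adj4 a b ∧ J4 (S ∩ T) c a) := by
        intro x hx
        induction hx with
        | refl => exact fun _ => Or.inl (J4.refl _ _)
        | @tail y z h3 h4 ih2 =>
          intro hz
          by_cases hy : y ∈ T
          · rcases ih2 hy with h5 | h5
            · exact Or.inl (h5.tail h4.1 ⟨h4.2, hz⟩)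
            · exact Or.inr h5
          · -- the path left T before
            right
            have : ∀ y, J4 S c y → y ∉ T → (∃ a b, a ∈ S ∧ a ∈ T ∧ b ∈ S ∧
                b ∉ T ∧ Adj4 a b ∧ J4 (S ∩ T) c a) := by
              clear hy ih2 h3 h4
              intro y hy
              have gen : (J4 (S ∩ T) c y) ∨ (∃ a b, a ∈ S ∧ a ∈ T ∧ b ∈ S ∧
                  b ∉ T ∧ Adj4 a b ∧ J4 (S ∩ T) c a) := by
                induction hy with
                | refl => exact Or.inl (J4.refl _ _)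
                | @tail u v h5 h6 ih3 =>
                  rcases ih3 with h7 | h7
                  · by_cases hv : v ∈ T
                    · exact Or.inl (h7.tail h6.1 ⟨h6.2, hv⟩)
                    · right
                      have hu : u ∈ S ∩ T := J4.mem h7 ⟨hcS, hc⟩
                      exact ⟨u, v, hu.1, hu.2, h6.2, hv, h6.1, h7⟩
                  · exact Or.inr h7
              intro hyT
              rcases gen with h8 | h8
              · exact absurd (J4.mem h8 ⟨hcS, hc⟩).2 hyT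
              · exact h8
            exact this y h3 hy
      rcases key a h1 ha with h5 | h5
      · have haS := J4.mem h1 hcS
        exact ⟨a, b, haS, ha, h2.2, hd, h2.1, h5⟩
      · exact h5
    · exact ih ha

lemma J4.hor {a b y : ℤ} (h : ∀ x, min a b ≤ x → x ≤ max a b → ((x, y) : ℤ × ℤ) ∈ S) :
    J4 S (a, y) (b, y) := by
  have up : ∀ (n : ℕ) (a : ℤ), (∀ x, a ≤ x → x ≤ a + n → ((x, y) : ℤ × ℤ) ∈ S) →
      J4 S (a, y) (a + n, y) := by
    intro n
    induction n with
    | zero => intro a _; simpa using J4.refl S (a, y)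
    | succ n ih =>
      intro a h
      refine (ih a (fun x h1 h2 => h x h1 (by push_cast; omega))).tail ⟨0, ?_⟩
        (h _ (by push_cast; omega) le_rfl)
      have : dir 0 = (1, 0) := by decide
      rw [this]; ext <;> simp; ring
  rcases le_total a b with hab | hab
  · have := up (b - a).toNat a (fun x h1 h2 => h x (by omega) (by omega))
    have e : a + ((b - a).toNat : ℤ) = b := by omega
    rwa [e] at this
  · have := up (a - b).toNat b (fun x h1 h2 => h x (by omega) (by omega))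
    have e : b + ((a - b).toNat : ℤ) = a := by omega
    rw [e] at this
    exact this.symm (h b (by omega) (by omega))

lemma J4.ver {a b x : ℤ} (h : ∀ y, min a b ≤ y → y ≤ max a b → ((x, y) : ℤ × ℤ) ∈ S) :
    J4 S (x, a) (x, b) := by
  have up : ∀ (n : ℕ) (a : ℤ), (∀ y, a ≤ y → y ≤ a + n → ((x, y) : ℤ × ℤ) ∈ S) →
      J4 S (x, a) (x, a + n) := by
    intro n
    induction n with
    | zero => intro a _; simpa using J4.refl S (x, a)
    | succ n ih =>
      intro a h
      refine (ih a (fun x h1 h2 => h x h1 (by push_cast; omega))).tail ⟨1, ?_⟩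
        (h _ (by push_cast; omega) le_rfl)
      have : dir 1 = (0, 1) := by decide
      rw [this]; ext <;> simp; ring
  rcases le_total a b with hab | hab
  · have := up (b - a).toNat a (fun x h1 h2 => h x (by omega) (by omega))
    have e : a + ((b - a).toNat : ℤ) = b := by omega
    rwa [e] at this
  · have := up (a - b).toNat b (fun x h1 h2 => h x (by omega) (by omega))
    have e : b + ((a - b).toNat : ℤ) = a := by omega
    rw [e] at this
    exact this.symm (h b (by omega) (by omega))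

lemma Conn4.union (hS : Conn4 S) (hT : Conn4 T) (h : ∃ a ∈ S, ∃ b ∈ T, a = b ∨ Adj4 a b) :
    Conn4 (S ∪ T) := by
  obtain ⟨a, ha, b, hb, hab⟩ := h
  have h1 : ∀ c ∈ S, J4 (S ∪ T) a c := fun c hc =>
    J4.mono Set.subset_union_left (hS a ha c hc)
  have h2 : ∀ c ∈ T, J4 (S ∪ T) a c := by
    intro c hc
    have h3 : J4 (S ∪ T) b c := J4.mono Set.subset_union_right (hT b hb c hc)
    rcases hab with rfl | hab
    · exact h3
    · exact (J4.single hab (Or.inr hb)).trans h3
  intro c hc d hd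
  have h3 : ∀ c ∈ S ∪ T, J4 (S ∪ T) a c := fun c hc => hc.elim (h1 c) (h2 c)
  exact ((h3 c hc).symm (Or.inl ha)).trans (h3 d hd)

/-! ### Components -/

open Classical in
/-- The component of `c` in `A`. -/
noncomputable def comp (A : Finset (ℤ × ℤ)) (c : ℤ × ℤ) : Finset (ℤ × ℤ) :=
  A.filter fun d => J4 (A : Set (ℤ × ℤ)) c d

lemma mem_comp {A : Finset (ℤ × ℤ)} : d ∈ comp A c ↔ d ∈ A ∧ J4 (A : Set (ℤ × ℤ)) c d := by
  unfold comp; simp

lemma comp_subset (A : Finset (ℤ × ℤ)) (c : ℤ × ℤ) : comp A c ⊆ A := fun _ h =>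
  (mem_comp.1 h).1

lemma self_mem_comp {A : Finset (ℤ × ℤ)} (hc : c ∈ A) : c ∈ comp A c :=
  mem_comp.2 ⟨hc, J4.refl _ _⟩

lemma comp_adj {A : Finset (ℤ × ℤ)} (h : d ∈ comp A c) (he : e ∈ A) (hde : Adj4 d e) :
    e ∈ comp A c :=
  mem_comp.2 ⟨he, (mem_comp.1 h).2.tail hde he⟩

lemma comp_j4 {A : Finset (ℤ × ℤ)} (hc : c ∈ A) (hd : d ∈ comp A c) :
    J4 (comp A c : Set (ℤ × ℤ)) c d := by
  have h := (mem_comp.1 hd).2
  have : d ∈ comp A c ∧ J4 (comp A c : Set (ℤ × ℤ)) c d := by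
    refine h.induct (P := fun x => x ∈ comp A c ∧ J4 (comp A c : Set (ℤ × ℤ)) c x)
      ⟨self_mem_comp hc, J4.refl _ _⟩ ?_
    rintro a b ⟨h1, h2⟩ hab hb
    have h3 : b ∈ comp A c := comp_adj h1 hb hab
    exact ⟨h3, h2.tail hab h3⟩
  exact this.2

lemma comp_conn {A : Finset (ℤ × ℤ)} (hc : c ∈ A) : Conn4 (comp A c : Set (ℤ × ℤ)) := by
  intro a ha b hb
  exact ((comp_j4 hc ha).symm (self_mem_comp hc)).trans (comp_j4 hc hb)

/-- The component contains every connected subset of `A` which meets it. -/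
lemma subset_comp {A B : Finset (ℤ × ℤ)} (hB : Conn4 (B : Set (ℤ × ℤ))) (hBA : B ⊆ A)
    (hc : c ∈ B) : B ⊆ comp A c := by
  intro d hd
  exact mem_comp.2 ⟨hBA hd, J4.mono (by exact_mod_cast hBA) (hB c hc d hd)⟩

/-! ### Filling -/

/-- A bound for the coordinates of the cells of `A`. -/
noncomputable def bd (A : Finset (ℤ × ℤ)) : ℕ := A.sup fun c => max c.1.natAbs c.2.natAbs

lemma le_bd {A : Finset (ℤ × ℤ)} (h : c ∈ A) : |c.1| ≤ bd A ∧ |c.2| ≤ bd A := by
  have : max c.1.natAbs c.2.natAbs ≤ bd A :=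
    Finset.le_sup (f := fun c : ℤ × ℤ => max c.1.natAbs c.2.natAbs) h
  rw [Int.abs_eq_natAbs, Int.abs_eq_natAbs]
  constructor <;> omega

/-- The unbounded component of the complement. -/
def Ext (A : Finset (ℤ × ℤ)) : Set (ℤ × ℤ) := {c | J4 ((A : Set (ℤ × ℤ))ᶜ) ((bd A : ℤ) + 1, 0) c}

lemma not_mem_of_far {A : Finset (ℤ × ℤ)} (h : (bd A : ℤ) < |c.1| ∨ (bd A : ℤ) < |c.2|) :
    c ∉ A := by
  intro hc
  have := le_bd hc
  omega

lemma ext_of_far {A : Finset (ℤ × ℤ)} (h : (bd A : ℤ) < |c.1| ∨ (bd A : ℤ) < |c.2|) :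
    c ∈ Ext A := by
  obtain ⟨x, y⟩ := c
  simp only at h
  set r : ℤ := (bd A : ℤ) + 1 with hr
  have hm : ∀ p : ℤ × ℤ, ((bd A : ℤ) < |p.1| ∨ (bd A : ℤ) < |p.2|) →
      p ∈ ((A : Set (ℤ × ℤ))ᶜ) := fun p hp => by
    rw [Set.mem_compl_iff, mem_coe]; exact not_mem_of_far hp
  have hbd : (0 : ℤ) ≤ bd A := by positivity
  change J4 _ (r, 0) (x, y)
  rcases h with h | h
  · rcases le_or_gt 0 x with hx | hx
    · have hx' : r ≤ x := by rw [abs_of_nonneg hx] at h; omega
      refine (J4.ver (b := y) fun z _ _ => hm _ (Or.inl ?_)).trans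
        (J4.hor fun z h1 _ => hm _ (Or.inl ?_))
      · simp only; rw [abs_of_nonneg (by omega)]; omega
      · simp only; rw [abs_of_nonneg (by omega)]; omega
    · have hx' : x ≤ -r := by rw [abs_of_neg hx] at h; omega
      refine (J4.ver (b := r) fun z _ _ => hm _ (Or.inl ?_)).trans
        ((J4.hor (b := x) fun z h1 _ => hm _ (Or.inr ?_)).trans
          (J4.ver fun z _ _ => hm _ (Or.inl ?_)))
      · simp only; rw [abs_of_nonneg (by omega)]; omega
      · simp only; rw [abs_of_nonneg (by omega)]; omega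
      · simp only; rw [abs_of_neg (by omega)]; omega
  · refine (J4.ver (b := y) fun z _ _ => hm _ (Or.inl ?_)).trans
        (J4.hor fun z h1 _ => hm _ (Or.inr ?_))
    · simp only; rw [abs_of_nonneg (by omega)]; omega
    · simp only; omega

lemma ext_not_mem {A : Finset (ℤ × ℤ)} (h : c ∈ Ext A) : c ∉ A := by
  have h1 : ((bd A : ℤ) + 1, (0 : ℤ)) ∈ ((A : Set (ℤ × ℤ))ᶜ) := by
    rw [Set.mem_compl_iff, mem_coe]
    exact not_mem_of_far (Or.inl (by simp only; rw [abs_of_nonneg (by positivity)]; omega))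
  have := J4.mem h h1
  rwa [Set.mem_compl_iff, mem_coe] at this

lemma ext_adj {A : Finset (ℤ × ℤ)} (h : c ∈ Ext A) (hcd : Adj4 c d) (hd : d ∉ A) : d ∈ Ext A :=
  J4.tail h hcd (by rwa [Set.mem_compl_iff, mem_coe])

open Classical in
/-- `A` together with the bounded components of its complement. -/
noncomputable def fill (A : Finset (ℤ × ℤ)) : Finset (ℤ × ℤ) :=
  (Icc (-(bd A : ℤ)) (bd A) ×ˢ Icc (-(bd A : ℤ)) (bd A)).filter fun c => c ∉ Ext A

lemma mem_fill {A : Finset (ℤ × ℤ)} : c ∈ fill A ↔ c ∉ Ext A := by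
  classical
  unfold fill
  rw [mem_filter, mem_product, mem_Icc, mem_Icc]
  constructor
  · exact fun h => h.2
  · intro h
    refine ⟨?_, h⟩
    have : ¬ ((bd A : ℤ) < |c.1| ∨ (bd A : ℤ) < |c.2|) := fun h1 => h (ext_of_far h1)
    push Not at this
    rw [abs_le, abs_le] at this
    exact ⟨⟨this.1.1, this.1.2⟩, this.2.1, this.2.2⟩

lemma subset_fill (A : Finset (ℤ × ℤ)) : A ⊆ fill A := fun _ hc =>
  mem_fill.2 fun h => ext_not_mem h hc

lemma fill_adj {A : Finset (ℤ × ℤ)} (h : c ∈ fill A) (hc : c ∉ A) (hcd : Adj4 c d) :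
    d ∈ fill A := by
  rw [mem_fill] at h ⊢
  intro hd
  exact h (ext_adj hd (adj4_symm hcd) hc)

/-- A cell of the filling with a neighbour outside belongs to the set. -/
lemma mem_of_fill {A : Finset (ℤ × ℤ)} (h : c ∈ fill A) (hcd : Adj4 c d) (hd : d ∉ fill A) :
    c ∈ A := by
  by_contra hc
  exact hd (fill_adj h hc hcd)

lemma fill_compl (A : Finset (ℤ × ℤ)) : ((fill A : Set (ℤ × ℤ))ᶜ) = Ext A := by
  ext c
  rw [Set.mem_compl_iff, mem_coe, mem_fill, not_not]

lemma fill_conn_compl (A : Finset (ℤ × ℤ)) : Conn4 ((fill A : Set (ℤ × ℤ))ᶜ) := by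
  rw [fill_compl]
  have h0 : ((bd A : ℤ) + 1, (0 : ℤ)) ∈ Ext A := J4.refl _ _
  have key : ∀ c ∈ Ext A, J4 (Ext A) ((bd A : ℤ) + 1, 0) c := by
    intro c hc
    have : c ∈ Ext A ∧ J4 (Ext A) ((bd A : ℤ) + 1, 0) c := by
      refine J4.induct (P := fun x => x ∈ Ext A ∧ J4 (Ext A) ((bd A : ℤ) + 1, 0) x) hc
        ⟨h0, J4.refl _ _⟩ ?_
      rintro a b ⟨h1, h2⟩ hab hb
      have h3 : b ∈ Ext A := J4.tail h1 hab hb
      exact ⟨h3, h2.tail hab h3⟩
    exact this.2
  intro c hc d hd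
  exact ((key c hc).symm h0).trans (key d hd)

/-- The filling is the smallest superset with connected complement. -/
lemma fill_min {A B : Finset (ℤ × ℤ)} (hAB : A ⊆ B) (hB : Conn4 ((B : Set (ℤ × ℤ))ᶜ)) :
    fill A ⊆ B := by
  intro c hc
  by_contra hcB
  set r : ℤ := max (bd A : ℤ) (bd B) + 1 with hr
  have hr0 : 0 ≤ r := by positivity
  have h1 : ((r, 0) : ℤ × ℤ) ∉ B := not_mem_of_far (Or.inl (by
    simp only; rw [abs_of_nonneg hr0]; omega))
  have h2 : ((r, 0) : ℤ × ℤ) ∈ Ext A := ext_of_far (Or.inl (by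
    simp only; rw [abs_of_nonneg hr0]; omega))
  have h3 : J4 ((A : Set (ℤ × ℤ))ᶜ) (r, 0) c :=
    J4.mono (Set.compl_subset_compl.2 (by exact_mod_cast hAB))
      (hB _ (by simpa using h1) c (by simpa using hcB))
  exact mem_fill.1 hc (J4.trans h2 h3)

lemma fill_conn {A : Finset (ℤ × ℤ)} (hA : Conn4 (A : Set (ℤ × ℤ))) :
    Conn4 (fill A : Set (ℤ × ℤ)) := by
  -- every cell of the filling is joined to `A`
  have key : ∀ (n : ℕ) (c : ℤ × ℤ), c ∈ fill A → ((bd A : ℤ) + 1 - c.1).toNat = n →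
      ∃ a ∈ A, J4 (fill A : Set (ℤ × ℤ)) c a := by
    intro n
    induction n with
    | zero =>
      intro c hc hn
      exfalso
      refine mem_fill.1 hc (ext_of_far (Or.inl ?_))
      have := le_abs_self c.1
      omega
    | succ n ih =>
      intro c hc hn
      by_cases hcA : c ∈ A
      · exact ⟨c, hcA, J4.refl _ _⟩
      · have hadj : Adj4 c (c + dir 0) := ⟨0, rfl⟩
        have h1 := fill_adj hc hcA hadj
        have e : dir 0 = (1, 0) := by decide
        obtain ⟨a, ha, h2⟩ := ih (c + dir 0) h1 (by rw [e, Prod.fst_add]; simp only; omega)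
        exact ⟨a, ha, (J4.single hadj h1).trans h2⟩
  intro c hc d hd
  obtain ⟨a, ha, h1⟩ := key _ c hc rfl
  obtain ⟨b, hb, h2⟩ := key _ d hd rfl
  have h3 : J4 (fill A : Set (ℤ × ℤ)) a b :=
    J4.mono (by exact_mod_cast subset_fill A) (hA a ha b hb)
  exact (h1.trans h3).trans (h2.symm hd)

lemma fill_mono {A B : Finset (ℤ × ℤ)} (h : A ⊆ B) : fill A ⊆ fill B :=
  fill_min (h.trans (subset_fill B)) (fill_conn_compl B)

end Pool.Agent.Q1.M3.Pg
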