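import Pool.Agent.Q1.M3.Typed
import Pool.Agent.Q1.M3.Defs

set_option autoImplicit false
open Finset

/-! Module M3: fat cells on the unit grid of mesh `3^(-K-1)`. The fat cell `(k, (i, j))`, `k ≤ K`,
consists of the unit cells with columns in `[3^(K-k) (3 i - 1), 3^(K-k) (3 i + 4))` and rows in
`[3^(K-k) (3 j - 1), 3^(K-k) (3 j + 4))`. -/

namespace Pool.Agent.Q1.M3.Pg

open Pool.Agent.H75.Perc (dir dir_cases)
open Pool.Agent.Q1.M4 (Adj4 Conn4 Good IsSide nextSide rect Reg Om mem_Om)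

/-- lower line -/
def lo (d : ℕ) (i : ℤ) : ℤ := 3 ^ d * (3 * i - 1)

/-- upper line -/
def hi (d : ℕ) (i : ℤ) : ℤ := 3 ^ d * (3 * i + 4)

lemma pow3_uniq {a b : ℤ} {d e : ℕ} (ha : ¬ (3 : ℤ) ∣ a) (hb : ¬ (3 : ℤ) ∣ b)
    (h : (3 : ℤ) ^ d * a = 3 ^ e * b) : d = e ∧ a = b := by
  have key : ∀ (d e : ℕ) (a b : ℤ), ¬ (3 : ℤ) ∣ a → d ≤ e → (3 : ℤ) ^ d * a = 3 ^ e * b → d = e := by
    intro d e a b ha hde h
    by_contra hne
    obtain ⟨n, rfl⟩ : ∃ n, e = d + 1 + n := ⟨e - d - 1, by omega⟩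
    apply ha
    have h3 : (3 : ℤ) ^ d ≠ 0 := by positivity
    have : (3 : ℤ) ^ d * a = 3 ^ d * (3 * (3 ^ n * b)) := by rw [h]; ring
    exact ⟨3 ^ n * b, mul_left_cancel₀ h3 this⟩
  have hde : d = e := by
    rcases le_total d e with h1 | h1
    · exact key d e a b ha h1 h
    · exact (key e d b a hb h1 h.symm).symm
  refine ⟨hde, ?_⟩
  rw [hde] at h
  exact mul_left_cancel₀ (by positivity) h

lemma lo_ne_hi (d e : ℕ) (i j : ℤ) : lo d i ≠ hi e j := by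
  intro h
  have := pow3_uniq (by omega) (by omega) h
  omega

lemma lo_inj {d e : ℕ} {i j : ℤ} (h : lo d i = lo e j) : d = e ∧ i = j := by
  have := pow3_uniq (by omega) (by omega) h
  omega

lemma hi_inj {d e : ℕ} {i j : ℤ} (h : hi d i = hi e j) : d = e ∧ i = j := by
  have := pow3_uniq (by omega) (by omega) h
  omega

lemma lo_lt_hi (d : ℕ) (i : ℤ) : lo d i < hi d i := by
  unfold lo hi
  have : (0 : ℤ) < 3 ^ d := by positivity
  nlinarith

open Classical in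
/-- The type of a grid line. -/
noncomputable def lty (N : ℤ) : LT :=
  if ∃ i, N = lo 0 i then LT.loF
  else if ∃ i, N = hi 0 i then LT.hiF
  else if ∃ d i, 1 ≤ d ∧ N = lo d i then LT.loC
  else if ∃ d i, 1 ≤ d ∧ N = hi d i then LT.hiC
  else LT.no

lemma lty_loF {N i : ℤ} (h : N = lo 0 i) : lty N = LT.loF := by
  unfold lty; rw [if_pos ⟨i, h⟩]

lemma lty_hiF {N i : ℤ} (h : N = hi 0 i) : lty N = LT.hiF := by
  unfold lty
  rw [if_neg (by rintro ⟨j, hj⟩; exact lo_ne_hi _ _ _ _ (hj.symm.trans h)), if_pos ⟨i, h⟩]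

lemma lty_loC {N i : ℤ} {d : ℕ} (hd : 1 ≤ d) (h : N = lo d i) : lty N = LT.loC := by
  unfold lty
  rw [if_neg (by rintro ⟨j, hj⟩; have := lo_inj (hj.symm.trans h); omega),
    if_neg (by rintro ⟨j, hj⟩; exact lo_ne_hi _ _ _ _ (h.symm.trans hj)),
    if_pos ⟨d, i, hd, h⟩]

lemma lty_hiC {N i : ℤ} {d : ℕ} (hd : 1 ≤ d) (h : N = hi d i) : lty N = LT.hiC := by
  unfold lty
  rw [if_neg (by rintro ⟨j, hj⟩; exact lo_ne_hi _ _ _ _ (hj.symm.trans h)),
    if_neg (by rintro ⟨j, hj⟩; have := hi_inj (hj.symm.trans h); omega),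
    if_neg (by rintro ⟨e, j, -, hj⟩; exact lo_ne_hi _ _ _ _ (hj.symm.trans h)),
    if_pos ⟨d, i, hd, h⟩]

/-- The unit cells of a fat cell. -/
noncomputable def fc (K : ℕ) (q : Cell) : Finset (ℤ × ℤ) :=
  Ico (lo (K - q.1) q.2.1) (hi (K - q.1) q.2.1) ×ˢ Ico (lo (K - q.1) q.2.2) (hi (K - q.1) q.2.2)

lemma mem_fc {K : ℕ} {q : Cell} {c : ℤ × ℤ} : c ∈ fc K q ↔
    (lo (K - q.1) q.2.1 ≤ c.1 ∧ c.1 < hi (K - q.1) q.2.1) ∧
    (lo (K - q.1) q.2.2 ≤ c.2 ∧ c.2 < hi (K - q.1) q.2.2) := by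
  unfold fc; rw [mem_product, mem_Ico, mem_Ico]

/-- Leaving a fat cell. -/
lemma leave_left {K : ℕ} {q : Cell} {N M : ℤ} (h : (N, M) ∈ fc K q) (h' : (N - 1, M) ∉ fc K q) :
    N = lo (K - q.1) q.2.1 := by
  rw [mem_fc] at h h'; simp only at h h'; omega

lemma leave_right {K : ℕ} {q : Cell} {N M : ℤ} (h : (N - 1, M) ∈ fc K q) (h' : (N, M) ∉ fc K q) :
    N = hi (K - q.1) q.2.1 := by
  rw [mem_fc] at h h'; simp only at h h'; omega

lemma leave_down {K : ℕ} {q : Cell} {N M : ℤ} (h : (N, M) ∈ fc K q) (h' : (N, M - 1) ∉ fc K q) :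
    M = lo (K - q.1) q.2.2 := by
  rw [mem_fc] at h h'; simp only at h h'; omega

lemma leave_up {K : ℕ} {q : Cell} {N M : ℤ} (h : (N, M - 1) ∈ fc K q) (h' : (N, M) ∉ fc K q) :
    M = hi (K - q.1) q.2.2 := by
  rw [mem_fc] at h h'; simp only at h h'; omega

lemma rect_conn4 {a b c d : ℤ} : Conn4 ((Ico a b ×ˢ Ico c d : Finset (ℤ × ℤ)) : Set (ℤ × ℤ)) := by
  rintro ⟨x, y⟩ h ⟨x', y'⟩ h'
  rw [mem_coe, mem_product, mem_Ico, mem_Ico] at h h'
  simp only at h h'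
  have h1 : J4 ((Ico a b ×ˢ Ico c d : Finset (ℤ × ℤ)) : Set (ℤ × ℤ)) (x, y) (x', y) :=
    J4.hor fun z h1 h2 => by
      rw [mem_coe, mem_product, mem_Ico, mem_Ico]; simp only; omega
  have h2 : J4 ((Ico a b ×ˢ Ico c d : Finset (ℤ × ℤ)) : Set (ℤ × ℤ)) (x', y) (x', y') :=
    J4.ver fun z h1 h2 => by
      rw [mem_coe, mem_product, mem_Ico, mem_Ico]; simp only; omega
  exact h1.trans h2

lemma fc_conn (K : ℕ) (q : Cell) : Conn4 (fc K q : Set (ℤ × ℤ)) := rect_conn4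

lemma fc_ne (K : ℕ) (q : Cell) : (lo (K - q.1) q.2.1, lo (K - q.1) q.2.2) ∈ fc K q := by
  rw [mem_fc]
  exact ⟨⟨le_rfl, lo_lt_hi _ _⟩, le_rfl, lo_lt_hi _ _⟩

/-- The unit cells of a family of fat cells. -/
noncomputable def flat (K : ℕ) (F : Finset Cell) : Finset (ℤ × ℤ) := F.biUnion (fc K)

lemma mem_flat {K : ℕ} {F : Finset Cell} {c : ℤ × ℤ} : c ∈ flat K F ↔ ∃ q ∈ F, c ∈ fc K q :=
  mem_biUnion

lemma fc_subset_flat {K : ℕ} {F : Finset Cell} {q : Cell} (h : q ∈ F) : fc K q ⊆ flat K F :=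
  fun _ hc => mem_flat.2 ⟨q, h, hc⟩

lemma flat_mono {K : ℕ} {F G : Finset Cell} (h : F ⊆ G) : flat K F ⊆ flat K G := by
  intro c hc
  obtain ⟨q, hq, h1⟩ := mem_flat.1 hc
  exact mem_flat.2 ⟨q, h hq, h1⟩

/-! ### The regions of a step -/

variable (K : ℕ) (U C : Finset Cell) (B : Cell) (b0 : ℤ × ℤ)

/-- The filled union of the fine family `U` and the coarse family `C`. -/
noncomputable def PP : Finset (ℤ × ℤ) := fill (flat K (U ∪ C))

/-- The target: the coarse family and the box. -/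
noncomputable def HH : Finset (ℤ × ℤ) := flat K C ∪ (fc K B ∩ PP K U C)

/-- The part of the target joined to the cell `b0` of the coarse family: the coarse family and the parts
of the box which touch it. -/
noncomputable def H1 : Finset (ℤ × ℤ) := comp (HH K U C B) b0

/-- The region of a step: the component of the cell `ct`. -/
noncomputable def RR (ct : ℤ × ℤ) : Finset (ℤ × ℤ) := comp (PP K U C \ HH K U C B) ct

/-- The levels of the families: `U` consists of fine cells (level `K`), `C` and `B` of coarse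
cells. -/
structure LevK : Prop where
  hU : ∀ q ∈ U, q.1 = K
  hC : ∀ q ∈ C, q.1 < K
  hB : B.1 < K

variable {K U C B b0}

lemma flat_sub_PP {F : Finset Cell} (h : F ⊆ U ∪ C) : flat K F ⊆ PP K U C :=
  (flat_mono h).trans (subset_fill _)

lemma HH_sub_PP : HH K U C B ⊆ PP K U C :=
  union_subset (flat_sub_PP subset_union_right) inter_subset_right

lemma H1_sub_HH : H1 K U C B b0 ⊆ HH K U C B := comp_subset _ _

/-- A boundary side of `P` is a side of a fat cell. -/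
lemma exists_PP {c d : ℤ × ℤ} (hc : c ∈ PP K U C) (hcd : Adj4 c d) (hd : d ∉ PP K U C) :
    ∃ q ∈ U ∪ C, c ∈ fc K q ∧ d ∉ fc K q := by
  obtain ⟨q, hq, h1⟩ := mem_flat.1 (mem_of_fill hc hcd hd)
  exact ⟨q, hq, h1, fun h2 => hd (flat_sub_PP (F := {q}) (singleton_subset_iff.2 hq)
    (fc_subset_flat (mem_singleton_self q) h2))⟩

/-- A side between `P \ H` and the outside is a side of a fine cell. -/
lemma exists_O {c d : ℤ × ℤ} (hc : c ∈ PP K U C) (hcH : c ∉ HH K U C B) (hcd : Adj4 c d)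
    (hd : d ∉ PP K U C) : ∃ q ∈ U, c ∈ fc K q ∧ d ∉ fc K q := by
  obtain ⟨q, hq, h1, h2⟩ := exists_PP hc hcd hd
  refine ⟨q, ?_, h1, h2⟩
  rcases mem_union.1 hq with h | h
  · exact h
  · exact absurd (mem_union_left _ (fc_subset_flat h h1)) hcH

/-- A side between `P \ H` and `H` is a side of a coarse cell. -/
lemma exists_H {c d : ℤ × ℤ} (hc : c ∈ PP K U C) (hcH : c ∉ HH K U C B)
    (hd : d ∈ HH K U C B) : ∃ q, (q ∈ C ∨ q = B) ∧ d ∈ fc K q ∧ c ∉ fc K q := by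
  rcases mem_union.1 hd with h | h
  · obtain ⟨q, hq, h1⟩ := mem_flat.1 h
    exact ⟨q, Or.inl hq, h1, fun h2 => hcH (mem_union_left _ (fc_subset_flat hq h2))⟩
  · exact ⟨B, Or.inr rfl, (mem_inter.1 h).1, fun h2 =>
      hcH (mem_union_right _ (mem_inter.2 ⟨h2, hc⟩))⟩

lemma adj_left (N M : ℤ) : Adj4 ((N, M) : ℤ × ℤ) (N - 1, M) := by
  refine ⟨2, ?_⟩
  have : dir 2 = (-1, 0) := by decide
  rw [this]; ext <;> simp; ring

lemma adj_right (N M : ℤ) : Adj4 ((N - 1, M) : ℤ × ℤ) (N, M) := adj4_symm (adj_left N M)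

lemma adj_down (N M : ℤ) : Adj4 ((N, M) : ℤ × ℤ) (N, M - 1) := by
  refine ⟨3, ?_⟩
  have : dir 3 = (0, -1) := by decide
  rw [this]; ext <;> simp; ring

lemma adj_up (N M : ℤ) : Adj4 ((N, M - 1) : ℤ × ℤ) (N, M) := adj4_symm (adj_down N M)

/-- **The lines of a step are typed.** -/
theorem typed_step (hL : LevK K U C B) : Typed lty (PP K U C) (HH K U C B) := by
  have cl : ∀ q, (q ∈ C ∨ q = B) → 1 ≤ K - q.1 := by
    rintro q (h | h)
    · have := hL.hC q h; omega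
    · have := hL.hB; rw [h]; omega
  have fl : ∀ q ∈ U, K - q.1 = 0 := fun q h => by have := hL.hU q h; omega
  have lu : ∀ (q : Cell) (N i : ℤ), q ∈ U ∪ C → N = lo (K - q.1) i →
      lty N = LT.loF ∨ lty N = LT.loC := by
    intro q N i hq h
    rcases mem_union.1 hq with h1 | h1
    · left; rw [fl q h1] at h; exact lty_loF h
    · right; exact lty_loC (cl q (Or.inl h1)) h
  have hu : ∀ (q : Cell) (N i : ℤ), q ∈ U ∪ C → N = hi (K - q.1) i →
      lty N = LT.hiF ∨ lty N = LT.hiC := by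
    intro q N i hq h
    rcases mem_union.1 hq with h1 | h1
    · left; rw [fl q h1] at h; exact lty_hiF h
    · right; exact lty_hiC (cl q (Or.inl h1)) h
  refine ⟨HH_sub_PP, ?_, ?_, ?_, ?_, ?_, ?_, ?_, ?_, ?_, ?_, ?_, ?_⟩
  · intro N M h1 h2 h3
    obtain ⟨q, hq, h4, h5⟩ := exists_O h1 h2 (adj_left N M) h3
    have := leave_left h4 h5
    rw [fl q hq] at this
    exact lty_loF this
  · intro N M h1 h2 h3
    obtain ⟨q, hq, h4, h5⟩ := exists_O h1 h2 (adj_right N M) h3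
    have := leave_right h4 h5
    rw [fl q hq] at this
    exact lty_hiF this
  · intro N M h1 h2 h3
    obtain ⟨q, hq, h4, h5⟩ := exists_H h1 h2 h3
    exact lty_loC (cl q hq) (leave_left h4 h5)
  · intro N M h1 h2 h3
    obtain ⟨q, hq, h4, h5⟩ := exists_H h1 h2 h3
    exact lty_hiC (cl q hq) (leave_right h4 h5)
  · intro N M h1 h2
    obtain ⟨q, hq, h4, h5⟩ := exists_PP h1 (adj_left N M) h2
    exact lu q N _ hq (leave_left h4 h5)
  · intro N M h1 h2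
    obtain ⟨q, hq, h4, h5⟩ := exists_PP h1 (adj_right N M) h2
    exact hu q N _ hq (leave_right h4 h5)
  · intro N M h1 h2 h3
    obtain ⟨q, hq, h4, h5⟩ := exists_O h1 h2 (adj_down N M) h3
    have := leave_down h4 h5
    rw [fl q hq] at this
    exact lty_loF this
  · intro N M h1 h2 h3
    obtain ⟨q, hq, h4, h5⟩ := exists_O h1 h2 (adj_up N M) h3
    have := leave_up h4 h5
    rw [fl q hq] at this
    exact lty_hiF this
  · intro N M h1 h2 h3
    obtain ⟨q, hq, h4, h5⟩ := exists_H h1 h2 h3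
    exact lty_loC (cl q hq) (leave_down h4 h5)
  · intro N M h1 h2 h3
    obtain ⟨q, hq, h4, h5⟩ := exists_H h1 h2 h3
    exact lty_hiC (cl q hq) (leave_up h4 h5)
  · intro N M h1 h2
    obtain ⟨q, hq, h4, h5⟩ := exists_PP h1 (adj_down N M) h2
    exact lu q M _ hq (leave_down h4 h5)
  · intro N M h1 h2
    obtain ⟨q, hq, h4, h5⟩ := exists_PP h1 (adj_up N M) h2
    exact hu q M _ hq (leave_up h4 h5)

/-! ### Components of the target -/

/-- A part of the box `B` without exit to the outside of `P` is not closed under adjacency in the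
target. -/
lemma touch_out (hB : ∃ o ∈ fc K B, o ∉ PP K U C) {S : Finset (ℤ × ℤ)}
    (hS : S ⊆ PP K U C) (hcl : ∀ a ∈ S, ∀ b ∈ HH K U C B, Adj4 a b → b ∈ S) {c : ℤ × ℤ}
    (hc : c ∈ S) (hcB : c ∈ fc K B) : ∃ a b, a ∈ S ∧ a ∈ fc K B ∧ b ∉ PP K U C ∧ Adj4 a b ∧
      J4 ((S : Set (ℤ × ℤ)) ∩ (fc K B : Set (ℤ × ℤ))) c a := by
  obtain ⟨o, ho, hoP⟩ := hB
  have h1 : J4 (fc K B : Set (ℤ × ℤ)) c o := fc_conn K B c hcB o ho
  obtain ⟨a, b, ha1, ha2, hb1, hb2, hab, hca⟩ := h1.exit (T := (S : Set (ℤ × ℤ))) hc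
    (fun h => hoP (hS h)) hcB
  refine ⟨a, b, ha2, ha1, fun hbP => hb2 ?_, hab, ?_⟩
  · exact hcl a ha2 b (mem_union_right _ (mem_inter.2 ⟨hb1, hbP⟩)) hab
  · exact J4.mono (fun x hx => ⟨hx.2, hx.1⟩) hca

variable (hC : Conn4 (flat K C : Set (ℤ × ℤ))) (hb0 : b0 ∈ flat K C) (hb0B : b0 ∈ fc K B)
  (hB : ∃ o ∈ fc K B, o ∉ PP K U C)

include hC hb0 in
lemma flat_sub_H1 : flat K C ⊆ H1 K U C B b0 := by
  intro c hc
  refine mem_comp.2 ⟨mem_union_left _ hc, J4.mono ?_ (hC b0 hb0 c hc)⟩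
  exact_mod_cast (subset_union_left : flat K C ⊆ HH K U C B)

lemma H1_closed {a b : ℤ × ℤ} (ha : a ∈ H1 K U C B b0) (hb : b ∈ HH K U C B) (hab : Adj4 a b) :
    b ∈ H1 K U C B b0 := comp_adj ha hb hab

include hC hb0 in
lemma rest_sub : HH K U C B \ H1 K U C B b0 ⊆ fc K B := by
  intro c hc
  obtain ⟨h1, h2⟩ := mem_sdiff.1 hc
  rcases mem_union.1 h1 with h | h
  · exact absurd (flat_sub_H1 hC hb0 h) h2
  · exact (mem_inter.1 h).1

include hC hb0 hb0B hB in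
/-- Every cell of the target is joined to the outside of `P` through the target. -/
lemma HH_out : ∀ c ∈ HH K U C B, ∀ o0, o0 ∉ PP K U C →
    J4 ((HH K U C B : Set (ℤ × ℤ)) ∪ (PP K U C : Set (ℤ × ℤ))ᶜ) c o0 := by
  have hO : Conn4 ((PP K U C : Set (ℤ × ℤ))ᶜ) := fill_conn_compl _
  have key : ∀ (S : Finset (ℤ × ℤ)), S ⊆ HH K U C B →
      (∀ a ∈ S, ∀ b ∈ HH K U C B, Adj4 a b → b ∈ S) → ∀ c ∈ S, c ∈ fc K B → ∀ o0, o0 ∉ PP K U C →
      J4 ((HH K U C B : Set (ℤ × ℤ)) ∪ (PP K U C : Set (ℤ × ℤ))ᶜ) c o0 := by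
    intro S hS hcl c hc hcB o0 ho0
    obtain ⟨a, b, h1, h2, h3, h4, h5⟩ := touch_out hB (hS.trans HH_sub_PP) hcl hc hcB
    have h6 : J4 ((HH K U C B : Set (ℤ × ℤ)) ∪ (PP K U C : Set (ℤ × ℤ))ᶜ) c a :=
      J4.mono (fun x hx => Or.inl (hS hx.1)) h5
    have h7 := h6.tail h4 (Or.inr (by simpa using h3))
    exact h7.trans (J4.mono Set.subset_union_right
      (hO b (by simpa using h3) o0 (by simpa using ho0)))
  intro c hc o0 ho0
  by_cases h : c ∈ H1 K U C B b0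
  · have h1 : J4 ((HH K U C B : Set (ℤ × ℤ)) ∪ (PP K U C : Set (ℤ × ℤ))ᶜ) c b0 := by
      have h2 := (mem_comp.1 h).2
      exact J4.mono Set.subset_union_left
        (h2.symm (by exact_mod_cast (mem_union_left _ hb0 : b0 ∈ HH K U C B)))
    exact h1.trans (key _ H1_sub_HH (fun a ha b hb hab => H1_closed ha hb hab) b0
      (flat_sub_H1 hC hb0 hb0) hb0B o0 ho0)
  · have h1 : c ∈ HH K U C B \ H1 K U C B b0 := mem_sdiff.2 ⟨hc, h⟩
    refine key (HH K U C B \ H1 K U C B b0) sdiff_subset ?_ c h1 (rest_sub hC hb0 h1) o0 ho0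
    intro a ha b hb hab
    refine mem_sdiff.2 ⟨hb, fun hb1 => (mem_sdiff.1 ha).2 ?_⟩
    exact H1_closed hb1 (mem_sdiff.1 ha).1 (adj4_symm hab)

include hC hb0 hB in
/-- The outside of `P` together with the other parts of the target is connected. -/
lemma out_conn : Conn4 ((PP K U C : Set (ℤ × ℤ))ᶜ ∪
    ((HH K U C B \ H1 K U C B b0 : Finset (ℤ × ℤ)) : Set (ℤ × ℤ))) := by
  have hO : Conn4 ((PP K U C : Set (ℤ × ℤ))ᶜ) := fill_conn_compl _
  set T := ((PP K U C : Set (ℤ × ℤ))ᶜ ∪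
    ((HH K U C B \ H1 K U C B b0 : Finset (ℤ × ℤ)) : Set (ℤ × ℤ))) with hT
  obtain ⟨o, ho, hoP⟩ := hB
  have hoT : o ∈ T := Or.inl (by simpa using hoP)
  have key : ∀ c ∈ T, J4 T c o := by
    intro c hc
    rcases hc with h | h
    · exact J4.mono Set.subset_union_left (hO c h o (by simpa using hoP))
    · have h' : c ∈ HH K U C B \ H1 K U C B b0 := by exact_mod_cast h
      obtain ⟨a, b, h1, h2, h3, h4, h5⟩ := touch_out ⟨o, ho, hoP⟩
        (sdiff_subset.trans HH_sub_PP : HH K U C B \ H1 K U C B b0 ⊆ PP K U C)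
        (fun a ha b hb hab => mem_sdiff.2 ⟨hb, fun hb1 => (mem_sdiff.1 ha).2
          (H1_closed hb1 (mem_sdiff.1 ha).1 (adj4_symm hab))⟩) h' (rest_sub hC hb0 h')
      have h6 : J4 T c a := J4.mono (fun x hx => Or.inr hx.1) h5
      have h7 := h6.tail h4 (Or.inl (by simpa using h3))
      exact h7.trans (J4.mono Set.subset_union_left
        (hO b (by simpa using h3) o (by simpa using hoP)))
  intro c hc d hd
  exact (key c hc).trans ((key d hd).symm hd)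

end Pool.Agent.Q1.M3.Pg
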