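import Pool.Agent.Q1.M3.Conn

set_option autoImplicit false
open Finset

/-! Module M3: the sides of the boundary walk of a polyomino whose outer cells lie in a connected set
`H` form one run, if the other outer cells lie in a connected set `O` disjoint from `H`. -/

namespace Pool.Agent.Q1.M3.Pg

open Pool.Agent.H75.Perc (dir dir_cases IsUnit4 isUnit4_dir)
open Pool.Agent.H75.Four (even_faces)
open Pool.Agent.Q1.M4

/-- The cell on the outer side of a boundary side. -/
def outc (s : (ℤ × ℤ) × ℤ) : ℤ × ℤ := s.1 + dir (s.2 - 1)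

/-- The label is an edge of a cell of `O`. -/
def OE (O : Set (ℤ × ℤ)) (l : ℤ × ℤ) : Prop := ∃ c ∈ O, ∃ j : ℤ, l = c + c + (1, 1) + dir j

/-- The degree mod 2 of a set of edges at a vertex. -/
def deg (n : ℤ × ℤ → ZMod 2) (v : ℤ × ℤ) : ZMod 2 :=
  n (2 * v.1 + 1, 2 * v.2) + n (2 * v.1 - 1, 2 * v.2) + n (2 * v.1, 2 * v.2 + 1) +
    n (2 * v.1, 2 * v.2 - 1)

/-- `v` and `w` are joined by a chain of edges of cells of `O`. -/
def Ch (O : Set (ℤ × ℤ)) (v w : ℤ × ℤ) : Prop :=
  ∃ n : ℤ × ℤ → ZMod 2, {a | n a ≠ 0}.Finite ∧ (∀ l, n l ≠ 0 → OE O l) ∧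
    ∀ p, deg n p = (if v = p then 1 else 0) + (if w = p then 1 else 0)

variable {O : Set (ℤ × ℤ)} {u v w : ℤ × ℤ}

lemma z2_add_self (a : ZMod 2) : a + a = 0 := by revert a; decide

lemma Ch.refl (v : ℤ × ℤ) : Ch O v v := by
  refine ⟨fun _ => 0, by simp, by simp, fun p => ?_⟩
  rw [z2_add_self]
  simp [deg]

lemma Ch.symm (h : Ch O v w) : Ch O w v := by
  obtain ⟨n, h1, h2, h3⟩ := h
  exact ⟨n, h1, h2, fun p => by rw [h3, add_comm]⟩

lemma Ch.trans (h : Ch O u v) (h' : Ch O v w) : Ch O u w := by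
  obtain ⟨n, h1, h2, h3⟩ := h
  obtain ⟨n', h1', h2', h3'⟩ := h'
  refine ⟨fun l => n l + n' l, ?_, ?_, ?_⟩
  · refine (h1.union h1').subset ?_
    intro a ha
    by_contra hc
    simp only [Set.mem_union, Set.mem_ofPred_eq, not_or, not_not] at hc
    exact ha (by simp [hc.1, hc.2])
  · intro l hl
    by_contra hc
    have e1 : n l = 0 := by by_contra h; exact hc (h2 l h)
    have e2 : n' l = 0 := by by_contra h; exact hc (h2' l h)
    exact hl (by simp [e1, e2])
  · intro p
    have e : deg (fun l => n l + n' l) p = deg n p + deg n' p := by unfold deg; ring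
    rw [e, h3, h3']
    have := z2_add_self (if v = p then (1 : ZMod 2) else 0)
    calc (if u = p then (1 : ZMod 2) else 0) + (if v = p then 1 else 0) +
          ((if v = p then 1 else 0) + (if w = p then 1 else 0)) =
        (if u = p then 1 else 0) + ((if v = p then 1 else 0) + (if v = p then 1 else 0)) +
          (if w = p then 1 else 0) := by ring
      _ = _ := by rw [this, add_zero]

/-- The chain of one edge. -/
lemma deg_edge (t v : ℤ × ℤ) (k : ℤ) :
    deg (fun l => if l = t + t + dir k then 1 else 0) v =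
      (if t = v then 1 else 0) + (if t + dir k = v then 1 else 0) := by
  rw [← lab_vertex t v k]
  unfold deg
  simp only [eq_comm]

lemma Ch.edge {t : ℤ × ℤ} {k : ℤ} (h : OE O (t + t + dir k)) : Ch O t (t + dir k) := by
  refine ⟨fun l => if l = t + t + dir k then 1 else 0, ?_, ?_, fun p => deg_edge t p k⟩
  · refine (Set.finite_singleton (t + t + dir k)).subset ?_
    intro a ha
    by_contra hc
    exact ha (by simp [show a ≠ t + t + dir k from hc])
  · intro l hl
    by_cases e : l = t + t + dir k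
    · rw [e]; exact h
    · exact absurd (by simp [e]) hl

/-- The corners of a cell. -/
def Corn (c v : ℤ × ℤ) : Prop := v = c ∨ v = c + (1, 0) ∨ v = c + (1, 1) ∨ v = c + (0, 1)

lemma Ch.corner {c v : ℤ × ℤ} (hc : c ∈ O) (h : Corn c v) : Ch O c v := by
  have d0 : dir 0 = (1, 0) := by decide
  have d1 : dir 1 = (0, 1) := by decide
  have d2 : dir 2 = (-1, 0) := by decide
  have d3 : dir 3 = (0, -1) := by decide
  have e1 : Ch O c (c + (1, 0)) := by
    have := Ch.edge (O := O) (t := c) (k := 0) ⟨c, hc, 3, by rw [d0, d3]; ext <;> simp⟩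
    rwa [d0] at this
  have e2 : Ch O c (c + (0, 1)) := by
    have := Ch.edge (O := O) (t := c) (k := 1) ⟨c, hc, 2, by rw [d1, d2]; ext <;> simp⟩
    rwa [d1] at this
  have e3 : Ch O (c + (1, 0)) (c + (1, 1)) := by
    have := Ch.edge (O := O) (t := c + (1, 0)) (k := 1) ⟨c, hc, 0, by
      rw [d0, d1]; ext <;> simp <;> ring⟩
    rw [d1, add_assoc] at this
    simpa using this
  rcases h with rfl | rfl | rfl | rfl
  · exact Ch.refl _
  · exact e1
  · exact e1.trans e3
  · exact e2

lemma Ch.adj {c d : ℤ × ℤ} (hc : c ∈ O) (hd : d ∈ O) (h : Adj4 c d) : Ch O c d := by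
  obtain ⟨k, rfl⟩ := h
  rcases dir_cases k with ⟨-, e⟩ | ⟨-, e⟩ | ⟨-, e⟩ | ⟨-, e⟩ <;> rw [e] at hd ⊢
  · exact Ch.corner hc (Or.inr (Or.inl rfl))
  · exact Ch.corner hc (Or.inr (Or.inr (Or.inr rfl)))
  · exact (Ch.corner hd (Or.inr (Or.inl (by ext <;> simp)))).symm
  · exact (Ch.corner hd (Or.inr (Or.inr (Or.inr (by ext <;> simp))))).symm

lemma Ch.of_j4 {c d : ℤ × ℤ} (hc : c ∈ O) (h : J4 O c d) : Ch O c d := by
  have : d ∈ O ∧ Ch O c d := by
    refine h.induct (P := fun x => x ∈ O ∧ Ch O c x) ⟨hc, Ch.refl _⟩ ?_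
    rintro a b ⟨h1, h2⟩ hab hb
    exact ⟨hb, h2.trans (Ch.adj h1 hb hab)⟩
  exact this.2

lemma corn_tail (s : (ℤ × ℤ) × ℤ) : Corn (outc s) (tail s) := by
  obtain ⟨⟨i, j⟩, k⟩ := s
  unfold Corn outc tail
  simp only
  rcases dir_cases k with ⟨a, -⟩ | ⟨a, -⟩ | ⟨a, -⟩ | ⟨a, -⟩ <;>
  rcases dir_cases (k - 1) with ⟨b, f⟩ | ⟨b, f⟩ | ⟨b, f⟩ | ⟨b, f⟩ <;>
  first
  | (exfalso; omega)
  | (rw [f]; simp only [a, Prod.mk_add_mk, Prod.mk.injEq]; norm_num)

/-- An edge between two cells outside `O` is not an edge of a cell of `O`. -/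
lemma not_OE {c : ℤ × ℤ} {j : ℤ} (h1 : c ∉ O) (h2 : c + dir j ∉ O) :
    ¬ OE O (c + c + (1, 1) + dir j) := by
  rintro ⟨d, hd, k, h⟩
  rcases edge_cells h with h3 | h3
  · exact h1 (h3.1 ▸ hd)
  · exact h2 (h3.2 ▸ hd)

variable {Q : Finset (ℤ × ℤ)} {H : Set (ℤ × ℤ)} {s : (ℤ × ℤ) × ℤ}

/-- **No alternation.** Four sides in the cyclic order of the boundary walk cannot have their outer
cells alternately in the disjoint connected sets `O`, `H`. -/
theorem no_alt (hQ : Conn4 (Q : Set (ℤ × ℤ))) (hO : Conn4 O) (hH : Conn4 H)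
    (hOQ : ∀ c ∈ O, c ∉ Q) (hHQ : ∀ c ∈ H, c ∉ Q) (hOH : ∀ c ∈ O, c ∉ H) (hs : IsSide Q s)
    {N : ℕ} (hinj : ∀ n < N, ∀ n' < N, ((nextSide Q)^[n] s).1 = ((nextSide Q)^[n'] s).1 →
      (((nextSide Q)^[n] s).2 - ((nextSide Q)^[n'] s).2) % 4 = 0 → n = n')
    {a b c d : ℕ} (hab : a < b) (hbc : b < c) (hcd : c < d) (hdN : d < N)
    (ha : outc ((nextSide Q)^[a] s) ∈ O) (hb : outc ((nextSide Q)^[b] s) ∈ H)
    (hc : outc ((nextSide Q)^[c] s) ∈ O) (hd : outc ((nextSide Q)^[d] s) ∈ H) : False := by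
  classical
  let sd : ℕ → (ℤ × ℤ) × ℤ := fun n => (nextSide Q)^[n] s
  have hsd : ∀ n, IsSide Q (sd n) := fun n => isSide_iter hs n
  have hsucc : ∀ n, sd (n + 1) = nextSide Q (sd n) := fun n => Function.iterate_succ_apply' _ _ _
  -- the chain through `O`
  have hch : Ch O (tail (sd c)) (tail (sd a)) :=
    ((Ch.corner hc (corn_tail (sd c))).symm.trans (Ch.of_j4 hc (hO _ hc _ ha))).trans
      (Ch.corner ha (corn_tail (sd a)))
  obtain ⟨m, hm1, hm2, hm3⟩ := hch
  let p : ℤ × ℤ → ZMod 2 := fun l => ∑ i ∈ Ico a c, if lab (sd i) = l then 1 else 0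
  let n : ℤ × ℤ → ZMod 2 := fun l => p l + m l
  have hpfin : {l : ℤ × ℤ | p l ≠ 0}.Finite := by
    refine ((Ico a c).image (fun i => lab (sd i))).finite_toSet.subset ?_
    intro l hl
    by_contra hna
    apply hl
    refine Finset.sum_eq_zero fun i hi => ?_
    rw [if_neg]
    intro h
    apply hna
    simp only [Finset.coe_image, Set.mem_image, Finset.mem_coe]
    exact ⟨i, hi, h⟩
  have hfin : {l : ℤ × ℤ | n l ≠ 0}.Finite := by
    refine (hpfin.union hm1).subset ?_
    intro l hl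
    by_contra hcon
    simp only [Set.mem_union, Set.mem_ofPred_eq, not_or, not_not] at hcon
    exact hl (by simp only [n, hcon.1, hcon.2, add_zero])
  have hpdeg : ∀ v, deg p v = (if tail (sd a) = v then 1 else 0) +
      (if tail (sd c) = v then 1 else 0) := by
    intro v
    have e : deg p v = ∑ i ∈ Ico a c, ((if tail (sd i) = v then (1 : ZMod 2) else 0) +
        (if tail (sd (i + 1)) = v then 1 else 0)) := by
      unfold deg
      simp only [p]
      rw [← Finset.sum_add_distrib, ← Finset.sum_add_distrib, ← Finset.sum_add_distrib]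
      refine Finset.sum_congr rfl fun i _ => ?_
      rw [lab_eq_tail, lab_vertex, hsucc, head_eq_tail_next]
      rfl
    rw [e]
    have tele : ∀ c', a ≤ c' → ∑ i ∈ Ico a c', ((if tail (sd i) = v then (1 : ZMod 2) else 0) +
        (if tail (sd (i + 1)) = v then 1 else 0)) = (if tail (sd a) = v then 1 else 0) +
        (if tail (sd c') = v then 1 else 0) := by
      intro c' hc'
      induction c', hc' using Nat.le_induction with
      | base => rw [Ico_self, Finset.sum_empty, z2_add_self]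
      | succ k hk ih =>
        rw [Finset.sum_Ico_succ_top hk, ih]
        have := z2_add_self (if tail (sd k) = v then (1 : ZMod 2) else 0)
        calc _ = (if tail (sd a) = v then (1 : ZMod 2) else 0) +
              ((if tail (sd k) = v then 1 else 0) + (if tail (sd k) = v then 1 else 0)) +
              (if tail (sd (k + 1)) = v then 1 else 0) := by ring
          _ = _ := by rw [this, add_zero]
    exact tele c (by omega)
  have hdeg : ∀ v : ℤ × ℤ, n (2 * v.1 + 1, 2 * v.2) + n (2 * v.1 - 1, 2 * v.2) +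
      n (2 * v.1, 2 * v.2 + 1) + n (2 * v.1, 2 * v.2 - 1) = 0 := by
    intro v
    have e : n (2 * v.1 + 1, 2 * v.2) + n (2 * v.1 - 1, 2 * v.2) +
      n (2 * v.1, 2 * v.2 + 1) + n (2 * v.1, 2 * v.2 - 1) = deg p v + deg m v := by
      unfold deg; simp only [n]; ring
    rw [e, hpdeg, hm3]
    have e1 := z2_add_self (if tail (sd a) = v then (1 : ZMod 2) else 0)
    have e2 := z2_add_self (if tail (sd c) = v then (1 : ZMod 2) else 0)
    calc _ = ((if tail (sd a) = v then (1 : ZMod 2) else 0) +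
          (if tail (sd a) = v then 1 else 0)) + ((if tail (sd c) = v then 1 else 0) +
          (if tail (sd c) = v then 1 else 0)) := by ring
      _ = _ := by rw [e1, e2, add_zero]
  obtain ⟨S, hS⟩ := even_faces n hfin hdeg
  let χ : ℤ × ℤ → ZMod 2 := fun c => S (c + (1, 1))
  have hχ : ∀ (c : ℤ × ℤ) (j : ℤ), χ c + χ (c + dir j) = n (c + c + (1, 1) + dir j) := by
    intro c j
    have h := hS (c + (1, 1)) (c + dir j + (1, 1)) (by
      have : c + dir j + (1, 1) - (c + (1, 1)) = dir j := by abel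
      rw [this]; exact isUnit4_dir j)
    simp only [χ]
    rw [h]
    congr 1
    abel
  have hzero : ∀ (c : ℤ × ℤ) (j : ℤ), (c ∈ Q ↔ c + dir j ∈ Q) → c ∉ O → c + dir j ∉ O →
      χ (c + dir j) = χ c := by
    intro c j h1 h2 h3
    have h := hχ c j
    have h0 : p (c + c + (1, 1) + dir j) = 0 := by
      refine Finset.sum_eq_zero fun i _ => ?_
      rw [if_neg]
      exact lab_ne (hsd i) h1
    have h0' : m (c + c + (1, 1) + dir j) = 0 := by
      by_contra hne
      exact not_OE h2 h3 (hm2 _ hne)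
    simp only [n] at h
    rw [h0, h0', add_zero] at h
    generalize χ (c + dir j) = a at h ⊢
    generalize χ c = b at h ⊢
    revert a b; decide
  have hin : ∀ c ∈ Q, ∀ d ∈ Q, χ d = χ c := by
    intro c hc d hd
    have : d ∈ Q ∧ χ d = χ c := by
      refine J4.induct (S := (Q : Set (ℤ × ℤ))) (P := fun x => x ∈ Q ∧ χ x = χ c)
        (hQ c hc d hd) ⟨hc, rfl⟩ ?_
      rintro a b ⟨h1, h2⟩ ⟨k, rfl⟩ hb
      refine ⟨hb, ?_⟩
      rw [hzero a k ⟨fun _ => hb, fun _ => h1⟩ (fun h => hOQ _ h h1) (fun h => hOQ _ h hb)]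
      exact h2
    exact this.2
  have hout : ∀ c ∈ H, ∀ d ∈ H, χ d = χ c := by
    intro c hc d hd
    have : d ∈ H ∧ χ d = χ c := by
      refine J4.induct (S := H) (P := fun x => x ∈ H ∧ χ x = χ c)
        (hH c hc d hd) ⟨hc, rfl⟩ ?_
      rintro a b ⟨h1, h2⟩ ⟨k, rfl⟩ hb
      refine ⟨hb, ?_⟩
      rw [hzero a k ⟨fun h => (hHQ _ h1 h).elim, fun h => (hHQ _ hb h).elim⟩
        (fun h => hOH _ h h1) (fun h => hOH _ h hb)]
      exact h2
    exact this.2
  -- the two sides `b`, `d`
  have hlab : ∀ i, lab (sd i) = (sd i).1 + (sd i).1 + (1, 1) + dir ((sd i).2 - 1) := fun i => rfl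
  have hm0 : ∀ i, outc (sd i) ∈ H → m (lab (sd i)) = 0 := by
    intro i hi
    by_contra hne
    refine not_OE (fun h => hOQ _ h (hsd i).1) (fun h => hOH _ h hi) (hm2 _ hne)
  have hpb : p (lab (sd b)) = 1 := by
    simp only [p]
    rw [Finset.sum_eq_single b]
    · simp
    · intro i hi hib
      rw [mem_Ico] at hi
      rw [if_neg]
      intro h
      have h1 := lab_inj (hsd i) (hsd b) h
      exact hib (hinj i (by omega) b (by omega) h1.1 h1.2)
    · intro h
      exact absurd (mem_Ico.2 ⟨hab.le, hbc⟩) h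
  have hpd : p (lab (sd d)) = 0 := by
    refine Finset.sum_eq_zero fun i hi => ?_
    rw [mem_Ico] at hi
    rw [if_neg]
    intro h
    have h1 := lab_inj (hsd i) (hsd d) h
    have := hinj i (by omega) d (by omega) h1.1 h1.2
    omega
  have k1 : χ (sd b).1 + χ (outc (sd b)) = 1 := by
    have := hχ (sd b).1 ((sd b).2 - 1)
    rw [← hlab] at this
    rw [show outc (sd b) = (sd b).1 + dir ((sd b).2 - 1) from rfl, this]
    simp only [n]
    rw [hpb, hm0 b hb, add_zero]
  have k2 : χ (sd d).1 + χ (outc (sd d)) = 0 := by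
    have := hχ (sd d).1 ((sd d).2 - 1)
    rw [← hlab] at this
    rw [show outc (sd d) = (sd d).1 + dir ((sd d).2 - 1) from rfl, this]
    simp only [n]
    rw [hpd, hm0 d hd, add_zero]
  rw [hin _ (hsd b).1 _ (hsd d).1, hout _ hb _ hd, k1] at k2
  exact one_ne_zero k2

/-- **One run.** All outer cells lie in `O ∪ H`, the first side is an `O`-side: the `H`-sides of the
boundary walk form one run. -/
theorem one_run (hQ : Conn4 (Q : Set (ℤ × ℤ))) (hO : Conn4 O) (hH : Conn4 H)
    (hOQ : ∀ c ∈ O, c ∉ Q) (hHQ : ∀ c ∈ H, c ∉ Q) (hOH : ∀ c ∈ O, c ∉ H) (hs : IsSide Q s)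
    (hall : ∀ t, IsSide Q t → outc t ∈ O ∨ outc t ∈ H)
    {N : ℕ} (hN : 0 < N)
    (hinj : ∀ n < N, ∀ n' < N, ((nextSide Q)^[n] s).1 = ((nextSide Q)^[n'] s).1 →
      (((nextSide Q)^[n] s).2 - ((nextSide Q)^[n'] s).2) % 4 = 0 → n = n')
    (h0 : outc s ∈ O) : ∃ n1 n2 : ℕ, 0 < n1 ∧ n1 ≤ n2 ∧ n2 ≤ N ∧
      ∀ n < N, outc ((nextSide Q)^[n] s) ∈ H ↔ n1 ≤ n ∧ n < n2 := by
  classical
  by_cases hex : ∃ n, n < N ∧ outc ((nextSide Q)^[n] s) ∈ H
  · have hex' := hex
    set n1 := Nat.find hex with hn1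
    obtain ⟨h1, h2⟩ := Nat.find_spec hex
    have hmin : ∀ n < N, outc ((nextSide Q)^[n] s) ∈ H → n1 ≤ n := fun n hn h =>
      Nat.find_min' hex ⟨hn, h⟩
    have hn0 : 0 < n1 := by
      rcases Nat.eq_zero_or_pos n1 with h | h
      · exfalso
        rw [← hn1, h] at h2
        exact hOH _ h0 h2
      · exact h
    -- the largest index
    obtain ⟨n2, hn2, hmax⟩ : ∃ n2, (n2 < N ∧ outc ((nextSide Q)^[n2] s) ∈ H) ∧
        ∀ n, (n < N ∧ outc ((nextSide Q)^[n] s) ∈ H) → n ≤ n2 := by
      have hb : ∃ m, ∀ n, (n < N ∧ outc ((nextSide Q)^[n] s) ∈ H) → n ≤ m :=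
        ⟨N, fun n hn => hn.1.le⟩
      set m := Nat.find hb with hm
      refine ⟨m, ?_, fun n hn => Nat.find_spec hb n hn⟩
      by_contra hcon
      have hm0 : m ≠ 0 := by
        intro h
        have := Nat.find_spec hb _ hex'.choose_spec
        rw [← hm, h] at this
        have e : hex'.choose = 0 := by omega
        have h3 := hex'.choose_spec
        rw [e] at h3
        rw [h] at hcon
        exact hcon h3
      have : ∀ n, (n < N ∧ outc ((nextSide Q)^[n] s) ∈ H) → n ≤ m - 1 := by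
        intro n hn
        have h3 := Nat.find_spec hb n hn
        rw [← hm] at h3
        rcases eq_or_lt_of_le h3 with h4 | h4
        · exfalso; rw [h4] at hn; exact hcon hn
        · omega
      have := Nat.find_min' hb this
      rw [← hm] at this
      omega
    refine ⟨n1, n2 + 1, hn0, ?_, by omega, ?_⟩
    · have := hmin n2 hn2.1 hn2.2
      omega
    · intro n hn
      constructor
      · intro h
        exact ⟨hmin n hn h, by have := hmax n ⟨hn, h⟩; omega⟩
      · rintro ⟨h3, h4⟩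
        by_contra hnH
        have hnO : outc ((nextSide Q)^[n] s) ∈ O :=
          (hall _ (isSide_iter hs n)).resolve_right hnH
        have h5 : n1 < n := by
          rcases eq_or_lt_of_le h3 with h | h
          · exfalso; rw [← h] at hnH; exact hnH h2
          · exact h
        have h6 : n < n2 := by
          rcases Nat.lt_or_ge n n2 with h | h
          · exact h
          · exfalso
            have : n = n2 := by omega
            rw [this] at hnH
            exact hnH hn2.2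
        exact no_alt hQ hO hH hOQ hHQ hOH hs hinj hn0 h5 h6 hn2.1 h0 h2 hnO hn2.2
  · refine ⟨N, N, hN, le_rfl, le_rfl, fun n hn => ?_⟩
    constructor
    · intro h; exact absurd ⟨n, hn, h⟩ hex
    · intro h; omega

end Pool.Agent.Q1.M3.Pg
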