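import Pool.Agent.Q1.M3.Run

set_option autoImplicit false
open Finset

/-! Module M3: regions `P \ H` whose boundary lines have types. There are four types of grid lines:
lower (left, bottom) and upper (right, top) sides of fine squares, lower and upper sides of coarse
squares; a line has at most one type. The boundary of `P \ H` with the outside of `P` runs on
fine lines, the boundary with `H` runs on coarse lines, in both cases of the correct kind. -/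

namespace Pool.Agent.Q1.M3.Pg

open Pool.Agent.H75.Perc (dir dir_cases)
open Pool.Agent.Q1.M4

/-- Types of grid lines. -/
inductive LT
  | no | loF | hiF | loC | hiC
  deriving DecidableEq

/-- The types of the boundary lines of `P`, `H` in both coordinates. -/
structure Typed (t : ℤ → LT) (P H : Finset (ℤ × ℤ)) : Prop where
  sub : H ⊆ P
  xO1 : ∀ N M : ℤ, (N, M) ∈ P → (N, M) ∉ H → (N - 1, M) ∉ P → t N = LT.loF
  xO2 : ∀ N M : ℤ, (N - 1, M) ∈ P → (N - 1, M) ∉ H → (N, M) ∉ P → t N = LT.hiF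
  xH1 : ∀ N M : ℤ, (N - 1, M) ∈ P → (N - 1, M) ∉ H → (N, M) ∈ H → t N = LT.loC
  xH2 : ∀ N M : ℤ, (N, M) ∈ P → (N, M) ∉ H → (N - 1, M) ∈ H → t N = LT.hiC
  xP1 : ∀ N M : ℤ, (N, M) ∈ P → (N - 1, M) ∉ P → t N = LT.loF ∨ t N = LT.loC
  xP2 : ∀ N M : ℤ, (N - 1, M) ∈ P → (N, M) ∉ P → t N = LT.hiF ∨ t N = LT.hiC
  yO1 : ∀ N M : ℤ, (N, M) ∈ P → (N, M) ∉ H → (N, M - 1) ∉ P → t M = LT.loF
  yO2 : ∀ N M : ℤ, (N, M - 1) ∈ P → (N, M - 1) ∉ H → (N, M) ∉ P → t M = LT.hiF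
  yH1 : ∀ N M : ℤ, (N, M - 1) ∈ P → (N, M - 1) ∉ H → (N, M) ∈ H → t M = LT.loC
  yH2 : ∀ N M : ℤ, (N, M) ∈ P → (N, M) ∉ H → (N, M - 1) ∈ H → t M = LT.hiC
  yP1 : ∀ N M : ℤ, (N, M) ∈ P → (N, M - 1) ∉ P → t M = LT.loF ∨ t M = LT.loC
  yP2 : ∀ N M : ℤ, (N, M - 1) ∈ P → (N, M) ∉ P → t M = LT.hiF ∨ t M = LT.hiC

variable {t : ℤ → LT} {P H : Finset (ℤ × ℤ)}

/-- No pinch point of `P \ H`, one diagonal. -/
lemma Typed.diag1 (h : Typed t P H) (c : ℤ × ℤ) (h1 : c ∈ P \ H) (h2 : c + (1, 1) ∈ P \ H) :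
    c + (1, 0) ∈ P \ H ∨ c + (0, 1) ∈ P \ H := by
  obtain ⟨i, j⟩ := c
  simp only [Prod.mk_add_mk, add_zero, mem_sdiff] at h1 h2 ⊢
  have a1 := h.xO1 (i + 1) (j + 1)
  have a2 := h.xO2 (i + 1) j
  have a3 := h.xH1 (i + 1) j
  have a4 := h.xH2 (i + 1) (j + 1)
  simp only [add_sub_cancel_right] at a1 a2 a3 a4
  by_contra hcon
  push Not at hcon
  obtain ⟨c1, c2⟩ := hcon
  by_cases e1 : (i + 1, j) ∈ P
  · have b3 := a3 h1.1 h1.2 (c1 e1)
    by_cases e2 : (i, j + 1) ∈ P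
    · have b4 := a4 h2.1 h2.2 (c2 e2)
      rw [b3] at b4; exact absurd b4 (by decide)
    · have b1 := a1 h2.1 h2.2 e2
      rw [b3] at b1; exact absurd b1 (by decide)
  · have b2 := a2 h1.1 h1.2 e1
    by_cases e2 : (i, j + 1) ∈ P
    · have b4 := a4 h2.1 h2.2 (c2 e2)
      rw [b2] at b4; exact absurd b4 (by decide)
    · have b1 := a1 h2.1 h2.2 e2
      rw [b2] at b1; exact absurd b1 (by decide)

/-- No pinch point of `P \ H`, other diagonal. -/
lemma Typed.diag2 (h : Typed t P H) (c : ℤ × ℤ) (h1 : c + (1, 0) ∈ P \ H)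
    (h2 : c + (0, 1) ∈ P \ H) : c ∈ P \ H ∨ c + (1, 1) ∈ P \ H := by
  obtain ⟨i, j⟩ := c
  simp only [Prod.mk_add_mk, add_zero, mem_sdiff] at h1 h2 ⊢
  have a1 := h.xO1 (i + 1) j
  have a2 := h.xO2 (i + 1) (j + 1)
  have a3 := h.xH1 (i + 1) (j + 1)
  have a4 := h.xH2 (i + 1) j
  simp only [add_sub_cancel_right] at a1 a2 a3 a4
  by_contra hcon
  push Not at hcon
  obtain ⟨c1, c2⟩ := hcon
  by_cases e1 : (i, j) ∈ P
  · have b4 := a4 h1.1 h1.2 (c1 e1)
    by_cases e2 : (i + 1, j + 1) ∈ P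
    · have b3 := a3 h2.1 h2.2 (c2 e2)
      rw [b4] at b3; exact absurd b3 (by decide)
    · have b2 := a2 h2.1 h2.2 e2
      rw [b4] at b2; exact absurd b2 (by decide)
  · have b1 := a1 h1.1 h1.2 e1
    by_cases e2 : (i + 1, j + 1) ∈ P
    · have b3 := a3 h2.1 h2.2 (c2 e2)
      rw [b1] at b3; exact absurd b3 (by decide)
    · have b2 := a2 h2.1 h2.2 e2
      rw [b1] at b2; exact absurd b2 (by decide)

/-- Every boundary side of a component of `P \ H` has its outer cell outside `P` or in `H`. -/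
lemma outc_cases {ct : ℤ × ℤ} {s : (ℤ × ℤ) × ℤ} (hs : IsSide (comp (P \ H) ct) s) :
    outc s ∉ P ∨ outc s ∈ H := by
  by_contra hcon
  push Not at hcon
  exact hs.2 (comp_adj hs.1 (mem_sdiff.2 hcon) ⟨s.2 - 1, rfl⟩)

/-- **The components of `P \ H` are good polyominoes.** -/
theorem good_comp (h : Typed t P H) (hO : Conn4 ((P : Set (ℤ × ℤ))ᶜ)) (hP : Conn4 (P : Set (ℤ × ℤ)))
    {o0 : ℤ × ℤ} (ho : o0 ∉ P) (hne : H.Nonempty)
    (hH : ∀ c ∈ H, J4 ((H : Set (ℤ × ℤ)) ∪ (P : Set (ℤ × ℤ))ᶜ) c o0)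
    {ct : ℤ × ℤ} (hct : ct ∈ P \ H) : Good (comp (P \ H) ct) := by
  set R := comp (P \ H) ct with hR
  have hRsub : R ⊆ P \ H := comp_subset _ _
  refine ⟨⟨ct, self_mem_comp hct⟩, comp_conn hct, ?_, ?_, ?_⟩
  · -- all cells of the complement are joined to `o0`
    have h1 : ((P : Set (ℤ × ℤ))ᶜ) ⊆ ((R : Set (ℤ × ℤ))ᶜ) := by
      intro c hc hcR
      exact hc (mem_sdiff.1 (hRsub hcR)).1
    have h2 : (H : Set (ℤ × ℤ)) ⊆ ((R : Set (ℤ × ℤ))ᶜ) := by
      intro c hc hcR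
      exact (mem_sdiff.1 (hRsub hcR)).2 hc
    have ho' : o0 ∈ ((P : Set (ℤ × ℤ))ᶜ) := by simpa using ho
    have key1 : ∀ c ∈ H, J4 ((R : Set (ℤ × ℤ))ᶜ) c o0 := by
      intro c hc
      exact J4.mono (Set.union_subset h2 h1) (hH c hc)
    obtain ⟨h0, hh⟩ := hne
    have key : ∀ c ∈ ((R : Set (ℤ × ℤ))ᶜ), J4 ((R : Set (ℤ × ℤ))ᶜ) c o0 := by
      intro c hc
      by_cases hcP : c ∈ P
      · by_cases hcH : c ∈ H
        · exact key1 c hcH
        · have h3 : J4 (P : Set (ℤ × ℤ)) c h0 := hP c hcP h0 (h.sub hh)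
          obtain ⟨a, b, ha1, ha2, hb1, hb2, hab, hca⟩ := h3.exit
            (T := ((P \ H : Finset (ℤ × ℤ)) : Set (ℤ × ℤ))) (by simp [hcP, hcH]) (by simp [hh]) hcP
          have hbH : b ∈ H := by
            by_contra hbH
            exact hb2 (by
              rw [mem_coe, mem_sdiff]; exact ⟨hb1, hbH⟩)
          have h4 : J4 ((R : Set (ℤ × ℤ))ᶜ) c a ∧ a ∉ R ∧ a ∈ P \ H := by
            refine hca.induct (P := fun x => J4 ((R : Set (ℤ × ℤ))ᶜ) c x ∧ x ∉ R ∧ x ∈ P \ H)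
              ⟨J4.refl _ _, by simpa using hc, mem_sdiff.2 ⟨hcP, hcH⟩⟩ ?_
            rintro u v ⟨h5, h6, h7⟩ huv hv
            have hvR : v ∉ R := fun hvR => h6 (comp_adj hvR h7 (adj4_symm huv))
            exact ⟨h5.tail huv (by simpa using hvR), hvR, hv.2⟩
          exact (h4.1.tail hab (h2 hbH)).trans (key1 b hbH)
      · exact J4.mono h1 (hO c (by simpa using hcP) o0 ho')
    intro c hc d hd
    exact (key c hc).trans ((key d hd).symm hd)
  · intro c hc1 hc2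
    rcases h.diag1 c (hRsub hc1) (hRsub hc2) with h3 | h3
    · left; exact comp_adj hc1 h3 ⟨0, by
        have : dir 0 = (1, 0) := by decide
        rw [this]⟩
    · right; exact comp_adj hc1 h3 ⟨1, by
        have : dir 1 = (0, 1) := by decide
        rw [this]⟩
  · intro c hc1 hc2
    rcases h.diag2 c (hRsub hc1) (hRsub hc2) with h3 | h3
    · left; exact comp_adj hc1 h3 ⟨2, by
        have : dir 2 = (-1, 0) := by decide
        rw [this]; ext <;> simp⟩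
    · right; exact comp_adj hc1 h3 ⟨1, by
        have : dir 1 = (0, 1) := by decide
        rw [this]; ext <;> simp⟩

end Pool.Agent.Q1.M3.Pg
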